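import Pool.Agent.MP_6b3410_lc.D4.Spec2

/-! Many sets of columns avoid a given small set. -/

set_option autoImplicit false

namespace Pool.Agent.MP_6b3410_lc.D4

open Finset

namespace BinomL

theorem ident {n h L : ℕ} (hn : L + h ≤ n) :
    n.choose h * (n - h).descFactorial L = (n - L).choose h * n.descFactorial L := by
  have h1 := Nat.choose_mul_factorial_mul_factorial (show h ≤ n by omega)
  have h2 := Nat.factorial_mul_descFactorial (show L ≤ n - h by omega)
  have h3 := Nat.choose_mul_factorial_mul_factorial (show h ≤ n - L by omega)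
  have h4 := Nat.factorial_mul_descFactorial (show L ≤ n by omega)
  rw [show n - L - h = n - h - L by omega] at h3
  refine Nat.eq_of_mul_eq_mul_right (Nat.mul_pos h.factorial_pos (n - h - L).factorial_pos) ?_
  calc _ = n.choose h * h.factorial * ((n - h - L).factorial * (n - h).descFactorial L) := by ring
    _ = (n - L).choose h * h.factorial * (n - h - L).factorial * n.descFactorial L := by
      rw [h2, h1, h3, h4]
    _ = _ := by ring

theorem low {g L : ℕ} (hL : L ≤ g) : (g * (g - L)) ^ L ≤ g.descFactorial L ^ 2 := by
  rw [sq, Nat.descFactorial_eq_prod_range]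
  nth_rewrite 2 [← prod_range_reflect]
  rw [← prod_mul_distrib, ← card_range L, ← prod_const, card_range]
  refine prod_le_prod' fun i hi => ?_
  rw [mem_range] at hi
  obtain ⟨j, rfl⟩ : ∃ j, L = i + j + 1 := ⟨L - 1 - i, by omega⟩
  obtain ⟨c, rfl⟩ := Nat.exists_eq_add_of_le hL
  rw [show i + j + 1 + c - (i + j + 1) = c by omega, show i + j + 1 + c - i = j + 1 + c by omega,
    show i + j + 1 + c - (i + j + 1 - 1 - i) = i + 1 + c by omega]
  nlinarith [Nat.zero_le (i * j)]

end BinomL

theorem binom : BinomStmt := by
  intro n h L S hS hn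
  have e : (powersetCard h (univ : Finset (Fin n))).filter (fun H => Disjoint H S)
      = powersetCard h Sᶜ := by
    ext H
    simp only [mem_filter, mem_powersetCard, subset_univ, true_and, subset_compl_iff_disjoint_right]
    exact and_comm
  rw [e, card_powersetCard, card_compl, Fintype.card_fin]
  have h1 : (n - L).choose h ≤ (n - S.card).choose h := Nat.choose_le_choose h (by omega)
  calc _ ≤ n.choose h ^ 2 * (n - h).descFactorial L ^ 2 :=
        Nat.mul_le_mul_left _ (BinomL.low (by omega))
    _ = (n - L).choose h ^ 2 * n.descFactorial L ^ 2 := by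
        rw [← mul_pow, BinomL.ident hn, mul_pow]
    _ ≤ _ := by
        rw [pow_mul']
        exact Nat.mul_le_mul (Nat.pow_le_pow_left h1 2)
          (Nat.pow_le_pow_left (Nat.descFactorial_le_pow n L) 2)

end Pool.Agent.MP_6b3410_lc.D4
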