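import Pool.Agent.MP_6b3410_lc.D4.Spec

/-!
Row COUNT: for half of the shifts the search tree is small.
-/

set_option autoImplicit false

namespace Pool.Agent.MP_6b3410_lc.D4

open Finset
open scoped Classical

namespace CountL

variable {n : ℕ} (M : Fin n → (Fin n → ZMod 2) → B)

theorem pairs (p : Fin n → (Fin 4 → ZMod 2) → Prop) [∀ c, DecidablePred (p c)] :
    ∑ ρ : Fin n → B, (univ.filter fun y => ∀ c, p c (form ρ M c y)).card =
      ∏ c, (univ.filter (p c)).card := by
  have e : ∑ ρ : Fin n → B, (univ.filter fun y => ∀ c, p c (form ρ M c y)).card =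
      (univ.filter fun q : (Fin n → B) × (Fin n → ZMod 2) =>
        ∀ c, p c (form q.1 M c q.2)).card := by
    simp only [card_filter, Fintype.sum_prod_type]
  rw [e, ← Fintype.card_piFinset]
  refine card_nbij' (fun q c => form q.1 M c q.2)
    (fun l => (fun c => Fin.tail (l c) - M c fun c => l c 0, fun c => l c 0)) (fun q h => ?_)
    (fun l h => ?_) (fun q _ => ?_) fun l _ => ?_
  · simpa using h
  · simpa [form] using h
  · simp [form]
  · simp [form]

theorem br (b : Fin 4) : (univ.filter (Br b)).card * 2 ^ (b.val + 1) = 16 := by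
  have : ∀ b : Fin 4, (univ.filter fun l : Fin 4 → ZMod 2 =>
      l b = 1 ∧ ∀ i, i < b → l i = 0).card * 2 ^ (b.val + 1) = 16 := by decide
  convert this b
  rfl

theorem nz : (univ.filter fun l : Fin 4 → ZMod 2 => l ≠ 0).card = 15 := by
  rw [filter_ne', card_erase_of_mem (mem_univ _)]; simp

theorem mn {x u : ℝ} (h1 : 1 ≤ x) (h2 : x ≤ 2) (h0 : 0 ≤ u) {n e : ℕ} (a : u ≤ 1)
    (b : u * 2 ^ e ≤ 2 ^ n) : u * x ^ e ≤ x ^ n := by
  rcases le_total e n with h | h
  · exact (mul_le_of_le_one_left (by positivity) a).trans (pow_le_pow_right₀ h1 h)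
  · obtain ⟨k, rfl⟩ := Nat.exists_eq_add_of_le h
    rw [pow_add, mul_left_comm] at b ⊢
    refine mul_le_of_le_one_right (by positivity) (le_trans ?_
      ((mul_le_iff_le_one_right (by positivity)).1 b))
    gcongr

theorem one (i : ℕ) (b : Fin n → Fin 4) :
    ((univ.filter fun ρ : Fin n → B => ∃ y, ∀ c : Fin n, c.val < i →
      Br (b c) (form ρ M c y)).card : ℝ) ≤ 8 ^ n * (241 / 125) ^ n *
        ∏ c : Fin n, if c.val < i then (125 / 241 : ℝ) ^ ((b c).val + 1) else 1 := by
  set N := (univ.filter fun ρ : Fin n → B => ∃ y, ∀ c : Fin n, c.val < i →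
    Br (b c) (form ρ M c y)).card
  set e := ∑ c : Fin n, if c.val < i then (b c).val + 1 else 0
  have a1 : N ≤ 8 ^ n := (card_le_univ _).trans_eq (by simp)
  have a2 : N * 2 ^ e ≤ 16 ^ n := by
    have : N ≤ ∏ c : Fin n, (univ.filter fun l => c.val < i → Br (b c) l).card := by
      rw [← pairs M fun c l => c.val < i → Br (b c) l]
      refine (card_filter _ _).trans_le (sum_le_sum fun ρ _ => ?_)
      split_ifs with h
      · exact card_pos.2 ⟨h.choose, mem_filter.2 ⟨mem_univ _, h.choose_spec⟩⟩
      · exact Nat.zero_le _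
    refine (Nat.mul_le_mul_right _ this).trans ?_
    rw [← prod_pow_eq_pow_sum, ← prod_mul_distrib]
    refine (prod_le_pow_card _ _ 16 fun c _ => ?_).trans_eq (by simp)
    split_ifs with h
    · simpa only [h, forall_const] using (br (b c)).le
    · simp [h]
  have a3 : (∏ c : Fin n, if c.val < i then (125 / 241 : ℝ) ^ ((b c).val + 1) else 1) =
      ((241 / 125) ^ e)⁻¹ := by
    rw [← inv_pow, ← prod_pow_eq_pow_sum]
    exact prod_congr rfl fun c _ => by split_ifs <;> simp
  have a4 := mn (x := 241 / 125) (u := N / 8 ^ n) (n := n) (e := e) (by norm_num) (by norm_num)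
    (by positivity) ((div_le_one (by positivity)).2 (by exact_mod_cast a1)) (by
      rw [div_mul_eq_mul_div, div_le_iff₀ (by positivity), ← mul_pow]
      norm_num
      exact_mod_cast a2)
  rw [div_mul_eq_mul_div, div_le_iff₀ (by positivity)] at a4
  rw [a3, ← div_eq_mul_inv, le_div_iff₀ (by positivity)]
  linarith

theorem nod (i : ℕ) : ∑ ρ : Fin n → B, (nodes i (form ρ M) : ℝ) ≤ 8 ^ n * (241 / 125) ^ n := by
  have e : ∑ ρ : Fin n → B, nodes i (form ρ M) =
      ∑ b ∈ univ.filter fun b : Fin n → Fin 4 => ∀ c : Fin n, i ≤ c.val → b c = 0,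
        (univ.filter fun ρ : Fin n → B => ∃ y, ∀ c : Fin n, c.val < i →
          Br (b c) (form ρ M c y)).card := by
    simp only [nodes, card_filter, sum_filter]
    rw [sum_comm]
    refine sum_congr rfl fun b _ => ?_
    split_ifs with h
    · exact sum_congr rfl fun ρ _ => if_congr (and_iff_right h) rfl rfl
    · simp [h]
  rw [← Nat.cast_sum, e, Nat.cast_sum]
  refine (sum_le_sum fun b _ => one M i b).trans ?_
  rw [← mul_sum]
  refine mul_le_of_le_one_right (by positivity) ?_
  calc _ = ∑ b : Fin n → Fin 4, ∏ c : Fin n, if c.val < i then (125 / 241 : ℝ) ^ ((b c).val + 1)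
        else if b c = 0 then 1 else 0 := by
        rw [sum_filter]
        refine sum_congr rfl fun b _ => ?_
        split_ifs with h
        · exact prod_congr rfl fun c _ => by
            by_cases k : c.val < i
            · simp [k]
            · simp [k, h c (not_lt.1 k)]
        · push Not at h
          obtain ⟨c, h1, h2⟩ := h
          exact (prod_eq_zero (mem_univ c) (by simp [h1.not_gt, h2])).symm
    _ = ∏ c : Fin n, ∑ β : Fin 4, if c.val < i then (125 / 241 : ℝ) ^ (β.val + 1)
        else if β = 0 then 1 else 0 := by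
        rw [prod_univ_sum, Fintype.piFinset_univ]
    _ ≤ 1 := prod_le_one (fun c _ => sum_nonneg fun β _ => by positivity) fun c _ => by
        split_ifs
        · norm_num [Fin.sum_univ_four]
        · simp

theorem pt {j : ℕ} (h : j ≤ n) (h' : 4 * n ≤ 7 * j) :
    ∑ ρ : Fin n → B, ((pts j (form ρ M)).card : ℝ) ≤ 8 ^ n * (241 / 125) ^ n := by
  have e : ∑ ρ : Fin n → B, (pts j (form ρ M)).card =
      ∏ c : Fin n, (univ.filter fun l : Fin 4 → ZMod 2 => c.val < j → l ≠ 0).card := by
    rw [← pairs M fun c l => c.val < j → l ≠ 0]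
    exact sum_congr rfl fun ρ _ => congrArg card (by ext; simp [pts])
  rw [← Nat.cast_sum, e, Nat.cast_prod]
  calc _ = ∏ c : Fin n, 16 * if c.val < j then (15 / 16 : ℝ) else 1 :=
        prod_congr rfl fun c _ => by
          split_ifs with k
          · simp only [k, forall_const, nz]; norm_num
          · simp [k]
    _ = 8 ^ n * (2 ^ n * (15 / 16) ^ j) := by
        rw [← mul_assoc, ← mul_pow, prod_mul_distrib, prod_ite]
        simp only [prod_const, Fin.card_filter_val_lt, min_eq_right h, card_univ, Fintype.card_fin,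
          one_pow, mul_one]
        norm_num
    _ ≤ _ := by
        refine mul_le_mul_of_nonneg_left (le_of_pow_le_pow_left₀ (n := 7) (by norm_num)
          (by positivity) ?_) (by positivity)
        calc _ = (2 ^ 7) ^ n * (15 / 16 : ℝ) ^ (7 * j) := by
              rw [mul_pow, ← pow_mul, ← pow_mul, ← pow_mul, mul_comm n, mul_comm j]
          _ ≤ (2 ^ 7) ^ n * (15 / 16 : ℝ) ^ (4 * n) := mul_le_mul_of_nonneg_left
            (pow_le_pow_of_le_one (by norm_num) (by norm_num) h') (by positivity)
          _ = (2 ^ 7 * (15 / 16) ^ 4) ^ n := by rw [mul_pow, pow_mul]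
          _ ≤ ((241 / 125) ^ 7) ^ n := pow_le_pow_left₀ (by positivity) (by norm_num) n
          _ = _ := by rw [← pow_mul, ← pow_mul, mul_comm]

end CountL

theorem count : CountStmt := by
  intro n j M h h'
  set K : ℝ := 2 * (n + 2) * (241 / 125) ^ n with hK
  set p : (Fin n → B) → Prop := fun ρ => (∀ i ≤ j, (nodes i (form ρ M) : ℝ) ≤ K) ∧
    ((pts j (form ρ M)).card : ℝ) ≤ K
  have a1 := card_filter_add_card_filter_not (s := univ) p
  have a2 : ((univ.filter fun ρ => ¬p ρ).card : ℝ) * K ≤ ∑ ρ : Fin n → B,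
      (∑ i ∈ range (j + 1), (nodes i (form ρ M) : ℝ) + (pts j (form ρ M)).card) := by
    rw [← nsmul_eq_mul]
    refine (card_nsmul_le_sum _ _ _ fun ρ hρ => ?_).trans
      (sum_le_univ_sum_of_nonneg fun _ => by positivity)
    rcases not_and_or.1 (mem_filter.1 hρ).2 with k | k
    · push Not at k
      obtain ⟨i, k1, k2⟩ := k
      exact k2.le.trans ((single_le_sum (f := fun i => (nodes i (form ρ M) : ℝ))
        (fun _ _ => by positivity) (mem_range.2 (by omega))).trans
          (le_add_of_nonneg_right (by positivity)))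
    · exact (not_le.1 k).le.trans (le_add_of_nonneg_left (by positivity))
  rw [sum_add_distrib, sum_comm] at a2
  have a3 := sum_le_card_nsmul _ _ _ fun i (_ : i ∈ range (j + 1)) => CountL.nod M i
  have a4 := CountL.pt M h h'
  have a5 : (j : ℝ) ≤ n := by exact_mod_cast h
  have a6 : (2 * (univ.filter fun ρ => ¬p ρ).card : ℝ) ≤ 8 ^ n := by
    refine le_of_mul_le_mul_right (a := (n + 2 : ℝ) * (241 / 125) ^ n) ?_ (by positivity)
    rw [card_range, nsmul_eq_mul] at a3
    push_cast at a3
    have : (0 : ℝ) ≤ 8 ^ n * (241 / 125) ^ n := by positivity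
    nlinarith
  have a7 : 2 * (univ.filter fun ρ => ¬p ρ).card ≤ 8 ^ n := by exact_mod_cast a6
  have a8 : (univ : Finset (Fin n → B)).card = 8 ^ n := by simp
  have : 8 ^ n ≤ 2 * (univ.filter p).card := by omega
  convert this

end Pool.Agent.MP_6b3410_lc.D4
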