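import Pool.Agent.MP_6b3410_lc.D4.Spec2

/-!
Row COUNT2: for half of the shifts there are few pairs.
-/

set_option autoImplicit false

namespace Pool.Agent.MP_6b3410_lc.D4

open Finset
open scoped Classical

namespace Count2L

variable {n m b k : ℕ} (M : Fin n → (Fin n → ZMod 2) → BK k)

theorem prs (p : Fin n → BK (k + 1) → Prop) [∀ c, DecidablePred (p c)] :
    (univ.filter fun q : (Fin n → BK k) × (Fin n → ZMod 2) =>
      ∀ c, p c (Fin.cons (q.2 c) (q.1 c + M c q.2))).card = ∏ c, (univ.filter (p c)).card := by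
  rw [← Fintype.card_piFinset]
  refine card_nbij' (fun q c => Fin.cons (q.2 c) (q.1 c + M c q.2))
    (fun l => (fun c => Fin.tail (l c) - M c fun c => l c 0, fun c => l c 0)) (fun q h => ?_)
    (fun l h => ?_) (fun q _ => ?_) fun l _ => ?_
  · simpa using h
  · simpa using h
  · simp
  · simp

theorem half (h : BK (k + 1)) (S : Finset (BK (k + 1))) (hS : ∀ l ∈ S, h ⬝ᵥ l = 1) :
    S.card * 2 ≤ 2 ^ (k + 1) := by
  rcases S.eq_empty_or_nonempty with rfl | ⟨u, hu⟩
  · simp
  have a := card_le_card_of_injOn (s := S) (t := Sᶜ) (fun l => l + u) (fun l hl => by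
    refine mem_coe.2 (mem_compl.2 fun e => ?_)
    have := hS _ e
    rw [dotProduct_add, hS l hl, hS u hu] at this
    exact absurd this (by decide)) (add_left_injective u).injOn
  have c := card_add_card_compl S
  simp only [Fintype.card_pi, ZMod.card, prod_const, card_univ, Fintype.card_fin] at c
  omega

theorem one {e : Fin m × Fin b → Fin n} (he : Function.Injective e)
    (h : Fin m × Fin b → BK (k + 1)) :
    (univ.filter fun q : (Fin n → BK k) × (Fin n → ZMod 2) =>
      ∀ p, h p ⬝ᵥ form2 e q.1 M p q.2 = 1).card ≤ (2 ^ k) ^ n * 2 ^ (n - m * b) := by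
  have c : (univ.image e).card = m * b := by rw [card_image_of_injective _ he]; simp
  have l : m * b ≤ n := c ▸ (card_le_univ _).trans_eq (Fintype.card_fin n)
  refine Nat.le_of_mul_le_mul_right ?_ (Nat.two_pow_pos (m * b))
  refine (Nat.mul_le_mul_right _ ((card_le_card fun q hq => mem_filter.2 ⟨mem_univ _,
    fun c p i => i ▸ (mem_filter.1 hq).2 p⟩).trans_eq
      (prs M fun c l => ∀ p, e p = c → h p ⬝ᵥ l = 1))).trans ?_
  rw [mul_assoc, ← pow_add, Nat.sub_add_cancel l, ← mul_pow, ← pow_succ, ← c, ← prod_const,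
    ← prod_ite_mem_eq (univ.image e), ← prod_mul_distrib]
  refine (prod_le_pow_card _ _ (2 ^ (k + 1)) fun c _ => ?_).trans_eq (by simp)
  split_ifs with i
  · obtain ⟨p, -, i⟩ := mem_image.1 i
    exact half (h p) _ fun l hl => (mem_filter.1 hl).2 p i
  · exact (mul_one _).trans_le ((card_le_univ _).trans_eq (by simp))

end Count2L

theorem count2 : Count2Stmt := by
  intro n m b k K e t M he
  have a : ∑ ρ, pairs K t (form2 e ρ M) ≤ K ^ m * ((2 ^ k) ^ n * 2 ^ (n - m * b)) := by
    refine le_trans (le_of_eq ?_) ((sum_le_card_nsmul univ _ _ fun (q : Fin m → Fin K) _ =>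
      Count2L.one M he fun p => t (q p.1) p.2).trans_eq (by simp))
    simp only [pairs, card_filter, Fintype.sum_prod_type]
    exact sum_comm
  set X := K ^ m * 2 ^ (n - m * b)
  have c : Fintype.card (Fin n → BK k) = (2 ^ k) ^ n := by simp
  set p : (Fin n → BK k) → Prop := fun ρ => pairs K t (form2 e ρ M) ≤ 2 * K ^ m * 2 ^ (n - m * b)
  have a1 := card_filter_add_card_filter_not (s := univ) p
  have a2 := (card_nsmul_le_sum (univ.filter fun ρ => ¬p ρ) _ (2 * X + 1) fun ρ h =>
    Nat.succ_le_of_lt (mul_assoc 2 _ _ ▸ not_le.1 (mem_filter.1 h).2)).trans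
      ((sum_le_sum_of_subset (subset_univ _)).trans a)
  rw [smul_eq_mul, mul_left_comm (K ^ m)] at a2
  change _ ≤ _ * X at a2
  have a3 : 2 * (univ.filter fun ρ => ¬p ρ).card ≤ (2 ^ k) ^ n :=
    Nat.le_of_mul_le_mul_right (by nlinarith [Nat.zero_le ((2 ^ k) ^ n)]) (Nat.add_one_pos (2 * X))
  rw [card_univ, c] at a1
  have : (2 ^ k) ^ n ≤ 2 * (univ.filter p).card := by omega
  rw [c]
  convert this

end Pool.Agent.MP_6b3410_lc.D4
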