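import Pool.Agent.MP_6b3410_lc.D4.Spec2
import Pool.Agent.MP_6b3410_lc.U5.Net

/-!
Row COVER: short covering lists.
-/

set_option autoImplicit false

namespace Pool.Agent.MP_6b3410_lc.D4

open Finset

namespace CoverL

theorem half {k : ℕ} {v : BK (k + 1)} (hv : v ≠ 0) :
    (univ.filter fun h : BK (k + 1) => h ⬝ᵥ v = 1).card = 2 ^ k := by
  have z : ∀ a : ZMod 2, (a ≠ 0 → a = 1) ∧ (a + 1 = 1 ↔ ¬a = 1) ∧ a + a = 0 := by decide
  obtain ⟨i, hi⟩ := Function.ne_iff.1 hv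
  have e : ∀ h : BK (k + 1), (h + Pi.single i 1) ⬝ᵥ v = h ⬝ᵥ v + 1 := fun h => by
    rw [add_dotProduct, single_one_dotProduct, (z _).1 hi]
  have e2 : ∀ h : BK (k + 1), h + Pi.single i 1 + Pi.single i 1 = h := fun h => by
    funext j
    simp only [Pi.add_apply]
    rw [add_assoc, (z _).2.2, add_zero]
  have h1 : (univ.filter fun h : BK (k + 1) => h ⬝ᵥ v = 1).card =
      (univ.filter fun h : BK (k + 1) => ¬h ⬝ᵥ v = 1).card := by
    refine card_nbij' (· + Pi.single i 1) (· + Pi.single i 1) (fun h hh => ?_) (fun h hh => ?_)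
      (fun h _ => e2 h) fun h _ => e2 h
    · simp only [coe_filter, mem_univ, true_and, Set.mem_ofPred_eq] at hh ⊢
      rw [e, (z _).2.1]
      exact fun a => a hh
    · simp only [coe_filter, mem_univ, true_and, Set.mem_ofPred_eq] at hh ⊢
      rw [e, (z _).2.1]
      exact hh
  have h2 := card_filter_add_card_filter_not (s := univ) fun h : BK (k + 1) => h ⬝ᵥ v = 1
  rw [card_univ, Fintype.card_fun, ZMod.card, Fintype.card_fin, pow_succ] at h2
  omega

theorem half' {k : ℕ} {v : BK (k + 1)} (hv : v ≠ 0) :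
    (univ.filter fun h : {h : BK (k + 1) // h ≠ 0} => h.1 ⬝ᵥ v = 1).card = 2 ^ k := by
  rw [← half hv]
  refine card_nbij Subtype.val (fun h hh => ?_) Subtype.val_injective.injOn fun h hh => ?_
  · simpa using hh
  · simp only [coe_filter, mem_univ, true_and, Set.mem_ofPred_eq] at hh
    refine ⟨⟨h, fun e => ?_⟩, by simpa using hh, rfl⟩
    rw [e, zero_dotProduct] at hh
    exact zero_ne_one hh

theorem big (k : ℕ) {ε : ℝ} (hε : 0 < ε) :
    ∃ b : ℕ, 1 ≤ b ∧ (((k + 1) * b : ℕ) : ℝ) + 2 ≤ (1 + ε) ^ b := by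
  obtain ⟨c, hc⟩ := exists_nat_ge ((2 * (k + 1) + 2) / ε ^ 2)
  have h1 : 1 + ((c + 1 : ℕ) : ℝ) * ε ≤ (1 + ε) ^ (c + 1) := one_add_mul_le_pow (by linarith) _
  refine ⟨2 * (c + 1), by omega, ?_⟩
  rw [div_le_iff₀ (by positivity)] at hc
  rw [mul_comm 2 (c + 1), pow_mul]
  refine le_trans ?_ (pow_le_pow_left₀ (by positivity) h1 2)
  push_cast
  have c0 : (0 : ℝ) ≤ c := c.cast_nonneg
  have k0 : (0 : ℝ) ≤ k := k.cast_nonneg
  have h2 := mul_le_mul_of_nonneg_right hc (by linarith : (0 : ℝ) ≤ c + 1)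
  have h3 : 0 ≤ ((c : ℝ) + 1) * ε := by positivity
  have h4 : 0 ≤ ((c : ℝ) + 1) * ε ^ 2 := by positivity
  nlinarith

end CoverL

open CoverL in
theorem cover : CoverStmt := by
  intro k ε hε
  obtain ⟨b, hb, h⟩ := big k hε
  have k1 : (1 : ℝ) ≤ 2 ^ k := one_le_pow₀ one_le_two
  have q1 : (1 : ℝ) ≤ 2 - 1 / 2 ^ k := by
    have : (1 : ℝ) / 2 ^ k ≤ 1 := (div_le_one (by positivity)).2 k1
    linarith
  have q2 : (1 : ℝ) ≤ (2 - 1 / 2 ^ k) ^ b := one_le_pow₀ q1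
  set q : ℝ := (2 - 1 / 2 ^ k) ^ b with hq
  have : Nonempty {h : BK (k + 1) // h ≠ 0} := ⟨⟨fun _ => 1, fun e => one_ne_zero (congrFun e 0)⟩⟩
  have p0 : 0 < ((((k + 1) * b : ℕ) : ℝ) + 1) * q := by positivity
  obtain ⟨t, ht⟩ := U5.hit_unif
    (fun (v : Fin b → BK (k + 1)) (h : Fin b → {h : BK (k + 1) // h ≠ 0}) =>
      ∀ s, (h s).1 ⬝ᵥ v s = 1) q⁻¹ (inv_le_one_of_one_le₀ q2)
    ⌈((((k + 1) * b : ℕ) : ℝ) + 1) * q⌉₊ ((k + 1) * b) (by simp [pow_mul]) (by
      rw [← div_eq_mul_inv, le_div_iff₀ (by positivity)]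
      exact Nat.le_ceil _)
  refine ⟨b, _, fun i s => (t i s).1, hb, Nat.ceil_pos.2 p0, fun v hv => ht v ?_, ?_⟩
  · have e1 : (Fintype.card {h : BK (k + 1) // h ≠ 0} : ℝ) = (2 - 1 / 2 ^ k) * 2 ^ k := by
      rw [Fintype.card_subtype_compl, Fintype.card_subtype_eq,
        Nat.cast_sub Fintype.card_pos, Fintype.card_fun, ZMod.card, Fintype.card_fin]
      push_cast
      field_simp
      ring
    have e2 := Fintype.card_piFinset fun s : Fin b =>
      univ.filter fun h : {h : BK (k + 1) // h ≠ 0} => h.1 ⬝ᵥ v s = 1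
    simp only [half' (hv _), prod_const, card_univ, Fintype.card_fin] at e2
    rw [Fintype.card_fun, Fintype.card_fin, Nat.cast_pow, e1, mul_pow, ← hq,
      inv_mul_cancel_left₀ (by positivity)]
    refine le_trans (le_of_eq (by exact_mod_cast e2.symm)) (Nat.cast_le.2 (card_le_card ?_))
    intro x hx
    simpa using hx
  · have h1 := (Nat.ceil_lt_add_one p0.le).le
    have h2 := mul_le_mul_of_nonneg_left h (by positivity : 0 ≤ q)
    rw [mul_pow, ← hq]
    linarith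

end Pool.Agent.MP_6b3410_lc.D4
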