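import Pool.Agent.MP_6b3410_lc.D4.Spec
import Pool.Agent.MP_6b3410_lc.U5.Fam

/-!
Cyclic permutations and cyclic orderings.
-/

set_option autoImplicit false

namespace Pool.Agent.MP_6b3410_lc.D4

open Pool.Agent.MP_6b3410_lc.H5 (Cyc DHam)
open Pool.Agent.MP_6b3410_lc.U5 (orb orb_succ cyc_orb)

theorem cyc : CycStmt := by
  intro n Arc
  rcases n with _ | n
  · exact ⟨fun _ => ⟨1, fun i => i.elim0⟩,
      fun _ => ⟨id, fun i => i.elim0, fun i => i.elim0, fun _ _ _ i => i.elim0⟩⟩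
  refine ⟨fun ⟨σ, hσ⟩ => ?_, fun ⟨f, hf⟩ => ?_⟩
  · obtain ⟨h1, h2, -⟩ := cyc_orb hσ 0
    have hi : Function.Injective fun t : Fin (n + 1) => orb 0 σ t :=
      fun s t h => Fin.ext (h1 s.2 t.2 h)
    refine ⟨Equiv.ofBijective _ ⟨hi, Finite.injective_iff_surjective.1 hi⟩, fun i => ?_⟩
    have e : orb 0 σ (finRotate (n + 1) i) = σ (orb 0 σ i) := by
      rw [← orb_succ 0 σ]
      by_cases h : i = Fin.last n
      · rw [h, finRotate_last, Fin.val_last, h2]; rfl
      · rw [coe_finRotate_of_ne_last h]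
    change Arc (orb 0 σ i) (orb 0 σ (finRotate (n + 1) i))
    rw [e]
    exact hσ.arc _
  · exact DHam.equiv (Arc := fun a b => Arc (f a) (f b)) f (fun _ _ h => h)
      ⟨_, Cyc.of_rank (finRotate (n + 1)).injective hf Fin.val (Fin.last n)
        fun v hv => (lt_finRotate_iff_ne_last v).2 hv⟩

end Pool.Agent.MP_6b3410_lc.D4
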