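import Mathlib
import Pool.Agent.MP_6b3410_lc.U5.Spec

/-!
Definitions and the statements of the parts of the upper bound for directed Hamiltonicity.
The paper proof is in the team store, file MP_6b3410_D4_plan.md.
-/

set_option autoImplicit false

namespace Pool.Agent.MP_6b3410_lc.D4

open Finset
open Pool.Agent.MP_6b3410_lc.H5 (Cyc DHam)
open Pool.Agent.MP_6b3410_lc.U5 (Gen TF PF Bits)

/-- hash values -/
abbrev B : Type := Fin 3 → ZMod 2

/-- nonzero hash values -/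
abbrev NZ : Type := {v : B // v ≠ 0}

/-- branch `b` of the clause `l 0 ∨ l 1 ∨ l 2 ∨ l 3`: the first nonzero form is `l b` -/
def Br (b : Fin 4) (l : Fin 4 → ZMod 2) : Prop := l b = 1 ∧ ∀ i, i < b → l i = 0

open Classical in
/-- the number of consistent branch sequences for the first `i` clauses -/
noncomputable def nodes {n : ℕ} (i : ℕ) (L : Fin n → (Fin n → ZMod 2) → Fin 4 → ZMod 2) : ℕ :=
  (univ.filter fun b : Fin n → Fin 4 => (∀ c : Fin n, i ≤ c.val → b c = 0) ∧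
    ∃ y : Fin n → ZMod 2, ∀ c : Fin n, c.val < i → Br (b c) (L c y)).card

open Classical in
/-- the points that satisfy the first `j` clauses -/
noncomputable def pts {n : ℕ} (j : ℕ) (L : Fin n → (Fin n → ZMod 2) → Fin 4 → ZMod 2) :
    Finset (Fin n → ZMod 2) :=
  univ.filter fun y => ∀ c : Fin n, c.val < j → L c y ≠ 0

/-- the four forms of clause `c`: the coordinate `y c` and the shifted hash value -/
def form {n : ℕ} (ρ : Fin n → B) (M : Fin n → (Fin n → ZMod 2) → B) (c : Fin n)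
    (y : Fin n → ZMod 2) : Fin 4 → ZMod 2 :=
  Fin.cons (y c) (ρ c + M c y)

/-- the hash value of column `c` -/
def hs {n : ℕ} (A : Fin n → Fin n → Bool) (ξ : Fin n → Fin n → B) (c : Fin n)
    (y : Fin n → ZMod 2) : B :=
  ∑ u, if y u = 1 ∧ A c u = true then ξ u c else 0

section field

variable {n : ℕ} {F : Type}

/-- the linear form with coefficient vector `v` -/
def emb [CommRing F] (v : B) (z : Fin 3 → F) : F := ∑ i, if v i = 1 then z i else 0

/-- the weights: hashed in the columns below `j`, free in the others -/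
def xw [CommRing F] (j : ℕ) (ξ : Fin n → Fin n → B) (z : Fin n → Fin 3 → F)
    (g : Fin n → Fin n → F) (w c : Fin n) : F :=
  if c.val < j then emb (ξ w c) (z c) else g w c

/-- the Laplacian type matrix of the sieve -/
def lap [CommRing F] (X : Fin n → Fin n → F) (r : Fin n → F) (a : Fin n) (y : Fin n → ZMod 2) :
    Matrix (Fin n) (Fin n) F :=
  Matrix.of fun w c => (if w = c then r c + ∑ u, (if y u = 1 then X u c else 0) else 0) +
    if c ≠ a ∧ y w = 1 then X w c else 0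

open Classical in
/-- the cyclic permutations along arcs of `A` -/
noncomputable def cycs (A : Fin n → Fin n → Bool) : Finset (Fin n → Fin n) :=
  univ.filter fun σ => Cyc (fun u v => A u v = true) σ

/-- the weighted number of Hamilton cycles; `X w c` is the weight of the arc from `c` to `w` -/
noncomputable def hc [CommRing F] (A : Fin n → Fin n → Bool) (X : Fin n → Fin n → F) : F :=
  ∑ σ ∈ cycs A, ∏ c, X (σ c) c

end field

/-- row ROW: exposing one row -/
def RowStmt : Prop :=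
  ∀ (n : ℕ) (H : Finset (Fin n)) (A : Fin n → (Fin n → B) → ZMod 2) (c₀ : Fin n), c₀ ∈ H →
    (∀ c l v, A c (Function.update l c v) = A c l) →
    (∀ c ∈ H, ∀ c' ∈ H, c' ≠ c → ∀ l u v, A c (Function.update l c' (u + v)) =
      A c (Function.update l c' u) + A c (Function.update l c' v)) →
    (∃ l, A c₀ l = 1) →
    49 * (open Classical in univ.filter fun η : Fin n → NZ =>
      ∀ l : Fin n → B, ∑ c ∈ H, (l c ⬝ᵥ (η c).1) * A c l = 0).card ≤ 7 ^ n

/-- row HASH: a family of permutations survives hashing of its columns -/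
def HashStmt : Prop :=
  ∀ (n : ℕ) (H : Finset (Fin n)) (T : Finset (Fin n → Fin n)), T.Nonempty →
    (∀ σ ∈ T, Function.Injective σ) → (∀ σ ∈ T, ∀ τ ∈ T, ∀ c, c ∉ H → σ c = τ c) →
    48 ^ H.card * 7 ^ (n * n) ≤ 49 ^ H.card *
      (open Classical in univ.filter fun ξ : Fin n → Fin n → NZ =>
        ∃ l : Fin n → B, ∑ σ ∈ T, ∏ c ∈ H, (l c ⬝ᵥ (ξ (σ c) c).1) = 1).card

/-- row SZ: a surviving family is seen by half of the field weights -/
def SzStmt : Prop :=
  ∀ (n j : ℕ) (F : Type) [Field F] [Fintype F] [DecidableEq F] [CharP F 2]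
    (T : Finset (Fin n → Fin n)) (σ₀ : Fin n → Fin n) (ξ : Fin n → Fin n → B) (l : Fin n → B),
    2 * n ≤ Fintype.card F →
    ∑ σ ∈ T.filter (fun σ => ∀ c : Fin n, ¬ c.val < j → σ c = σ₀ c),
      ∏ c ∈ univ.filter (fun c : Fin n => c.val < j), (l c ⬝ᵥ ξ (σ c) c) = 1 →
    Fintype.card ((Fin n → Fin 3 → F) × (Fin n → Fin n → F)) ≤
      2 * (univ.filter fun p : (Fin n → Fin 3 → F) × (Fin n → Fin n → F) =>
        ∑ σ ∈ T, ∏ c, xw j ξ p.1 p.2 (σ c) c ≠ 0).card

/-- row SIEVE: the Laplacian sieve -/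
def SieveStmt : Prop :=
  ∀ (n : ℕ) (F : Type) [Field F] [CharP F 2] (A : Fin n → Fin n → Bool) (X : Fin n → Fin n → F)
    (r : Fin n → F) (a : Fin n),
    ∑ y : Fin n → ZMod 2, (lap (fun w c => if A c w = true then X w c else 0) r a y).det = hc A X

/-- row DET: determinants have small circuits -/
def DetStmt : Prop :=
  ∃ D : ℕ, ∀ (Ω : Type) (I P : Set (Ω → Bool)) (N n : ℕ) (F : Type) [Field F] [Fintype F]
    (M : Ω → Matrix (Fin n) (Fin n) F), 7 ≤ N → n ≤ N → Fintype.card F ≤ N →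
    (∀ u v, Bits (fun ω => M ω u v) ⊆ P) → PF I P N D fun ω => (M ω).det

/-- row COUNT: for half of the shifts the search tree is small -/
def CountStmt : Prop :=
  ∀ (n j : ℕ) (M : Fin n → (Fin n → ZMod 2) → B), j ≤ n → 4 * n ≤ 7 * j →
    8 ^ n ≤ 2 * (open Classical in univ.filter fun ρ : Fin n → B =>
      (∀ i ≤ j, (nodes i (form ρ M) : ℝ) ≤ 2 * (n + 2) * (241 / 125) ^ n) ∧
        ((pts j (form ρ M)).card : ℝ) ≤ 2 * (n + 2) * (241 / 125) ^ n).card

/-- row LIST: oblivious listing of the points that satisfy the clauses -/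
def ListStmt : Prop :=
  ∃ D : ℕ, ∀ (Ω : Type) (I P : Set (Ω → Bool)) (N n j d c : ℕ)
    (α : Ω → Fin n → Fin 4 → Fin n → ZMod 2) (β : Ω → Fin n → Fin 4 → ZMod 2)
    (Φ : Ω → (Fin n → ZMod 2) → ZMod 2), 7 ≤ N → 5 * n + 1 ≤ N → 4 * (d + 1) ≤ N → j ≤ n →
    (∀ v i u, Bits (fun ω => α ω v i u) ⊆ P) → (∀ v i, Bits (fun ω => β ω v i) ⊆ P) →
    (∀ (P' : Set (Ω → Bool)) (y : Ω → Fin n → ZMod 2), P ⊆ P' →
      (∀ v, Bits (fun ω => y ω v) ⊆ P') → TF I P' c fun ω => Φ ω (y ω)) →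
    ∃ o : Ω → Bool, TF I P (2 ^ d * N ^ D * (c + 1)) o ∧ ∀ ω,
      (o ω = true → ∑ y ∈ pts j (fun v y i => β ω v i + ∑ u, α ω v i u * y u), Φ ω y = 1) ∧
      ((∀ i ≤ j, 4 * nodes i (fun v y i => β ω v i + ∑ u, α ω v i u * y u) ≤ 2 ^ d) →
        (pts j (fun v y i => β ω v i + ∑ u, α ω v i u * y u)).card ≤ 2 ^ d →
        ∑ y ∈ pts j (fun v y i => β ω v i + ∑ u, α ω v i u * y u), Φ ω y = 1 → o ω = true)

/-- row SEED: the circuit for one seed -/
def SeedStmt : Prop :=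
  ∃ D : ℕ, ∀ (Ω : Type) (I P : Set (Ω → Bool)) (N n j d : ℕ) (F : Type) [Field F] [Fintype F]
    [CharP F 2] (A : Ω → Fin n → Fin n → Bool) (ξ : Fin n → Fin n → B) (ρ : Fin n → B)
    (z : Fin n → Fin 3 → F) (g : Fin n → Fin n → F), 7 ≤ N → 1 ≤ n → 5 * n + 1 ≤ N →
    4 * (d + 1) ≤ N → Fintype.card F ≤ N → j ≤ n → (∀ u v, Bits (fun ω => A ω u v) ⊆ P) →
    ∃ o : Ω → Bool, TF I P (2 ^ d * N ^ D) o ∧ ∀ ω,
      (o ω = true → hc (A ω) (xw j ξ z g) ≠ 0) ∧
      ((∀ i ≤ j, 4 * nodes i (form ρ (hs (A ω) ξ)) ≤ 2 ^ d) →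
        (pts j (form ρ (hs (A ω) ξ))).card ≤ 2 ^ d → hc (A ω) (xw j ξ z g) ≠ 0 → o ω = true)

/-- row CYC: cyclic permutations and cyclic orderings -/
def CycStmt : Prop :=
  ∀ (n : ℕ) (Arc : Fin n → Fin n → Prop), DHam Arc ↔
    ∃ f : Equiv.Perm (Fin n), ∀ i, Arc (f i) (f (finRotate n i))

end Pool.Agent.MP_6b3410_lc.D4
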