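import Mathlib
import Pool.Agent.MP_6b3410_lc.D4.Spec

/-!
Row DET: circuits for determinants over a small field, by oblivious row additions.
-/

set_option autoImplicit false

namespace Pool.Agent.MP_6b3410_lc.D4

open Finset
open Pool.Agent.MP_6b3410_lc.U5 (Gen TF PF Bits)

namespace DetL

variable {Ω : Type} {n : ℕ} {F : Type} [Field F]

/-- the bits of all entries -/
def EB (M : Ω → Matrix (Fin n) (Fin n) F) : Set (Ω → Bool) :=
  ⋃ q : Fin n × Fin n, Bits fun ω => M ω q.1 q.2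

omit [Field F] in
lemma sub_EB {P : Set (Ω → Bool)} {M : Ω → Matrix (Fin n) (Fin n) F} (h : EB M ⊆ P)
    (u v : Fin n) : (Bits fun ω => M ω u v) ⊆ P :=
  (Set.subset_iUnion (fun q : Fin n × Fin n => Bits fun ω => M ω q.1 q.2) (u, v)).trans h

/-- with `s` gates a matrix in `A` is turned into a matrix in `B` with the same determinant -/
def Ach (I : Set (Ω → Bool)) (s : ℕ) (A B : Matrix (Fin n) (Fin n) F → Prop) : Prop :=
  ∃ f : Matrix (Fin n) (Fin n) F → Matrix (Fin n) (Fin n) F,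
    (∀ (P : Set (Ω → Bool)) (M : Ω → Matrix (Fin n) (Fin n) F), EB M ⊆ P →
      Gen I s P (EB fun ω => f (M ω))) ∧
    ∀ X, A X → B (f X) ∧ (f X).det = X.det

variable {I : Set (Ω → Bool)} {N s t : ℕ} {A B C : Matrix (Fin n) (Fin n) F → Prop}

lemma Ach.of_imp (h : ∀ X, A X → B X) (s : ℕ) : Ach I s A B :=
  ⟨id, fun _ _ hM => Gen.of_subset hM s, fun X hX => ⟨h X hX, rfl⟩⟩

lemma Ach.le (h : Ach I s A B) (hs : s ≤ t) : Ach I t A B := by
  obtain ⟨f, h1, h2⟩ := h
  exact ⟨f, fun P M hM => (h1 P M hM).le hs, h2⟩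

lemma Ach.trans (h : Ach I s A B) (h' : Ach I t B C) : Ach I (s + t) A C := by
  obtain ⟨f, h1, h2⟩ := h
  obtain ⟨g, g1, g2⟩ := h'
  refine ⟨fun X => g (f X), fun P M hM => (h1 P M hM).trans
    (g1 _ (fun ω => f (M ω)) Set.subset_union_right), fun X hX => ?_⟩
  exact ⟨(g2 _ (h2 X hX).1).1, (g2 _ (h2 X hX).1).2.trans (h2 X hX).2⟩

lemma Ach.iter (J : ℕ → Matrix (Fin n) (Fin n) F → Prop) (k : ℕ)
    (h : ∀ j < k, Ach I s (J j) (J (j + 1))) : Ach I (k * s) (J 0) (J k) := by
  induction k with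
  | zero => exact Ach.of_imp (fun _ h => h) _
  | succ k ih =>
    rw [Nat.succ_mul]
    exact (ih fun j hj => h j (by omega)).trans (h k (by omega))

omit [Field F] in
lemma gen_EB {P : Set (Ω → Bool)} {M : Ω → Matrix (Fin n) (Fin n) F} {d : ℕ} (hn : n ≤ N)
    (h : ∀ u v, PF I P N d fun ω => M ω u v) : Gen I (N ^ (d + 2)) P (EB M) := by
  refine (Gen.iUnion (fun q : Fin n × Fin n => Bits fun ω => M ω q.1 q.2)
    fun q => h q.1 q.2).le ?_
  rw [Fintype.card_prod, Fintype.card_fin, show N ^ (d + 2) = N * N * N ^ d by ring]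
  exact Nat.mul_le_mul_right _ (Nat.mul_le_mul hn hn)

/-- the columns below `p` vanish under the diagonal -/
def Low (p : ℕ) (X : Matrix (Fin n) (Fin n) F) : Prop :=
  ∀ i j : Fin n, j.val < p → j < i → X i j = 0

/-- the pivot is nonzero or the column vanishes in the rows below `k` -/
def Piv (p : Fin n) (k : ℕ) (X : Matrix (Fin n) (Fin n) F) : Prop :=
  Low p.val X ∧ (X p p ≠ 0 ∨ ∀ i : Fin n, p < i → i.val < k → X i p = 0)

variable [Fintype F]

lemma piv_step (hN : 7 ≤ N) (hn : n ≤ N) (hF : Fintype.card F ≤ N) (p k : Fin n) :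
    Ach I (N ^ 7) (Piv (F := F) p k.val) (Piv p (k.val + 1)) := by
  classical
  by_cases hk : p < k
  swap
  · refine Ach.of_imp (fun X hX => ⟨hX.1, hX.2.imp_right fun h i hi hik => h i hi ?_⟩) _
    have h1 : p.val < i.val := hi
    have h2 : ¬ p.val < k.val := hk
    omega
  refine ⟨fun X => X.updateRow p (X p + (if X p p = 0 then (1 : F) else 0) • X k),
    fun P M hM => gen_EB (d := 5) hn fun u v => ?_, fun X hX => ⟨⟨?_, ?_⟩, ?_⟩⟩
  · by_cases hu : u = p
    · refine PF.congr (PF.le (PF.op2 (· + ·) hN (d := 3) (by omega) hF hF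
        (PF.of_subset (sub_EB hM p v) 3)
        (PF.op2 (fun x y : F => (if x = 0 then (1 : F) else 0) * y) hN (d := 2) le_rfl hF hF
          (PF.of_subset (sub_EB hM p p) 2) (PF.of_subset (sub_EB hM k v) 2))) hN (by omega))
        fun ω => ?_
      beta_reduce
      rw [hu, Matrix.updateRow_self]
      rfl
    · refine PF.congr (PF.of_subset (sub_EB hM u v) 5) fun ω => ?_
      beta_reduce
      rw [Matrix.updateRow_ne hu]
  · intro i j hj hji
    beta_reduce
    by_cases hi : i = p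
    · rw [hi, Matrix.updateRow_self, Pi.add_apply, Pi.smul_apply, hX.1 p j hj hj,
        hX.1 k j hj (lt_trans hj hk), smul_zero, add_zero]
    · rw [Matrix.updateRow_ne hi]
      exact hX.1 i j hj hji
  · beta_reduce
    rw [Matrix.updateRow_self, Pi.add_apply, Pi.smul_apply]
    by_cases h0 : X p p = 0
    · rw [if_pos h0, h0, one_smul, zero_add]
      by_cases h1 : X k p = 0
      · refine Or.inr fun i hi hik => ?_
        rw [Matrix.updateRow_ne hi.ne']
        by_cases h2 : i = k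
        · rw [h2, h1]
        · have h3 : i.val ≠ k.val := fun e => h2 (Fin.ext e)
          exact (hX.2.resolve_left (not_not.2 h0)) i hi (by omega)
      · exact Or.inl h1
    · rw [if_neg h0, zero_smul, add_zero]
      exact Or.inl h0
  · exact Matrix.det_updateRow_add_smul_self X hk.ne _

lemma elim_step (hN : 7 ≤ N) (hn : n ≤ N) (hF : Fintype.card F ≤ N) (p : Fin n) :
    Ach I (N ^ 7) (Piv (F := F) p n) (Low (p.val + 1)) := by
  refine ⟨fun X => Matrix.of fun i j => X i j + (if p < i then -(X i p / X p p) else 0) * X p j,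
    fun P M hM => gen_EB (d := 5) hn fun u v => ?_, fun X hX => ⟨?_, ?_⟩⟩
  · exact PF.op2 (· + ·) hN (d := 4) (by omega) hF hF (PF.of_subset (sub_EB hM u v) 4)
      (PF.op2 (· * ·) hN (d := 3) (by omega) hF hF
        (PF.op2 (fun x y : F => if p < u then -(x / y) else 0) hN (d := 2) le_rfl hF hF
          (PF.of_subset (sub_EB hM u p) 2) (PF.of_subset (sub_EB hM p p) 2))
        (PF.of_subset (sub_EB hM p v) 3))
  · intro i j hj hji
    beta_reduce
    rw [Matrix.of_apply]
    by_cases h : j = p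
    · rw [h] at hji ⊢
      rw [if_pos hji]
      rcases hX.2 with h0 | h0
      · rw [neg_mul, div_mul_cancel₀ _ h0, add_neg_cancel]
      · rw [h0 i hji i.isLt, zero_div, neg_zero, zero_mul, add_zero]
    · have h3 : j.val ≠ p.val := fun e => h (Fin.ext e)
      have h4 : j.val < p.val := by omega
      rw [hX.1 i j h4 hji, hX.1 p j h4 h4, mul_zero, add_zero]
  · exact Matrix.det_eq_of_forall_row_eq_smul_add_const
      (fun i => if p < i then -(X i p / X p p) else 0) p (if_neg (lt_irrefl p)) fun _ _ => rfl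

lemma col_step (hN : 7 ≤ N) (hn : n ≤ N) (hF : Fintype.card F ≤ N) (p : Fin n) :
    Ach I (N ^ 9) (Low (F := F) (n := n) p.val) (Low (p.val + 1)) := by
  have h0 : Ach I 0 (Low (F := F) (n := n) p.val) (Piv p 0) :=
    Ach.of_imp (fun X hX => ⟨hX, Or.inr fun i _ hi => absurd hi (Nat.not_lt_zero _)⟩) 0
  have h1 := Ach.iter (I := I) (s := N ^ 7) (Piv (F := F) p) n fun j hj =>
    piv_step hN hn hF p ⟨j, hj⟩
  refine ((h0.trans h1).trans (elim_step hN hn hF p)).le ?_
  have e1 : n * N ^ 7 ≤ N * N ^ 7 := Nat.mul_le_mul_right _ hn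
  have e2 : N ^ 7 ≤ N ^ 8 := Nat.pow_le_pow_right (by omega) (by omega)
  have e3 : N ^ 8 * 7 ≤ N ^ 8 * N := Nat.mul_le_mul_left _ hN
  rw [show N ^ 9 = N ^ 8 * N by ring]
  rw [show N * N ^ 7 = N ^ 8 by ring] at e1
  omega

end DetL

open DetL in
theorem det : DetStmt := by
  refine ⟨11, ?_⟩
  intro Ω I P N n F _ _ M hN hn hF hM
  obtain ⟨f, h1, h2⟩ := Ach.iter (I := I) (s := N ^ 9) (Low (F := F) (n := n)) n fun j hj =>
    col_step hN hn hF ⟨j, hj⟩
  have h3 := h1 P M (Set.iUnion_subset fun q => hM q.1 q.2)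
  have h4 : PF I (P ∪ EB fun ω => f (M ω)) N 4 fun ω => ∏ i, f (M ω) i i :=
    PF.prod univ (fun i ω => f (M ω) i i) hN le_rfl hF (by simpa using hn) fun i _ =>
      PF.of_subset (sub_EB (M := fun ω => f (M ω)) Set.subset_union_right i i) 2
  have hle : n * N ^ 9 + N ^ 4 ≤ N ^ 11 := by
    have e1 : n * N ^ 9 ≤ N * N ^ 9 := Nat.mul_le_mul_right _ hn
    have e2 : N ^ 4 ≤ N ^ 10 := Nat.pow_le_pow_right (by omega) (by omega)
    have e3 : N ^ 10 * 7 ≤ N ^ 10 * N := Nat.mul_le_mul_left _ hN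
    rw [show N ^ 11 = N ^ 10 * N by ring]
    rw [show N * N ^ 9 = N ^ 10 by ring] at e1
    omega
  refine ((TF.after h3 h4).le hle).congr fun ω => ?_
  obtain ⟨g1, g2⟩ := h2 (M ω) fun i j hj _ => absurd hj (Nat.not_lt_zero _)
  rw [← g2]
  exact (Matrix.det_of_isUpperTriangular fun i j hji => g1 i j j.isLt hji).symm

end Pool.Agent.MP_6b3410_lc.D4
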