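import Pool.Agent.MP_6b3410_lc.D4.Spec

/-!
A family of permutations survives hashing of its columns.
-/

set_option autoImplicit false

namespace Pool.Agent.MP_6b3410_lc.D4

open Finset

namespace HashL

/-- double counting of pairs: a function and a new value at `w` -/
theorem dc {ι R : Type} [Fintype ι] [DecidableEq ι] [Fintype R] [Nonempty R]
    (G' G : Finset (ι → R)) (w : ι) (S : (ι → R) → Finset R)
    (hS : ∀ ξ, ∀ η ∈ S ξ, Function.update ξ w η ∈ G)
    (h : ∀ ξ ∈ G', 48 * Fintype.card R ≤ 49 * (S ξ).card) : 48 * G'.card ≤ 49 * G.card := by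
  have h1 : (G'.sigma S).card ≤ (G ×ˢ (univ : Finset R)).card := by
    refine card_le_card_of_injOn (fun p => (Function.update p.1 w p.2, p.1 w))
      (fun p hp => ?_) ?_
    · simpa using hS _ _ (mem_sigma.1 hp).2
    · rintro ⟨ξ, η⟩ - ⟨ξ', η'⟩ - e
      obtain ⟨e1, e2⟩ := Prod.ext_iff.1 e
      obtain rfl : η = η' := by simpa using congrFun e1 w
      obtain rfl : ξ = ξ' := funext fun i => by
        by_cases hi : i = w
        · exact hi ▸ e2
        · simpa [hi] using congrFun e1 i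
      rfl
  rw [card_sigma, card_product, card_univ] at h1
  have h2 := sum_le_sum h
  rw [sum_const, smul_eq_mul, ← mul_sum] at h2
  refine Nat.le_of_mul_le_mul_right ?_ (Fintype.card_pos (α := R))
  calc 48 * G'.card * Fintype.card R = G'.card * (48 * Fintype.card R) := by ring
    _ ≤ 49 * (G.card * Fintype.card R) := h2.trans (Nat.mul_le_mul_left _ h1)
    _ = _ := by ring

theorem z1 : ∀ a : ZMod 2, ¬a = 1 → a = 0 := by decide

variable {n : ℕ}

/-- the cofactor of the entry in row `w` and column `c` -/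
def cof (H : Finset (Fin n)) (T : Finset (Fin n → Fin n)) (w : Fin n) (ξ : Fin n → Fin n → NZ)
    (c : Fin n) (l : Fin n → B) : ZMod 2 :=
  ∑ σ ∈ T.filter (fun σ => σ c = w), ∏ c' ∈ H.erase c, (l c' ⬝ᵥ (ξ (σ c') c').1)

variable (H : Finset (Fin n)) (T : Finset (Fin n → Fin n)) (w : Fin n) (ξ : Fin n → Fin n → NZ)

theorem cof_self (c : Fin n) (l : Fin n → B) (v : B) :
    cof H T w ξ c (Function.update l c v) = cof H T w ξ c l :=
  sum_congr rfl fun _ _ => prod_congr rfl fun _ hc => by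
    rw [Function.update_of_ne (mem_erase.1 hc).1]

theorem cof_add {c c' : Fin n} (h : c' ∈ H.erase c) (l : Fin n → B) (u v : B) :
    cof H T w ξ c (Function.update l c' (u + v)) =
      cof H T w ξ c (Function.update l c' u) + cof H T w ξ c (Function.update l c' v) := by
  rw [cof, cof, cof, ← sum_add_distrib]
  refine sum_congr rfl fun σ _ => ?_
  have e : ∀ x : B, ∏ d ∈ H.erase c, (Function.update l c' x d ⬝ᵥ (ξ (σ d) d).1) =
      (x ⬝ᵥ (ξ (σ c') c').1) * ∏ d ∈ (H.erase c).erase c', (l d ⬝ᵥ (ξ (σ d) d).1) := fun x => by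
    rw [← mul_prod_erase _ _ h, Function.update_self]
    exact congrArg _ (prod_congr rfl fun d hd => by rw [Function.update_of_ne (mem_erase.1 hd).1])
  rw [e, e, e, add_dotProduct, add_mul]

theorem expand (h1 : ∀ σ ∈ T, Function.Injective σ) (h2 : ∀ σ ∈ T, ∃ c ∈ H, σ c = w)
    (η : Fin n → NZ) (l : Fin n → B) :
    ∑ σ ∈ T, ∏ c ∈ H, (l c ⬝ᵥ (Function.update ξ w η (σ c) c).1) =
      ∑ c ∈ H, (l c ⬝ᵥ (η c).1) * cof H T w ξ c l := by
  simp only [cof, sum_filter, mul_sum]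
  rw [sum_comm]
  refine sum_congr rfl fun σ hσ => ?_
  obtain ⟨c, hc, e⟩ := h2 σ hσ
  have hne : ∀ d, d ≠ c → σ d ≠ w := fun d hd h => hd (h1 σ hσ (h.trans e.symm))
  rw [sum_eq_single_of_mem c hc fun d _ hd => by rw [if_neg (hne d hd), mul_zero], if_pos e,
    ← mul_prod_erase _ _ hc, e, Function.update_self]
  exact congrArg _ (prod_congr rfl fun d hd => by
    rw [Function.update_of_ne (hne d (mem_erase.1 hd).1)])

end HashL

open HashL in
theorem hash (h : RowStmt) : HashStmt := by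
  intro n H
  classical
  induction hk : H.card generalizing H with
  | zero =>
    intro T ⟨σ, hσ⟩ _ h2
    obtain rfl := card_eq_zero.1 hk
    obtain rfl : T = {σ} := eq_singleton_iff_unique_mem.2
      ⟨hσ, fun τ hτ => funext fun c => h2 τ hτ σ hσ c (notMem_empty c)⟩
    simp [← pow_mul]
  | succ k ih =>
    intro T ⟨σ, hσ⟩ h1 h2
    obtain ⟨c, hc⟩ := card_pos.1 (k.succ_pos.trans_eq hk.symm)
    have h3 : ∀ τ ∈ T, ∃ d ∈ H, τ d = σ c := fun τ hτ => by
      obtain ⟨d, hd⟩ := Finite.injective_iff_surjective.1 (h1 τ hτ) (σ c)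
      refine ⟨d, by_contra fun hn => hn ?_, hd⟩
      rwa [h1 σ hσ ((h2 σ hσ τ hτ d hn).trans hd)]
    have h4 := ih (H.erase c) (by rw [card_erase_of_mem hc, hk]; rfl)
      (T.filter fun τ => τ c = σ c) ⟨σ, mem_filter.2 ⟨hσ, rfl⟩⟩
      (fun τ hτ => h1 τ (mem_filter.1 hτ).1) fun τ hτ τ' hτ' d hd => by
        by_cases e : d = c
        · rw [e, (mem_filter.1 hτ).2, (mem_filter.1 hτ').2]
        · exact h2 τ (mem_filter.1 hτ).1 τ' (mem_filter.1 hτ').1 d fun hd' =>
            hd (mem_erase.2 ⟨e, hd'⟩)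
    have : Nonempty NZ := ⟨⟨1, by decide⟩⟩
    have h5 := dc (univ.filter fun ξ : Fin n → Fin n → NZ => ∃ l, cof H T (σ c) ξ c l = 1)
      (univ.filter fun ξ : Fin n → Fin n → NZ =>
        ∃ l : Fin n → B, ∑ σ ∈ T, ∏ c ∈ H, (l c ⬝ᵥ (ξ (σ c) c).1) = 1) (σ c)
      (fun ξ => univ.filter fun η : Fin n → NZ =>
        ¬∀ l : Fin n → B, ∑ d ∈ H, (l d ⬝ᵥ (η d).1) * cof H T (σ c) ξ d l = 0)
      (fun ξ η hη => mem_filter.2 ⟨mem_univ _, by_contra fun hn => (mem_filter.1 hη).2 fun l =>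
        z1 _ fun e => hn ⟨l, (expand H T _ ξ h1 h3 η l).trans e⟩⟩) fun ξ hξ => by
        have a := h n H (cof H T (σ c) ξ) c hc (cof_self H T _ ξ)
          (fun d _ d' hd' hne => cof_add H T _ ξ (mem_erase.2 ⟨hne, hd'⟩)) (mem_filter.1 hξ).2
        have b := card_filter_add_card_filter_not (s := univ) fun η : Fin n → NZ =>
          ∀ l : Fin n → B, ∑ d ∈ H, (l d ⬝ᵥ (η d).1) * cof H T (σ c) ξ d l = 0
        rw [card_univ] at b
        have e : Fintype.card (Fin n → NZ) = 7 ^ n := by simp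
        rw [← e] at a
        omega
    calc 48 ^ (k + 1) * 7 ^ (n * n) = 48 * (48 ^ k * 7 ^ (n * n)) := by ring
      _ ≤ 48 * (49 ^ k * _) := Nat.mul_le_mul_left _ h4
      _ = 49 ^ k * (48 * _) := mul_left_comm _ _ _
      _ ≤ 49 ^ k * (49 * _) := Nat.mul_le_mul_left _ h5
      _ = _ := by ring

end Pool.Agent.MP_6b3410_lc.D4
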