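import Pool.Agent.MP_6b3410_lc.D4.Spec
import Pool.Agent.MP_6b3410_lc.U5.Parc

/-!
Row LIST: oblivious listing of the points that satisfy the clauses, from Gaussian elimination and
oblivious backtracking.
-/

set_option autoImplicit false

namespace Pool.Agent.MP_6b3410_lc.D4

open Finset hiding ext
open Pool.Agent.MP_6b3410_lc.U5 (Gen TF PF Bits ext)

namespace ListL

/-- a branch from two bits -/
def code (a b : ZMod 2) : Fin 4 := if a = 1 then (if b = 1 then 3 else 2) else if b = 1 then 1 else 0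

lemma code_inj : ∀ a b a' b' : ZMod 2, code a b = code a' b' → a = a' ∧ b = b' := by decide

lemma code_surj : ∀ k : Fin 4, ∃ a b : ZMod 2, code a b = k := by decide

lemma br_iff (b : Fin 4) (l : Fin 4 → ZMod 2) :
    Br b l ↔ ∀ i, i ≤ b → l i = if i = b then 1 else 0 := by
  refine ⟨fun h i hi => ?_, fun h => ⟨by simpa using h b le_rfl, fun i hi => ?_⟩⟩
  · split_ifs with e
    · rw [e]
      exact h.1
    · exact h.2 i (lt_of_le_of_ne hi e)
  · rw [h i hi.le, if_neg hi.ne]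

lemma br_ne {b : Fin 4} {l : Fin 4 → ZMod 2} (h : Br b l) : l ≠ 0 := fun e => by
  have := h.1
  rw [e] at this
  exact zero_ne_one this

lemma br_uniq {b b' : Fin 4} {l : Fin 4 → ZMod 2} (h : Br b l) (h' : Br b' l) : b = b' := by
  rcases lt_trichotomy b b' with e | e | e
  · exact absurd ((h'.2 b e).symm.trans h.1) zero_ne_one
  · exact e
  · exact absurd ((h.2 b' e).symm.trans h'.1) zero_ne_one

lemma br_ex : ∀ l : Fin 4 → ZMod 2, l ≠ 0 → ∃ b, Br b l := by
  unfold Br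
  decide

variable {n : ℕ}

/-- `y` follows the first `t` choices of `X` -/
def Fol (j t : ℕ) (L : Fin n → (Fin n → ZMod 2) → Fin 4 → ZMod 2) (X : ℕ → ZMod 2)
    (y : Fin n → ZMod 2) : Prop :=
  (∀ c : Fin n, c.val < j ∧ 2 * c.val + 2 ≤ t →
    Br (code (X (2 * c.val)) (X (2 * c.val + 1))) (L c y)) ∧
    ∀ v : Fin n, 2 * j + v.val < t → y v = X (2 * j + v.val)

open Classical in
/-- the first `t` choices are consistent -/
noncomputable def val (j t : ℕ) (L : Fin n → (Fin n → ZMod 2) → Fin 4 → ZMod 2)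
    (x : Fin (2 * j + n) → ZMod 2) : Bool :=
  decide (∃ y, Fol j t L (ext 0 x) y)

variable {j t : ℕ} {L : Fin n → (Fin n → ZMod 2) → Fin 4 → ZMod 2}

lemma val_iff (x : Fin (2 * j + n) → ZMod 2) :
    val j t L x = true ↔ ∃ y, Fol j t L (ext 0 x) y := by
  simp [val]

lemma mem_pts (y : Fin n → ZMod 2) : y ∈ pts j L ↔ ∀ c : Fin n, c.val < j → L c y ≠ 0 := by
  simp [pts]

lemma ext_val {m : ℕ} (x : Fin m → ZMod 2) (v : Fin m) : ext 0 x v.val = x v := by
  simp [ext]

lemma ext_add (x : Fin (2 * j + n) → ZMod 2) (v : Fin n) :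
    ext 0 x (2 * j + v.val) = x (Fin.natAdd (2 * j) v) :=
  ext_val x (Fin.natAdd (2 * j) v)

lemma val_prefix (s : Fin (2 * j + n)) (x : Fin (2 * j + n) → ZMod 2)
    (h : val j (s + 1) L x = true) : val j s L (Function.update x s 0) = true := by
  rw [val_iff] at h ⊢
  obtain ⟨y, h1, h2⟩ := h
  have e : ∀ r, r < s.val → ext 0 (Function.update x s 0) r = ext 0 x r := fun r hr => by
    have h3 : r < 2 * j + n := hr.trans s.2
    rw [ext, ext, dif_pos h3, dif_pos h3, Function.update_of_ne fun e => by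
      rw [← e] at hr
      exact lt_irrefl _ hr]
  refine ⟨y, fun c hc => ?_, fun v hv => ?_⟩
  · rw [e _ (by omega), e _ (by omega)]
    exact h1 c ⟨hc.1, by omega⟩
  · rw [e _ hv]
    exact h2 v (by omega)

lemma two_bits {X X' : ℕ → ZMod 2} {s : ℕ}
    (h : code (X (2 * (s / 2))) (X (2 * (s / 2) + 1)) =
      code (X' (2 * (s / 2))) (X' (2 * (s / 2) + 1))) : X s = X' s := by
  obtain ⟨h1, h2⟩ := code_inj _ _ _ _ h
  rcases (show s = 2 * (s / 2) ∨ s = 2 * (s / 2) + 1 by omega) with e | e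
  · rwa [← e] at h1
  · rwa [← e] at h2

lemma fol_pts (ht : 2 * j ≤ t) {X : ℕ → ZMod 2} {y : Fin n → ZMod 2} (h : Fol j t L X y) :
    y ∈ pts j L :=
  (mem_pts y).2 fun c hc => br_ne (h.1 c ⟨hc, by omega⟩)

lemma fol_uniq (hj : j ≤ n) (ht : 2 * j ≤ t) {x x' : Fin (2 * j + n) → ZMod 2}
    {y : Fin n → ZMod 2} (h : Fol j t L (ext 0 x) y) (h' : Fol j t L (ext 0 x') y)
    (s : Fin (2 * j + n)) (hs : s.val < t) : x s = x' s := by
  rw [← ext_val x, ← ext_val x']
  by_cases h2 : s.val < 2 * j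
  · have h3 : s.val / 2 < j ∧ 2 * (s.val / 2) + 2 ≤ t := ⟨by omega, by omega⟩
    exact two_bits (br_uniq (h.1 ⟨s.val / 2, by omega⟩ h3) (h'.1 ⟨s.val / 2, by omega⟩ h3))
  · have h3 : s.val - 2 * j < n := by omega
    have e : 2 * j + (s.val - 2 * j) = s.val := by omega
    have h4 := (h.2 ⟨_, h3⟩ (e.trans_lt hs)).symm.trans (h'.2 ⟨_, h3⟩ (e.trans_lt hs))
    rwa [e] at h4

lemma card_hi (hj : j ≤ n) (ht : 2 * j ≤ t) :
    (univ.filter fun x : Fin (2 * j + n) → ZMod 2 =>
      (∀ v : Fin (2 * j + n), t ≤ v.val → x v = 0) ∧ val j t L x = true).card ≤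
      (pts j L).card := by
  refine card_le_card_of_forall_subsingleton (fun x y => Fol j t L (ext 0 x) y)
    (fun x hx => ?_) fun y _ x hx x' hx' => funext fun s => ?_
  · obtain ⟨y, hy⟩ := (val_iff x).1 (mem_filter.1 hx).2.2
    exact ⟨y, fol_pts ht hy, hy⟩
  · by_cases hs : s.val < t
    · exact fol_uniq hj ht hx.2 hx'.2 s hs
    · rw [(mem_filter.1 hx.1).2.1 s (by omega), (mem_filter.1 hx'.1).2.1 s (by omega)]

lemma card_lo (hj : j ≤ n) (ht : t ≤ 2 * j) :
    (univ.filter fun x : Fin (2 * j + n) → ZMod 2 =>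
      (∀ v : Fin (2 * j + n), t ≤ v.val → x v = 0) ∧ val j t L x = true).card ≤
      nodes (t / 2) L * 2 := by
  obtain ⟨T, hT, hm⟩ : ∃ T : Finset (Fin n → Fin 4), nodes (t / 2) L = T.card ∧ ∀ b, b ∈ T ↔
      (∀ c : Fin n, t / 2 ≤ c.val → b c = 0) ∧
        ∃ y : Fin n → ZMod 2, ∀ c : Fin n, c.val < t / 2 → Br (b c) (L c y) :=
    ⟨_, rfl, fun b => by simp⟩
  have e : nodes (t / 2) L * 2 = (T ×ˢ (univ : Finset (ZMod 2))).card := by
    rw [card_product, hT, card_univ, ZMod.card]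
  rw [e]
  refine card_le_card_of_injOn (fun x => (fun c => if c.val < t / 2 then
    code (ext 0 x (2 * c.val)) (ext 0 x (2 * c.val + 1)) else 0, ext 0 x (2 * (t / 2))))
    (fun x hx => ?_) fun x hx x' hx' h => funext fun s => ?_
  · obtain ⟨y, hy⟩ := (val_iff x).1 (mem_filter.1 (mem_coe.1 hx)).2.2
    refine mem_coe.2 (mem_product.2 ⟨(hm _).2 ⟨fun c hc => if_neg (by omega), y, fun c hc => ?_⟩,
      mem_univ _⟩)
    simp only [if_pos hc]
    exact hy.1 c ⟨by omega, by omega⟩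
  · obtain ⟨h1, h2⟩ := Prod.ext_iff.1 h
    rcases lt_trichotomy s.val (2 * (t / 2)) with hs | hs | hs
    · have h3 : s.val / 2 < t / 2 := by omega
      have h4 := congrFun h1 ⟨s.val / 2, by omega⟩
      simp only [if_pos h3] at h4
      rw [← ext_val x, ← ext_val x']
      exact two_bits h4
    · rw [← ext_val x, ← ext_val x', hs]
      exact h2
    · rw [(mem_filter.1 (mem_coe.1 hx)).2.1 s (by omega),
        (mem_filter.1 (mem_coe.1 hx')).2.1 s (by omega)]

lemma fol_top {x : Fin (2 * j + n) → ZMod 2} {y : Fin n → ZMod 2}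
    (h : Fol j (2 * j + n) L (ext 0 x) y) : (fun v => x (Fin.natAdd (2 * j) v)) = y :=
  funext fun v => by rw [h.2 v (by omega), ext_add]

lemma sum_top (hj : j ≤ n) (Φ : (Fin n → ZMod 2) → ZMod 2) :
    ∑ x ∈ univ.filter (fun x : Fin (2 * j + n) → ZMod 2 => val j (2 * j + n) L x = true),
      Φ (fun v => x (Fin.natAdd (2 * j) v)) = ∑ y ∈ pts j L, Φ y := by
  refine sum_nbij (fun x v => x (Fin.natAdd (2 * j) v)) (fun x hx => ?_)
    (fun x hx x' hx' h => funext fun s => ?_) (fun y hy => ?_) fun _ _ => rfl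
  · obtain ⟨y, hy⟩ := (val_iff x).1 (mem_filter.1 hx).2
    rw [fol_top hy]
    exact fol_pts (by omega) hy
  · obtain ⟨y, hy⟩ := (val_iff x).1 (mem_filter.1 (mem_coe.1 hx)).2
    obtain ⟨y', hy'⟩ := (val_iff x').1 (mem_filter.1 (mem_coe.1 hx')).2
    obtain rfl : y = y' := (fol_top hy).symm.trans (h.trans (fol_top hy'))
    exact fol_uniq hj (by omega) hy hy' s s.2
  · have h1 : ∀ c : ℕ, ∃ a b : ZMod 2, ∀ hc : c < n, c < j → Br (code a b) (L ⟨c, hc⟩ y) := by
      intro c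
      by_cases hc : c < j
      · obtain ⟨k, hk⟩ := br_ex _ ((mem_pts y).1 (mem_coe.1 hy) ⟨c, by omega⟩ hc)
        obtain ⟨a, b, rfl⟩ := code_surj k
        exact ⟨a, b, fun _ _ => hk⟩
      · exact ⟨0, 0, fun _ h => absurd h hc⟩
    choose a b hab using h1
    let X : ℕ → ZMod 2 := fun s =>
      if s < 2 * j then (if s % 2 = 0 then a (s / 2) else b (s / 2)) else ext 0 y (s - 2 * j)
    have e : ∀ s, s < 2 * j + n → ext 0 (fun r : Fin (2 * j + n) => X r.val) s = X s :=
      fun s hs => by rw [ext, dif_pos hs]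
    have hF : Fol j (2 * j + n) L (ext 0 fun r : Fin (2 * j + n) => X r.val) y := by
      refine ⟨fun c hc => ?_, fun v hv => ?_⟩
      · have e1 : X (2 * c.val) = a c.val := by
          simp only [X]
          rw [if_pos (by omega), if_pos (by omega), show 2 * c.val / 2 = c.val by omega]
        have e2 : X (2 * c.val + 1) = b c.val := by
          simp only [X]
          rw [if_pos (by omega), if_neg (by omega), show (2 * c.val + 1) / 2 = c.val by omega]
        rw [e _ (by omega), e _ (by omega), e1, e2]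
        exact hab c.val c.2 hc.1
      · rw [e _ hv]
        simp only [X]
        rw [if_neg (by omega), Nat.add_sub_cancel_left, ext_val]
    exact ⟨_, mem_coe.2 (mem_filter.2 ⟨mem_univ _, (val_iff _).2 ⟨y, hF⟩⟩), fol_top hF⟩

/-- the linear system behind `val` -/
lemma val_lin (α : Fin n → Fin 4 → Fin n → ZMod 2) (β : Fin n → Fin 4 → ZMod 2)
    (x : Fin (2 * j + n) → ZMod 2) :
    val j t (fun v y i => β v i + ∑ u, α v i u * y u) x = true ↔
      ∃ y : Fin n → ZMod 2, ∀ r : (Fin n × Fin 4) ⊕ Fin n,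
        ∑ u, Sum.elim (fun p : Fin n × Fin 4 => if (p.1.val < j ∧ 2 * p.1.val + 2 ≤ t) ∧
              p.2 ≤ code (ext 0 x (2 * p.1.val)) (ext 0 x (2 * p.1.val + 1)) then α p.1 p.2 u else 0)
            (fun v : Fin n => if 2 * j + v.val < t ∧ u = v then (1 : ZMod 2) else 0) r * y u =
          Sum.elim (fun p : Fin n × Fin 4 => if (p.1.val < j ∧ 2 * p.1.val + 2 ≤ t) ∧
              p.2 ≤ code (ext 0 x (2 * p.1.val)) (ext 0 x (2 * p.1.val + 1)) then
                (if p.2 = code (ext 0 x (2 * p.1.val)) (ext 0 x (2 * p.1.val + 1)) then 1 else 0) -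
                  β p.1 p.2 else 0)
            (fun v : Fin n => if 2 * j + v.val < t then ext 0 x (2 * j + v.val) else 0) r := by
  rw [val_iff]
  refine exists_congr fun y => ?_
  rw [Sum.forall, Prod.forall, Fol]
  refine and_congr (forall_congr' fun c => ?_) (forall_congr' fun v => ?_)
  · rw [br_iff]
    by_cases h : c.val < j ∧ 2 * c.val + 2 ≤ t
    · simp only [h, and_self, true_and, forall_const, Sum.elim_inl]
      refine forall_congr' fun i => ?_
      by_cases hi : i ≤ code (ext 0 x (2 * c.val)) (ext 0 x (2 * c.val + 1))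
      · simp only [hi, if_true, forall_const, eq_sub_iff_add_eq']
      · simp [hi]
    · simp [h]
  · by_cases h : 2 * j + v.val < t <;> simp [h]

/-- circuits for `val` -/
lemma circ (hG : U5.GaussStmt) :
    ∃ D : ℕ, ∀ (Ω : Type) (I P : Set (Ω → Bool)) (N n j t : ℕ)
      (α : Ω → Fin n → Fin 4 → Fin n → ZMod 2) (β : Ω → Fin n → Fin 4 → ZMod 2)
      (x : Ω → Fin (2 * j + n) → ZMod 2), 7 ≤ N → 5 * n + 1 ≤ N →
      (∀ v i u, Bits (fun ω => α ω v i u) ⊆ P) → (∀ v i, Bits (fun ω => β ω v i) ⊆ P) →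
      (∀ v, Bits (fun ω => x ω v) ⊆ P) →
      TF I P (N ^ D) fun ω => val j t (fun v y i => β ω v i + ∑ u, α ω v i u * y u) (x ω) := by
  obtain ⟨D, h1⟩ := U5.Parc.gauss' hG 4
  refine ⟨D, ?_⟩
  intro Ω I P N n j t α β x hN h5 hα hβ hx
  have hz := U5.card_zmod2_le hN
  have h4 : Fintype.card (Fin 4) ≤ N := by
    rw [Fintype.card_fin]
    omega
  have hX : ∀ s e, PF I P N e fun ω => ext 0 (x ω) s := fun s e => by
    by_cases hs : s < 2 * j + n
    · exact (PF.of_subset (hx ⟨s, hs⟩) e).congr fun ω => by rw [ext, dif_pos hs]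
    · exact (PF.const 0 e).congr fun ω => by rw [ext, dif_neg hs]
  have hC : ∀ c : ℕ, PF I P N 3 fun ω => code (ext 0 (x ω) (2 * c)) (ext 0 (x ω) (2 * c + 1)) :=
    fun c => PF.op2 (d := 2) code hN le_rfl hz hz (hX _ 2) (hX _ 2)
  refine ((h1 Ω I P N n ((Fin n × Fin 4) ⊕ Fin n) _ _ hN (by omega) (by simp; omega) ?_ ?_).1
    _ fun ω => val_lin (α ω) (β ω) (x ω)).tf
  · rintro (p | v) u
    · exact (PF.op2 (d := 3) (fun (b : Fin 4) (s : ZMod 2) =>
        if (p.1.val < j ∧ 2 * p.1.val + 2 ≤ t) ∧ p.2 ≤ b then s else 0) hN (by omega) h4 hz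
        (hC p.1.val) (PF.of_subset (hα p.1 p.2 u) 3)).congr fun ω => rfl
    · exact (PF.const (if 2 * j + v.val < t ∧ u = v then (1 : ZMod 2) else 0) 4).congr
        fun ω => rfl
  · rintro (p | v)
    · exact (PF.op2 (d := 3) (fun (b : Fin 4) (s : ZMod 2) =>
        if (p.1.val < j ∧ 2 * p.1.val + 2 ≤ t) ∧ p.2 ≤ b then (if p.2 = b then 1 else 0) - s else 0)
        hN (by omega) h4 hz (hC p.1.val) (PF.of_subset (hβ p.1 p.2) 3)).congr fun ω => rfl
    · exact (PF.op1 (d := 3) (fun s : ZMod 2 => if 2 * j + v.val < t then s else 0) hN (by omega)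
        hz (hX _ 3)).congr fun ω => rfl

end ListL

open ListL in
/-- row LIST -/
theorem list (hG : U5.GaussStmt) (hS : U5.SearchStmt) : ListStmt := by
  obtain ⟨D1, h1⟩ := circ hG
  obtain ⟨D2, h2⟩ := hS
  refine ⟨D2 + (D1 + 1), ?_⟩
  intro Ω I P N n j d c α β Φ hN h5 hd hj hα hβ hΦ
  obtain ⟨o, ho1, ho2⟩ := h2 Ω I P N (2 * j + n) d (N ^ D1 + c)
    (fun t ω x => val j t (fun v y i => β ω v i + ∑ u, α ω v i u * y u) x)
    (fun ω x => Φ ω fun v => x (Fin.natAdd (2 * j) v)) hN (by omega) hd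
    (fun t _ P' x hP hx => (h1 Ω I P' N n j t α β x hN h5 (fun v i u => (hα v i u).trans hP)
      (fun v i => (hβ v i).trans hP) hx).le (by omega))
    (fun P' x hP hx => (hΦ P' (fun ω v => x ω (Fin.natAdd (2 * j) v)) hP fun v => hx _).le
      (by omega))
    (fun ω s x _ h => val_prefix s x h)
  refine ⟨o, ho1.le ?_, fun ω => ?_⟩
  · have h3 : N ^ D1 + c + 1 ≤ N ^ (D1 + 1) * (c + 1) := by
      have h4 : 1 ≤ N ^ D1 := Nat.one_le_pow _ _ (by omega)
      have h7 : N ^ D1 * 7 ≤ N ^ D1 * N := Nat.mul_le_mul_left _ hN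
      rw [pow_succ]
      nlinarith
    rw [pow_add N D2, ← mul_assoc, mul_assoc _ _ (c + 1)]
    exact Nat.mul_le_mul_left _ h3
  · obtain ⟨g1, g2⟩ := ho2 ω
    have e := sum_top (L := fun v y i => β ω v i + ∑ u, α ω v i u * y u) hj (Φ ω)
    refine ⟨fun h => e.symm.trans (g1 h), fun hn hp hs => g2 (fun t _ => ?_) (e.trans hs)⟩
    by_cases ht : 2 * j ≤ t
    · exact (card_hi hj ht).trans hp
    · have h3 := hn (t / 2) (by omega)
      exact (card_lo hj (by omega)).trans (by omega)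

end Pool.Agent.MP_6b3410_lc.D4
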