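import Pool.Agent.MP_6b3410_lc.D4.Spec2
import Pool.Agent.MP_6b3410_lc.U5.Parc

/-!
Row LIST2: oblivious listing along a covering list, from Gaussian elimination and oblivious
backtracking.
-/

set_option autoImplicit false

namespace Pool.Agent.MP_6b3410_lc.D4

open Finset hiding ext
open Pool.Agent.MP_6b3410_lc.U5 (Gen TF PF Bits ext)

namespace List2L

variable {n m b r K j : ℕ}

/-- the bits of block `i` -/
def blk (b : ℕ) (X : ℕ → ZMod 2) (i : ℕ) : Fin b → ZMod 2 := fun s => X (b * i + s.val)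

lemma blk_ext (hb : 1 ≤ b) {X X' : ℕ → ZMod 2} {s : ℕ}
    (h : blk b X (s / b) = blk b X' (s / b)) : X s = X' s := by
  have := congrFun h ⟨s % b, Nat.mod_lt _ hb⟩
  simp only [blk] at this
  rwa [Nat.div_add_mod] at this

lemma ext_val {l : ℕ} (x : Fin l → ZMod 2) (v : Fin l) : ext 0 x v.val = x v := by
  simp [ext]

lemma blk_le (i : Fin m) : b * (i.val + 1) ≤ m * b := by
  rw [mul_comm]
  exact Nat.mul_le_mul_right _ i.2

/-- `y` follows the first `j` choices of `X` -/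
def Fol (j : ℕ) (T : (Fin b → ZMod 2) → Fin b → BK r)
    (L : Fin m × Fin b → (Fin n → ZMod 2) → BK r) (X : ℕ → ZMod 2) (y : Fin n → ZMod 2) : Prop :=
  (∀ (i : Fin m) (s : Fin b), b * (i.val + 1) ≤ j → T (blk b X i.val) s ⬝ᵥ L (i, s) y = 1) ∧
    ∀ v : Fin n, m * b + v.val < j → y v = X (m * b + v.val)

open Classical in
/-- the first `j` choices are consistent -/
noncomputable def val (j : ℕ) (T : (Fin b → ZMod 2) → Fin b → BK r)
    (L : Fin m × Fin b → (Fin n → ZMod 2) → BK r) (x : Fin (m * b + n) → ZMod 2) : Bool :=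
  decide (∃ y, Fol j T L (ext 0 x) y)

variable {T : (Fin b → ZMod 2) → Fin b → BK r} {L : Fin m × Fin b → (Fin n → ZMod 2) → BK r}
  {t : ℕ → Fin b → BK r} {e : Fin K → Fin b → ZMod 2} {g : (Fin b → ZMod 2) → Fin K}

lemma val_iff (x : Fin (m * b + n) → ZMod 2) :
    val j T L x = true ↔ ∃ y, Fol j T L (ext 0 x) y := by
  simp [val]

lemma val_step (s : Fin (m * b + n)) (x : Fin (m * b + n) → ZMod 2)
    (h : val (s + 1) T L x = true) : val s T L (Function.update x s 0) = true := by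
  rw [val_iff] at h ⊢
  obtain ⟨y, h1, h2⟩ := h
  have e : ∀ q, q < s.val → ext 0 (Function.update x s 0) q = ext 0 x q := fun q hq => by
    have h3 : q < m * b + n := hq.trans s.2
    rw [ext, ext, dif_pos h3, dif_pos h3, Function.update_of_ne fun e => by
      rw [← e] at hq
      exact lt_irrefl _ hq]
  refine ⟨y, fun i k hi => ?_, fun v hv => ?_⟩
  · have e1 : blk b (ext 0 (Function.update x s 0)) i.val = blk b (ext 0 x) i.val :=
      funext fun q => e _ (by
        have := q.2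
        rw [mul_add] at hi
        omega)
    rw [e1]
    exact h1 i k (by omega)
  · rw [e _ hv]
    exact h2 v (by omega)

lemma x_ext (hb : 1 ≤ b) {x x' : Fin (m * b + n) → ZMod 2}
    (h1 : ∀ i : Fin m, blk b (ext 0 x) i.val = blk b (ext 0 x') i.val)
    (h2 : ∀ v : Fin n, ext 0 x (m * b + v.val) = ext 0 x' (m * b + v.val)) : x = x' := by
  funext s
  rw [← ext_val x, ← ext_val x']
  by_cases hs : s.val < m * b
  · exact blk_ext hb (h1 ⟨s.val / b, (Nat.div_lt_iff_lt_mul hb).2 hs⟩)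
  · have := h2 ⟨s.val - m * b, by omega⟩
    rwa [Nat.add_sub_cancel' (by omega)] at this

lemma card_hi (hb : 1 ≤ b) (hj : m * b ≤ j)
    (hT : ∀ w s v, T w s ⬝ᵥ v = 1 → e (g w) = w ∧ t (g w) s ⬝ᵥ v = 1) :
    (univ.filter fun x : Fin (m * b + n) → ZMod 2 =>
      (∀ v : Fin (m * b + n), j ≤ v.val → x v = 0) ∧ val j T L x = true).card ≤ pairs K t L := by
  classical
  unfold pairs
  refine card_le_card_of_forall_subsingleton
    (fun x (q : (Fin m → Fin K) × (Fin n → ZMod 2)) =>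
      (∀ i : Fin m, e (q.1 i) = blk b (ext 0 x) i.val) ∧ Fol j T L (ext 0 x) q.2)
    (fun x hx => ?_) fun q _ x hx x' hx' => x_ext hb
      (fun i => (hx.2.1 i).symm.trans (hx'.2.1 i)) fun v => ?_
  · obtain ⟨y, hy⟩ := (val_iff x).1 (mem_filter.1 hx).2.2
    have k := fun i s => hT _ _ _ (hy.1 i s ((blk_le i).trans hj))
    exact ⟨(fun i => g (blk b (ext 0 x) i.val), y), by simpa using fun i s => (k i s).2,
      fun i => (k i ⟨0, hb⟩).1, hy⟩
  · by_cases hv : m * b + v.val < j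
    · exact (hx.2.2.2 v hv).symm.trans (hx'.2.2.2 v hv)
    · exact (ext_val x (Fin.natAdd _ v)).trans
        (((mem_filter.1 hx.1).2.1 _ (not_lt.1 hv)).trans ((ext_val x' (Fin.natAdd _ v)).trans
          ((mem_filter.1 hx'.1).2.1 _ (not_lt.1 hv))).symm)

lemma card_lo (hb : 1 ≤ b) (hj : j ≤ m * b)
    (hT : ∀ w s v, T w s ⬝ᵥ v = 1 → e (g w) = w ∧ t (g w) s ⬝ᵥ v = 1) :
    (univ.filter fun x : Fin (m * b + n) → ZMod 2 =>
      (∀ v : Fin (m * b + n), j ≤ v.val → x v = 0) ∧ val j T L x = true).card ≤ 2 ^ b * K ^ m := by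
  have e0 : 2 ^ b * K ^ m = (univ : Finset ((Fin b → ZMod 2) × (Fin m → Fin K))).card := by simp
  rw [e0]
  refine card_le_card_of_injOn
    (fun x => (blk b (ext 0 x) (j / b), fun i => g (blk b (ext 0 x) i.val)))
    (fun _ _ => mem_coe.2 (mem_univ _)) fun x hx x' hx' h => funext fun s => ?_
  obtain ⟨h1, h2⟩ := Prod.ext_iff.1 h
  obtain ⟨z1, z2⟩ := (mem_filter.1 (mem_coe.1 hx)).2
  obtain ⟨z3, z4⟩ := (mem_filter.1 (mem_coe.1 hx')).2
  by_cases hs : j ≤ s.val
  · rw [z1 s hs, z3 s hs]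
  rw [← ext_val x, ← ext_val x']
  refine blk_ext hb ?_
  rcases (Nat.div_le_div_right (c := b) (not_le.1 hs).le).eq_or_lt with k | k
  · rw [k]
    exact h1
  · obtain ⟨y, hy⟩ := (val_iff x).1 z2
    obtain ⟨y', hy'⟩ := (val_iff x').1 z4
    have k1 : s.val / b < m := (Nat.div_lt_iff_lt_mul hb).2 (by omega)
    have k2 : b * (s.val / b + 1) ≤ j := (Nat.mul_le_mul_left b k).trans (Nat.mul_div_le j b)
    exact (hT _ _ _ (hy.1 ⟨_, k1⟩ ⟨0, hb⟩ k2)).1.symm.trans ((congrArg e (congrFun h2 ⟨_, k1⟩)).trans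
      (hT _ _ _ (hy'.1 ⟨_, k1⟩ ⟨0, hb⟩ k2)).1)

lemma fol_top {x : Fin (m * b + n) → ZMod 2} {y : Fin n → ZMod 2}
    (h : Fol (m * b + n) T L (ext 0 x) y) : (fun v => x (Fin.natAdd (m * b) v)) = y :=
  funext fun v => ((h.2 v (by omega)).trans (ext_val x (Fin.natAdd _ v))).symm

lemma sum_top (hb : 1 ≤ b) (f : (Fin b → BK r) → Fin b → ZMod 2)
    (hf : ∀ v, (∀ s, v s ≠ 0) → ∀ s, T (f v) s ⬝ᵥ v s = 1) (Φ : (Fin n → ZMod 2) → ZMod 2) :
    ∑ x ∈ univ.filter (fun x : Fin (m * b + n) → ZMod 2 => val (m * b + n) T L x = true),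
      Φ (fun v => x (Fin.natAdd (m * b) v)) * ∏ i : Fin m, (if blk b (ext 0 x) i.val =
        f (fun s => L (i, s) fun v => x (Fin.natAdd (m * b) v)) then 1 else 0) =
      ∑ y ∈ pts2 L, Φ y := by
  simp only [prod_boole, mul_boole, mem_univ, forall_const]
  rw [← sum_filter, filter_filter]
  refine sum_nbij (fun x v => x (Fin.natAdd (m * b) v)) (fun x hx => ?_)
    (fun x hx x' hx' h => ?_) (fun y hy => ?_) fun _ _ => rfl
  · obtain ⟨y, hy⟩ := (val_iff x).1 (mem_filter.1 hx).2.1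
    rw [fol_top hy]
    simp only [pts2, mem_filter, mem_univ, true_and]
    intro p hp
    have := hy.1 p.1 p.2 ((blk_le p.1).trans (by omega))
    rw [hp, dotProduct_zero] at this
    exact zero_ne_one this
  · refine x_ext hb (fun i => ?_) fun v => (ext_val x (Fin.natAdd _ v)).trans
      ((congrFun h v).trans (ext_val x' (Fin.natAdd _ v)).symm)
    rw [(mem_filter.1 (mem_coe.1 hx)).2.2 i, (mem_filter.1 (mem_coe.1 hx')).2.2 i]
    exact congrArg (fun y => f fun s => L (i, s) y) h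
  · have hy' : ∀ p, L p y ≠ 0 := by simpa [pts2] using hy
    let x : Fin (m * b + n) → ZMod 2 := fun s => if h : s.val / b < m then
      f (fun k => L (⟨_, h⟩, k) y) ⟨s.val % b, Nat.mod_lt _ hb⟩ else ext 0 y (s.val - m * b)
    have e1 : ∀ i : Fin m, blk b (ext 0 x) i.val = f fun s => L (i, s) y := fun i => funext fun s => by
      have a1 : b * i.val + s.val < m * b + n := by
        have := blk_le (b := b) i
        have := s.2
        rw [mul_add] at *
        omega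
      have a2 : (b * i.val + s.val) / b = i.val := by
        rw [Nat.mul_add_div hb, Nat.div_eq_of_lt s.2, add_zero]
      have a3 : (b * i.val + s.val) % b = s.val := by
        rw [Nat.mul_add_mod, Nat.mod_eq_of_lt s.2]
      simp only [blk, ext, dif_pos a1, x, a2, a3, i.2, dif_pos, Fin.eta]
    have e2 : (fun v => x (Fin.natAdd (m * b) v)) = y := funext fun v => by
      have a1 : ¬(m * b + v.val) / b < m := by
        rw [Nat.div_lt_iff_lt_mul hb]
        omega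
      simp only [x, Fin.val_natAdd, dif_neg a1, Nat.add_sub_cancel_left, ext_val]
    refine ⟨x, mem_coe.2 (mem_filter.2 ⟨mem_univ _, (val_iff _).2 ⟨y, fun i s _ => ?_,
      fun v _ => ?_⟩, fun i => ?_⟩), e2⟩
    · rw [e1]
      exact hf _ (fun s => hy' _) s
    · exact ((ext_val x (Fin.natAdd _ v)).trans (congrFun e2 v)).symm
    · rw [e1, e2]

/-- the linear system behind `val` -/
lemma val_lin (α : Fin m × Fin b → Fin r → Fin n → ZMod 2) (β : Fin m × Fin b → BK r)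
    (x : Fin (m * b + n) → ZMod 2) :
    val j T (fun p y i => β p i + ∑ u, α p i u * y u) x = true ↔
      ∃ y : Fin n → ZMod 2, ∀ q : (Fin m × Fin b) ⊕ Fin n,
        ∑ u, Sum.elim (fun p : Fin m × Fin b => if b * (p.1.val + 1) ≤ j then
              T (blk b (ext 0 x) p.1.val) p.2 ⬝ᵥ (fun i => α p i u) else 0)
            (fun v : Fin n => if m * b + v.val < j ∧ u = v then (1 : ZMod 2) else 0) q * y u =
          Sum.elim (fun p : Fin m × Fin b => if b * (p.1.val + 1) ≤ j then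
              1 - T (blk b (ext 0 x) p.1.val) p.2 ⬝ᵥ β p else 0)
            (fun v : Fin n => if m * b + v.val < j then ext 0 x (m * b + v.val) else 0) q := by
  rw [val_iff]
  refine exists_congr fun y => ?_
  rw [Sum.forall, Prod.forall, Fol]
  refine and_congr (forall_congr' fun i => forall_congr' fun s => ?_) (forall_congr' fun v => ?_)
  · by_cases h : b * (i.val + 1) ≤ j
    · simp only [h, forall_const, Sum.elim_inl, if_true, eq_sub_iff_add_eq']
      simp only [dotProduct, mul_add, sum_add_distrib, mul_sum, sum_mul, mul_assoc]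
      rw [sum_comm]
    · simp [h]
  · by_cases h : m * b + v.val < j <;> simp [h]

section circ

variable {Ω : Type} {I P : Set (Ω → Bool)} {N d : ℕ}

/-- tuples of small total type -/
lemma pf_pi {ι γ : Type} [Fintype ι] [DecidableEq ι] [Fintype γ] [AddCommMonoid γ]
    {φ : Ω → ι → γ} (hN : 7 ≤ N) (hd : 2 ≤ d) (h1 : Fintype.card ι ≤ N) (h2 : Fintype.card γ ≤ N)
    (h3 : Fintype.card (ι → γ) ≤ N) (h : ∀ i, PF I P N d fun ω => φ ω i) : PF I P N (d + 3) φ :=
  (PF.sum (d := d + 1) univ (fun i ω => (Pi.single i (φ ω i) : ι → γ)) hN (by omega) h3 h1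
    fun i _ => PF.op1 (fun a => (Pi.single i a : ι → γ)) hN hd h2 (h i)).congr
    fun ω => univ_sum_single (φ ω)

lemma small (hb : 1 ≤ b) (hr : 1 ≤ r) (h : 2 ^ (r * b) ≤ N) :
    Fintype.card (Fin b) ≤ N ∧ Fintype.card (Fin r) ≤ N ∧ Fintype.card (Fin b → ZMod 2) ≤ N ∧
      Fintype.card (BK r) ≤ N ∧ Fintype.card (Fin b → BK r) ≤ N := by
  have a1 : 2 ^ b ≤ 2 ^ (r * b) := Nat.pow_le_pow_right two_pos (Nat.le_mul_of_pos_left _ hr)
  have a2 : 2 ^ r ≤ 2 ^ (r * b) := Nat.pow_le_pow_right two_pos (Nat.le_mul_of_pos_right _ hb)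
  have a3 := b.lt_two_pow_self
  have a4 := r.lt_two_pow_self
  simp only [Fintype.card_pi, Fintype.card_fin, ZMod.card, prod_const, card_univ, ← pow_mul]
  omega

lemma pf_ext {l : ℕ} {x : Ω → Fin l → ZMod 2} (hx : ∀ v, Bits (fun ω => x ω v) ⊆ P) (s d : ℕ) :
    PF I P N d fun ω => ext 0 (x ω) s := by
  by_cases hs : s < l
  · exact (PF.of_subset (hx ⟨s, hs⟩) d).congr fun ω => by rw [ext, dif_pos hs]
  · exact (PF.const 0 d).congr fun ω => by rw [ext, dif_neg hs]

lemma pf_blk {l : ℕ} {x : Ω → Fin l → ZMod 2} (hN : 7 ≤ N) (hb : 1 ≤ b) (hr : 1 ≤ r)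
    (h : 2 ^ (r * b) ≤ N) (hx : ∀ v, Bits (fun ω => x ω v) ⊆ P) (i : ℕ) :
    PF I P N 5 fun ω => blk b (ext 0 (x ω)) i :=
  pf_pi (d := 2) hN le_rfl (small hb hr h).1 (U5.card_zmod2_le hN) (small hb hr h).2.2.1
    fun _ => pf_ext hx _ 2

lemma pf_sel {α : Ω → Fin m × Fin b → Fin r → Fin n → ZMod 2} {β : Ω → Fin m × Fin b → BK r}
    {x : Ω → Fin (m * b + n) → ZMod 2} (f : (Fin b → BK r) → Fin b → ZMod 2) (hN : 7 ≤ N)
    (hb : 1 ≤ b) (hr : 1 ≤ r) (h5 : m * b + n + 1 ≤ N) (h : 2 ^ (r * b) ≤ N)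
    (hα : ∀ p i u, Bits (fun ω => α ω p i u) ⊆ P) (hβ : ∀ p i, Bits (fun ω => β ω p i) ⊆ P)
    (hx : ∀ v, Bits (fun ω => x ω v) ⊆ P) :
    PF I P N 15 fun ω => ∏ i : Fin m, (if blk b (ext 0 (x ω)) i.val = f (fun s k =>
      β ω (i, s) k + ∑ u, α ω (i, s) k u * x ω (Fin.natAdd (m * b) u)) then (1 : ZMod 2) else 0) := by
  obtain ⟨c1, c2, c3, c4, c5⟩ := small hb hr h
  have hz := U5.card_zmod2_le hN
  have hm : m ≤ m * b := Nat.le_mul_of_pos_right _ hb
  refine PF.prod (d := 13) univ _ hN (by omega) hz (by simp; omega) fun i _ =>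
    PF.op2 (d := 12) (fun w v => if w = f v then (1 : ZMod 2) else 0) hN (by omega) c3 c5
      ((pf_blk hN hb hr h hx i.val).le hN (by omega))
      (pf_pi (d := 9) hN (by omega) c1 c4 c5 fun s => pf_pi (d := 6) hN (by omega) c2 hz c4 fun k =>
        PF.op2 (d := 5) (· + ·) hN (by omega) hz hz (PF.of_subset (hβ _ k) 5)
          (PF.sum (d := 3) univ _ hN (by omega) hz (by simp; omega) fun u _ =>
            PF.op2 (d := 2) (· * ·) hN le_rfl hz hz (PF.of_subset (hα _ k u) 2)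
              (PF.of_subset (hx _) 2)))

end circ

/-- circuits for `val` -/
lemma circ (hG : U5.GaussStmt) :
    ∃ D : ℕ, ∀ (Ω : Type) (I P : Set (Ω → Bool)) (N n m b r j : ℕ)
      (T : (Fin b → ZMod 2) → Fin b → BK r)
      (α : Ω → Fin m × Fin b → Fin r → Fin n → ZMod 2) (β : Ω → Fin m × Fin b → BK r)
      (x : Ω → Fin (m * b + n) → ZMod 2), 7 ≤ N → 1 ≤ b → 1 ≤ r → m * b + n + 1 ≤ N →
      2 ^ (r * b) ≤ N → (∀ p i u, Bits (fun ω => α ω p i u) ⊆ P) →
      (∀ p i, Bits (fun ω => β ω p i) ⊆ P) → (∀ v, Bits (fun ω => x ω v) ⊆ P) →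
      TF I P (N ^ D) fun ω => val j T (fun p y i => β ω p i + ∑ u, α ω p i u * y u) (x ω) := by
  obtain ⟨D, h1⟩ := U5.Parc.gauss' hG 6
  refine ⟨D, ?_⟩
  intro Ω I P N n m b r j T α β x hN hb hr h5 h hα hβ hx
  obtain ⟨-, c2, c3, c4, -⟩ := small hb hr h
  have hz := U5.card_zmod2_le hN
  refine ((h1 Ω I P N n ((Fin m × Fin b) ⊕ Fin n) _ _ hN (by omega) (by simp; omega) ?_ ?_).1
    _ fun ω => val_lin (α ω) (β ω) (x ω)).tf
  · rintro (p | v) u
    · exact (PF.op2 (d := 5) (fun w (a : BK r) => if b * (p.1.val + 1) ≤ j then T w p.2 ⬝ᵥ a else 0)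
        hN (by omega) c3 c4 (pf_blk hN hb hr h hx p.1.val) (pf_pi (d := 2) hN le_rfl c2 hz c4
          (φ := fun ω i => α ω p i u) fun i => PF.of_subset (hα p i u) 2)).congr fun ω => rfl
    · exact (PF.const (if m * b + v.val < j ∧ u = v then (1 : ZMod 2) else 0) 6).congr
        fun ω => rfl
  · rintro (p | v)
    · exact (PF.op2 (d := 5)
        (fun w (a : BK r) => if b * (p.1.val + 1) ≤ j then 1 - T w p.2 ⬝ᵥ a else 0)
        hN (by omega) c3 c4 (pf_blk hN hb hr h hx p.1.val) (pf_pi (d := 2) hN le_rfl c2 hz c4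
          (φ := fun ω => β ω p) fun i => PF.of_subset (hβ p i) 2)).congr fun ω => rfl
    · exact (PF.op1 (d := 5) (fun s : ZMod 2 => if m * b + v.val < j then s else 0) hN (by omega)
        hz (pf_ext hx _ 5)).congr fun ω => rfl

/-- coding the indices of the list by blocks of bits -/
lemma setup (h1 : 1 ≤ K) (h2 : K ≤ 2 ^ b) (hC : Covers K t) :
    ∃ (T : (Fin b → ZMod 2) → Fin b → BK r) (e : Fin K → Fin b → ZMod 2)
      (g : (Fin b → ZMod 2) → Fin K) (f : (Fin b → BK r) → Fin b → ZMod 2),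
      (∀ w s v, T w s ⬝ᵥ v = 1 → e (g w) = w ∧ t (g w) s ⬝ᵥ v = 1) ∧
      ∀ v, (∀ s, v s ≠ 0) → ∀ s, T (f v) s ⬝ᵥ v s = 1 := by
  have : Nonempty (Fin K) := ⟨⟨0, h1⟩⟩
  obtain ⟨e⟩ := Function.Embedding.nonempty_of_card_le (α := Fin K) (β := Fin b → ZMod 2)
    (by simpa using h2)
  have k : ∀ v : Fin b → BK r, ∃ i : Fin K, (∀ s, v s ≠ 0) → ∀ s, t i s ⬝ᵥ v s = 1 := fun v => by
    by_cases hv : ∀ s, v s ≠ 0
    · obtain ⟨i, hi, h⟩ := hC v hv
      exact ⟨⟨i, hi⟩, fun _ => h⟩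
    · exact ⟨⟨0, h1⟩, fun h => absurd h hv⟩
  choose f hf using k
  refine ⟨fun w => if e (Function.invFun e w) = w then t (Function.invFun e w : Fin K) else 0, e,
    Function.invFun e, fun v => e (f v), fun w s v h => ?_, fun v hv s => ?_⟩
  · by_cases a : e (Function.invFun e w) = w
    · exact ⟨a, by simpa only [if_pos a] using h⟩
    · simp [if_neg a] at h
  · simp only [Function.leftInverse_invFun e.injective (f v), if_true]
    exact hf v hv s

end List2L

open List2L in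
/-- row LIST2 -/
theorem list2 (hG : U5.GaussStmt) (hS : U5.SearchStmt) : List2Stmt := by
  obtain ⟨D1, h1⟩ := circ hG
  obtain ⟨D2, h2⟩ := hS
  refine ⟨D2 + (D1 + 15 + 1), ?_⟩
  intro Ω I P N n m b r K d c t α β Φ hN hb hr h5 hd h hK1 hK2 hC hα hβ hΦ
  obtain ⟨T, e, g, f, hT, hf⟩ := setup hK1 hK2 hC
  have p1 : N ^ D1 ≤ N ^ (D1 + 15) := Nat.pow_le_pow_right (by omega) (by omega)
  have p2 : N ^ 15 ≤ N ^ (D1 + 15) := Nat.pow_le_pow_right (by omega) (by omega)
  have p3 : 7 ^ 15 ≤ N ^ 15 := Nat.pow_le_pow_left hN _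
  obtain ⟨o, ho1, ho2⟩ := h2 Ω I P N (m * b + n) d (2 * N ^ (D1 + 15) + c)
    (fun j ω x => val j T (fun p y i => β ω p i + ∑ u, α ω p i u * y u) x)
    (fun ω x => Φ ω (fun v => x (Fin.natAdd (m * b) v)) * ∏ i : Fin m,
      (if blk b (ext 0 x) i.val = f (fun s k =>
        β ω (i, s) k + ∑ u, α ω (i, s) k u * x (Fin.natAdd (m * b) u)) then 1 else 0))
    hN (by omega) hd
    (fun j _ P' x hP hx => (h1 Ω I P' N n m b r j T α β x hN hb hr h5 h
      (fun p i u => (hα p i u).trans hP) (fun p i => (hβ p i).trans hP) hx).le (by omega))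
    (fun P' x hP hx => (TF.op2 (· * ·)
      (hΦ P' (fun ω v => x ω (Fin.natAdd (m * b) v)) hP fun v => hx _)
      (pf_sel f hN hb hr h5 h (fun p i u => (hα p i u).trans hP) (fun p i => (hβ p i).trans hP)
        hx).tf).le (by rw [ZMod.card]; omega))
    (fun ω s x _ h => val_step s x h)
  refine ⟨o, ho1.le ?_, fun ω => ?_⟩
  · have h3 : 2 * N ^ (D1 + 15) + c + 1 ≤ N ^ (D1 + 15 + 1) * (c + 1) := by
      have h7 : N ^ (D1 + 15) * 7 ≤ N ^ (D1 + 15) * N := Nat.mul_le_mul_left _ hN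
      rw [pow_succ N (D1 + 15)]
      nlinarith
    rw [pow_add N D2, ← mul_assoc, mul_assoc _ _ (c + 1)]
    exact Nat.mul_le_mul_left _ h3
  · obtain ⟨g1, g2⟩ := ho2 ω
    have e0 := sum_top (L := fun p y i => β ω p i + ∑ u, α ω p i u * y u) hb f hf (Φ ω)
    refine ⟨fun h => e0.symm.trans (g1 h), fun hn hp hs => g2 (fun j _ => ?_) (e0.trans hs)⟩
    by_cases hj : m * b ≤ j
    · exact (card_hi hb hj hT).trans hp
    · exact (card_lo hb (not_le.1 hj).le hT).trans hn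

end Pool.Agent.MP_6b3410_lc.D4
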