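import Pool.Agent.MP_6b3410_lc.D4.Spec
import Pool.Agent.MP_6b3410_lc.U5.P1

/-!
Assembly of the upper bound for directed Hamiltonicity.
-/

set_option autoImplicit false

namespace Pool.Agent.MP_6b3410_lc.D4

open Finset
open Pool.Agent.MP_6b3410_lc.H5 (Cyc DHam)
open Pool.Agent.MP_6b3410_lc.U5

namespace MainL

lemma prod_count {X Y Z : Type} [Fintype X] [Fintype Y] [Fintype Z] (S : Finset X)
    (a : X → Y → Prop) (b : X → Z → Prop) [∀ x, DecidablePred (a x)] [∀ x, DecidablePred (b x)]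
    (T : Finset (X × Y × Z)) (hT : ∀ p, a p.1 p.2.1 → b p.1 p.2.2 → p ∈ T)
    (ha : ∀ x ∈ S, Fintype.card Y ≤ 2 * (univ.filter (a x)).card)
    (hb : ∀ x ∈ S, Fintype.card Z ≤ 2 * (univ.filter (b x)).card) :
    S.card * (Fintype.card Y * Fintype.card Z) ≤ 4 * T.card := by
  classical
  have h1 : (S.sigma fun x => (univ.filter (a x)) ×ˢ (univ.filter (b x))).card ≤ T.card := by
    refine card_le_card_of_injOn (fun p => (p.1, p.2)) ?_ ?_
    · intro p hp
      simp only [coe_sigma, Set.mem_sigma_iff, mem_coe, mem_product, mem_filter, mem_univ,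
        true_and] at hp
      exact hT _ hp.2.1 hp.2.2
    · rintro ⟨x, p⟩ - ⟨y, q⟩ - h
      simp only [Prod.mk.injEq] at h
      obtain ⟨rfl, rfl⟩ := h
      rfl
  rw [card_sigma] at h1
  refine le_trans ?_ (Nat.mul_le_mul_left 4 h1)
  rw [mul_sum, ← smul_eq_mul, ← sum_const]
  refine sum_le_sum fun x hx => ?_
  rw [card_product]
  have := Nat.mul_le_mul (ha x hx) (hb x hx)
  linarith

/-- arcs read off the variables -/
def arc {n : ℕ} (x : {p : Fin n × Fin n // p.1 ≠ p.2} → Bool) (u v : Fin n) : Bool :=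
  if h : u ≠ v then x ⟨(u, v), h⟩ else false

lemma arc_iff {n : ℕ} (x : {p : Fin n × Fin n // p.1 ≠ p.2} → Bool) (u v : Fin n) :
    arc x u v = true ↔ ∃ h : u ≠ v, x ⟨(u, v), h⟩ = true := by
  unfold arc
  by_cases h : u ≠ v
  · simp [h]
  · simp [h]

lemma num1 (n j : ℕ) (h : 7 * j ≤ 4 * n + 7) :
    (49 / 48 : ℝ) ^ j ≤ 2 * 1.01186 ^ n := by
  refine le_of_pow_le_pow_left₀ (n := 7) (by norm_num) (by positivity) ?_
  calc ((49 / 48 : ℝ) ^ j) ^ 7 ≤ (49 / 48) ^ (7 + 4 * n) := by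
        rw [← pow_mul]; exact pow_le_pow_right₀ (by norm_num) (by omega)
    _ = (49 / 48) ^ 7 * ((49 / 48) ^ 4) ^ n := by rw [pow_add, pow_mul]
    _ ≤ 2 ^ 7 * (1.01186 ^ 7) ^ n := by gcongr <;> norm_num
    _ = _ := by rw [mul_pow, ← pow_mul, ← pow_mul, mul_comm n]

lemma num2 (n : ℕ) (hn : 4 ≤ n) : 16 * (n + 2) ≤ 4 ^ n := by
  induction n, hn using Nat.le_induction with
  | base => norm_num
  | succ k _ ih => rw [pow_succ]; omega

lemma card_NZ : Fintype.card NZ = 7 := by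
  rw [Fintype.card_subtype_compl]; simp

/-- many seeds are good -/
lemma good_seeds (hh : HashStmt) (hz : SzStmt) (hc' : CountStmt) (n j : ℕ) (F : Type) [Field F]
    [Fintype F] [CharP F 2] (hF : 2 * n ≤ Fintype.card F) (hj : j ≤ n) (hj' : 4 * n ≤ 7 * j)
    (A : Fin n → Fin n → Bool) (hA : DHam fun u v => A u v = true)
    (T : Finset ((Fin n → Fin n → NZ) × (Fin n → B) ×
      ((Fin n → Fin 3 → F) × (Fin n → Fin n → F))))
    (hT : ∀ p : (Fin n → Fin n → NZ) × (Fin n → B) × ((Fin n → Fin 3 → F) × (Fin n → Fin n → F)),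
      ((∀ i ≤ j, (nodes i (form p.2.1 (hs A fun u v => (p.1 u v).1)) : ℝ) ≤
        2 * (n + 2) * (241 / 125) ^ n) ∧
        ((pts j (form p.2.1 (hs A fun u v => (p.1 u v).1))).card : ℝ) ≤
          2 * (n + 2) * (241 / 125) ^ n) →
      hc A (xw j (fun u v => (p.1 u v).1) p.2.2.1 p.2.2.2) ≠ 0 → p ∈ T) :
    (48 / 49 : ℝ) ^ j / 4 * Fintype.card ((Fin n → Fin n → NZ) × (Fin n → B) ×
      ((Fin n → Fin 3 → F) × (Fin n → Fin n → F))) ≤ T.card := by
  classical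
  obtain ⟨σ₀, hσ₀⟩ := hA
  set H : Finset (Fin n) := univ.filter fun c : Fin n => c.val < j with hH
  have hHc : H.card = j := by
    rw [hH, Fin.card_filter_val_lt]; omega
  set T' := (cycs A).filter fun σ => ∀ c : Fin n, ¬ c.val < j → σ c = σ₀ c with hT'
  have h1 := hh n H T' ⟨σ₀, by simp [hT', cycs, hσ₀]⟩
    (fun σ hσ => by
      have := (mem_filter.1 hσ).1
      simp only [cycs, mem_filter, mem_univ, true_and] at this
      exact this.inj)
    (fun σ hσ τ hτ c hc => by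
      have hc' : ¬ c.val < j := by simpa [hH] using hc
      rw [(mem_filter.1 hσ).2 c hc', (mem_filter.1 hτ).2 c hc'])
  rw [hHc] at h1
  set S := univ.filter fun ξ : Fin n → Fin n → NZ =>
    ∃ l : Fin n → B, ∑ σ ∈ T', ∏ c ∈ H, (l c ⬝ᵥ (ξ (σ c) c).1) = 1 with hS
  have h1' : 48 ^ j * 7 ^ (n * n) ≤ 49 ^ j * S.card := by convert h1
  have h2 := prod_count S
    (fun (ξ : Fin n → Fin n → NZ) (ρ : Fin n → B) =>
      (∀ i ≤ j, (nodes i (form ρ (hs A fun u v => (ξ u v).1)) : ℝ) ≤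
        2 * (n + 2) * (241 / 125) ^ n) ∧
        ((pts j (form ρ (hs A fun u v => (ξ u v).1))).card : ℝ) ≤ 2 * (n + 2) * (241 / 125) ^ n)
    (fun (ξ : Fin n → Fin n → NZ) (p : (Fin n → Fin 3 → F) × (Fin n → Fin n → F)) =>
      hc A (xw j (fun u v => (ξ u v).1) p.1 p.2) ≠ 0) T hT
    (fun ξ _ => by
      have := hc' n j (hs A fun u v => (ξ u v).1) hj hj'
      convert this
      simp)
    (fun ξ hξ => by
      obtain ⟨l, hl⟩ := (mem_filter.1 hξ).2
      have := hz n j F (cycs A) σ₀ (fun u v => (ξ u v).1) l hF (by convert hl)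
      unfold hc
      convert this)
  have h3 : Fintype.card (Fin n → Fin n → NZ) = 7 ^ (n * n) := by
    simp [← pow_mul]
  rw [Fintype.card_prod, Fintype.card_prod, h3]
  set W := Fintype.card (Fin n → B) *
    Fintype.card ((Fin n → Fin 3 → F) × (Fin n → Fin n → F))
  have h4 : (48 : ℝ) ^ j * 7 ^ (n * n) ≤ 49 ^ j * S.card := by exact_mod_cast h1'
  have h5 : (S.card : ℝ) * W ≤ 4 * T.card := by exact_mod_cast h2
  have h6 : (48 / 49 : ℝ) ^ j * 7 ^ (n * n) ≤ S.card := by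
    rw [div_pow, div_mul_eq_mul_div, div_le_iff₀ (by positivity)]; linarith
  have h7 := mul_le_mul_of_nonneg_right h6 (Nat.cast_nonneg (α := ℝ) W)
  push_cast
  linarith

end MainL

open MainL in
theorem main (hh : HashStmt) (hz : SzStmt) (hc' : CountStmt) (hs' : SeedStmt) (hy : CycStmt) :
    ∃ n₀ : ℕ, ∀ n : ℕ, n₀ ≤ n → ∃ s : ℕ,
      ((n * (n - 1) + s : ℕ) : ℝ) ≤ (1951 / 1000) ^ n ∧
      ∃ a b : Fin s → ({p : Fin n × Fin n // p.1 ≠ p.2} ⊕ Fin s), ∃ o : Fin s,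
        (∀ g j : Fin s, (a g = Sum.inr j → j < g) ∧ (b g = Sum.inr j → j < g)) ∧
        ∀ x : {p : Fin n × Fin n // p.1 ≠ p.2} → Bool, ∀ val : Fin s → Bool,
          (∀ g : Fin s, val g = !(Sum.elim x val (a g) && Sum.elim x val (b g))) →
          (val o = true ↔ ∃ f : Equiv.Perm (Fin n), ∀ i,
            ∃ h : f i ≠ f (finRotate n i), x ⟨(f i, f (finRotate n i)), h⟩ = true) := by
  classical
  obtain ⟨D1, h1⟩ := hs'
  set c1 : ℝ := 241 / 125 * 1.01186 with hc1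
  have hc1' : 1 ≤ c1 := by rw [hc1]; norm_num
  have hr : 1 < (1951 / 1000) / c1 := by rw [hc1]; norm_num
  set D := D1 + 7 with hD
  obtain ⟨n₀, hn₀⟩ := Filter.eventually_atTop.1
    ((isLittleO_pow_const_const_pow_of_one_lt (R := ℝ) D hr).bound
      (show (0 : ℝ) < 1 / (2 * 16 ^ D) by positivity))
  refine ⟨max n₀ 4, fun n hn => ?_⟩
  have hn4 : 4 ≤ n := le_of_max_le_right hn
  have hn' : (4 : ℝ) ≤ n := by exact_mod_cast hn4
  set E := {p : Fin n × Fin n // p.1 ≠ p.2}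
  set I : Set ((E → Bool) → Bool) := Set.range fun (e : E) (x : E → Bool) => x e with hI
  have hΩ : Fintype.card (E → Bool) ≤ 2 ^ (n * n) := by
    rw [Fintype.card_fun, Fintype.card_bool]
    exact Nat.pow_le_pow_right (by norm_num) ((Fintype.card_subtype_le _).trans (by simp))
  have g0 := Gen.iUnion (I := I) (P := ∅) (s := 1)
    (fun q : Fin n × Fin n => Bits fun x : E → Bool => arc x q.1 q.2) (fun q => by
      unfold arc
      by_cases h : q.1 ≠ q.2
      · simp only [dif_pos h]; exact TF.input ⟨_, rfl⟩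
      · simp only [dif_neg h]; exact TF.const _ _)
  have hA : ∀ u v, Bits (fun x : E → Bool => arc x u v) ⊆
      ∅ ∪ ⋃ q : Fin n × Fin n, Bits fun x : E → Bool => arc x q.1 q.2 := fun u v =>
    (Set.subset_iUnion (fun q : Fin n × Fin n => Bits fun x : E → Bool => arc x q.1 q.2)
      (u, v)).trans Set.subset_union_right
  obtain ⟨F, _, _, _, hF1, hF2⟩ := exists_field n (by omega)
  set j := (4 * n + 6) / 7 with hj
  set y : ℝ := 2 * (n + 2) * (241 / 125) ^ n with hy'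
  have hx1 : (1 : ℝ) ≤ (241 / 125) ^ n := one_le_pow₀ (by norm_num)
  have hy1 : 1 ≤ 4 * y := by rw [hy']; nlinarith
  obtain ⟨d0, hd1, hd2⟩ := exists_nat_pow_near hy1 (show (1 : ℝ) < 2 by norm_num)
  set d := d0 + 1 with hd
  have hd3 : (2 : ℝ) ^ d ≤ 8 * y := by rw [hd, pow_succ]; linarith
  have hd4 : d ≤ 3 * n := by
    have e1 : (241 / 125 : ℝ) ^ n ≤ 2 ^ n := pow_le_pow_left₀ (by norm_num) (by norm_num) n
    have e2 : (16 : ℝ) * (n + 2) ≤ 4 ^ n := by exact_mod_cast num2 n hn4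
    have e3 : (2 : ℝ) ^ d ≤ 2 ^ (3 * n) := by
      calc (2 : ℝ) ^ d ≤ 16 * (n + 2) * (241 / 125) ^ n := by rw [hy'] at hd3; linarith
        _ ≤ 4 ^ n * 2 ^ n := by gcongr
        _ = _ := by rw [← mul_pow, pow_mul]; norm_num
    exact (pow_le_pow_iff_right₀ (by norm_num)).1 e3
  set δ : ℝ := (48 / 49) ^ j / 4 with hδ
  have hδ0 : 0 < δ := by positivity
  have hδ1 : δ ≤ 1 := by
    have : (48 / 49 : ℝ) ^ j ≤ 1 := pow_le_one₀ (by norm_num) (by norm_num)
    rw [hδ]; linarith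
  set K := ⌈((n * n : ℕ) + 1 : ℝ) / δ⌉₊ with hK
  have : Nonempty NZ := Fintype.card_pos_iff.1 (by rw [card_NZ]; norm_num)
  obtain ⟨t, ht⟩ := hit_unif (G := E → Bool)
    (Ξ := (Fin n → Fin n → NZ) × (Fin n → B) × ((Fin n → Fin 3 → F) × (Fin n → Fin n → F)))
    (fun x p => ((∀ i ≤ j, (nodes i (form p.2.1 (hs (arc x) fun u v => (p.1 u v).1)) : ℝ) ≤ y) ∧
        ((pts j (form p.2.1 (hs (arc x) fun u v => (p.1 u v).1))).card : ℝ) ≤ y) ∧
      hc (arc x) (xw j (fun u v => (p.1 u v).1) p.2.2.1 p.2.2.2) ≠ 0) δ hδ1 K (n * n) hΩ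
    (by rw [← div_le_iff₀ hδ0]; exact Nat.le_ceil _)
  have h2 := fun i : ℕ => h1 (E → Bool) I _ (16 * n) n j d F arc (fun u v => ((t i).1 u v).1)
    (t i).2.1 (t i).2.2.1 (t i).2.2.2 (by omega) (by omega) (by omega) (by omega) hF2 (by omega) hA
  choose o ho1 ho2 using h2
  obtain ⟨s, hs1, ga, gb, out, k1, k2⟩ := net (E := E)
    ⟨(⟨0, by omega⟩, ⟨1, by omega⟩), by simp [Fin.ext_iff]⟩ _ _
    (TF.after g0 (TF.exists (range K) o (fun i _ => ho1 i) _ (fun ω => decide_eq_true_iff)))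
  refine ⟨s, ?_, ga, gb, out, k1, fun x val hval => ?_⟩
  · set N : ℝ := 16 * n with hN
    have hN1 : 1 ≤ N := by linarith
    have e1 : (K : ℝ) ≤ N ^ 2 * 1.01186 ^ n := by
      have e2 : (K : ℝ) ≤ ((n * n : ℕ) + 1 : ℝ) / δ + 1 := (Nat.ceil_lt_add_one (by positivity)).le
      have e3 : 1 / δ ≤ 8 * 1.01186 ^ n := by
        have := num1 n j (by omega)
        rw [hδ, one_div_div, div_pow, div_div_eq_mul_div, mul_div_assoc, ← div_pow]
        linarith
      have e4 : (1 : ℝ) ≤ 1.01186 ^ n := one_le_pow₀ (by norm_num)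
      rw [div_eq_mul_one_div] at e2
      push_cast at e2
      have e5 : ((n : ℝ) * n + 1) * (1 / δ) ≤ (n * n + 1) * (8 * 1.01186 ^ n) := by gcongr
      have e6 : ((n : ℝ) * n + 1) * 8 + 1 ≤ N ^ 2 := by rw [hN]; nlinarith
      nlinarith
    have e7 : (2 : ℝ) ^ d * N ^ D1 + 3 ≤ N ^ (D1 + 3) * (241 / 125) ^ n := by
      have e8 : (1 : ℝ) ≤ N ^ D1 := one_le_pow₀ hN1
      have e9 : (2 : ℝ) ^ d ≤ 16 * (n + 2) * (241 / 125) ^ n := by rw [hy'] at hd3; linarith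
      have e10 : 16 * ((n : ℝ) + 2) + 3 ≤ N ^ 3 := by
        rw [hN]; nlinarith [mul_nonneg (sub_nonneg.2 hn') (sub_nonneg.2 hn'), sq_nonneg (n : ℝ)]
      have e11 : (1 : ℝ) ≤ N ^ D1 * (241 / 125) ^ n := one_le_mul_of_one_le_of_one_le e8 hx1
      calc (2 : ℝ) ^ d * N ^ D1 + 3
          ≤ 16 * (n + 2) * (241 / 125) ^ n * N ^ D1 + 3 * (N ^ D1 * (241 / 125) ^ n) := by
            gcongr; linarith
        _ = (16 * (n + 2) + 3) * (N ^ D1 * (241 / 125) ^ n) := by ring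
        _ ≤ N ^ 3 * (N ^ D1 * (241 / 125) ^ n) := by gcongr
        _ = _ := by ring
    have e12 : (s : ℝ) ≤ n * n + (K * (2 ^ d * N ^ D1 + 3) + 1) + 5 := by
      simp only [Fintype.card_prod, Fintype.card_fin, mul_one, card_range] at hs1
      rw [hN]
      exact_mod_cast hs1
    have e13 : (K : ℝ) * (2 ^ d * N ^ D1 + 3) ≤ N ^ D * c1 ^ n := by
      calc (K : ℝ) * (2 ^ d * N ^ D1 + 3)
          ≤ N ^ 2 * 1.01186 ^ n * (N ^ (D1 + 3) * (241 / 125) ^ n) := by gcongr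
        _ = N ^ (D1 + 5) * c1 ^ n := by rw [hc1, mul_pow (241 / 125 : ℝ)]; ring
        _ ≤ _ := by gcongr; omega
    have e14 : ((n * (n - 1) : ℕ) : ℝ) + n * n + 6 ≤ N ^ D * c1 ^ n := by
      have e15 : ((n * (n - 1) : ℕ) : ℝ) ≤ n * n := by
        exact_mod_cast Nat.mul_le_mul_left n (Nat.sub_le n 1)
      have e16 : N ^ 2 ≤ N ^ D := pow_le_pow_right₀ hN1 (by omega)
      have e17 : N ^ D ≤ N ^ D * c1 ^ n :=
        le_mul_of_one_le_right (by positivity) (one_le_pow₀ hc1')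
      have e18 : (n : ℝ) * n + n * n + 6 ≤ N ^ 2 := by rw [hN]; nlinarith
      linarith
    have e19 := hn₀ n (le_of_max_le_left hn)
    rw [Real.norm_of_nonneg (by positivity), Real.norm_of_nonneg (by positivity)] at e19
    have e20 : 2 * (N ^ D * c1 ^ n) ≤ (1951 / 1000) ^ n := by
      rw [div_pow, one_div, inv_mul_eq_div, div_div, le_div_iff₀ (by positivity)] at e19
      calc 2 * (N ^ D * c1 ^ n) = n ^ D * (c1 ^ n * (2 * 16 ^ D)) := by rw [hN, mul_pow]; ring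
        _ ≤ _ := e19
    rw [Nat.cast_add]
    calc _ ≤ ((n * (n - 1) : ℕ) : ℝ) + (n * n + (K * (2 ^ d * N ^ D1 + 3) + 1) + 5) :=
          add_le_add le_rfl e12
      _ = (((n * (n - 1) : ℕ) : ℝ) + n * n + 6) + K * (2 ^ d * N ^ D1 + 3) := by ring
      _ ≤ N ^ D * c1 ^ n + N ^ D * c1 ^ n := add_le_add e14 e13
      _ ≤ _ := by rw [← two_mul]; exact e20
  · rw [k2 x val hval, decide_eq_true_iff]
    simp only [← arc_iff]
    rw [← hy n fun u v => arc x u v = true]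
    constructor
    · rintro ⟨i, -, h⟩
      obtain ⟨σ, hσ, -⟩ := exists_ne_zero_of_sum_ne_zero ((ho2 i x).1 h)
      exact ⟨σ, by simpa [cycs] using hσ⟩
    · intro h
      obtain ⟨i, hi, ⟨h3, h4⟩, h5⟩ := ht x (good_seeds hh hz hc' n j F (by omega) (by omega)
        (by omega) (arc x) h _ fun p hp hp' =>
          (@mem_filter _ _ (fun _ => Classical.propDecidable _) _ _).2 ⟨mem_univ _, hp, hp'⟩)
      have hy0 : 0 ≤ y := by linarith
      refine ⟨i, mem_range.2 hi, (ho2 i x).2 (fun k hk => ?_) ?_ h5⟩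
      · exact_mod_cast ((mul_le_mul_of_nonneg_left (h3 k hk) (by norm_num : (0 : ℝ) ≤ 4)).trans
          hd2.le)
      · exact_mod_cast (h4.trans (show y ≤ 2 ^ d by linarith))

end Pool.Agent.MP_6b3410_lc.D4
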