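import Pool.Agent.MP_6b3410_lc.D4.Spec2
import Pool.Agent.MP_6b3410_lc.D4.Main
import Pool.Agent.MP_6b3410_lc.U5.Main

/-!
Assembly of the two upper bounds of the second round.
-/

set_option autoImplicit false

namespace Pool.Agent.MP_6b3410_lc.D4

open Finset
open Pool.Agent.MP_6b3410_lc.H5 (Cyc DHam dham_of_isHamiltonian isHamiltonian_of_dham)
open Pool.Agent.MP_6b3410_lc.U5

namespace Main2L

lemma absorb (D : ℕ) {c C : ℝ} (hc : 1 ≤ c) (h : c < C) :
    ∃ n₀ : ℕ, ∀ n : ℕ, n₀ ≤ n → 4 * ((16 * (n : ℝ)) ^ D * c ^ n) ≤ C ^ n := by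
  have hc0 : 0 < c := by linarith
  have hr : 1 < C / c := by rw [lt_div_iff₀ hc0]; linarith
  obtain ⟨n₀, hn₀⟩ := Filter.eventually_atTop.1
    ((isLittleO_pow_const_const_pow_of_one_lt (R := ℝ) D hr).bound
      (show (0 : ℝ) < 1 / (4 * 16 ^ D) by positivity))
  refine ⟨n₀, fun n hn => ?_⟩
  have e := hn₀ n hn
  rw [Real.norm_of_nonneg (by positivity), Real.norm_of_nonneg (by positivity), div_pow, one_div,
    inv_mul_eq_div, div_div, le_div_iff₀ (by positivity)] at e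
  calc 4 * ((16 * (n : ℝ)) ^ D * c ^ n) = n ^ D * (c ^ n * (4 * 16 ^ D)) := by rw [mul_pow]; ring
    _ ≤ _ := e

lemma surv_many (hh : HashStmt) (n : ℕ) (H : Finset (Fin n)) (A : Fin n → Fin n → Bool)
    (hA : DHam fun u v => A u v = true) (S : Finset (Fin n → Fin n → NZ))
    (hS : ∀ ξ, Surv (cycs A) H (fun u v => (ξ u v).1) → ξ ∈ S) :
    (48 / 49 : ℝ) ^ H.card * Fintype.card (Fin n → Fin n → NZ) ≤ S.card := by
  classical
  obtain ⟨σ₀, hσ₀⟩ := hA
  set T' := (cycs A).filter fun σ => ∀ c : Fin n, c ∉ H → σ c = σ₀ c with hT'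
  have h1 := hh n H T' ⟨σ₀, by simp [hT', cycs, hσ₀]⟩
    (fun σ hσ => by
      have := (mem_filter.1 hσ).1
      simp only [cycs, mem_filter, mem_univ, true_and] at this
      exact this.inj)
    (fun σ hσ τ hτ c hc => by rw [(mem_filter.1 hσ).2 c hc, (mem_filter.1 hτ).2 c hc])
  have h2 : 48 ^ H.card * 7 ^ (n * n) ≤ 49 ^ H.card * S.card := by
    refine h1.trans (Nat.mul_le_mul_left _ (card_le_card fun ξ hξ => hS ξ ?_))
    simp only [mem_filter, mem_univ, true_and] at hξ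
    obtain ⟨l, hl⟩ := hξ
    exact ⟨σ₀, l, by convert hl⟩
  have h3 : Fintype.card (Fin n → Fin n → NZ) = 7 ^ (n * n) := by simp [← pow_mul]
  have h4 : (48 : ℝ) ^ H.card * 7 ^ (n * n) ≤ 49 ^ H.card * S.card := by exact_mod_cast h2
  rw [h3, div_pow, div_mul_eq_mul_div, div_le_iff₀ (by positivity)]
  push_cast
  linarith

lemma numA (n : ℕ) : (4 * (Real.sqrt 2 - 1)) ^ n ≤
    (16539 / 10000) ^ n * (1071 / 1000 : ℝ) ^ (7 * n / 250 + 1) := by
  have h2 : Real.sqrt 2 ≤ 1.41421375 := Real.sqrt_le_iff.2 (by norm_num)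
  have h1 : (1 : ℝ) ≤ Real.sqrt 2 := Real.le_sqrt_of_sq_le (by norm_num)
  refine le_of_pow_le_pow_left₀ (n := 250) (by norm_num) (by positivity) ?_
  calc ((4 * (Real.sqrt 2 - 1)) ^ n) ^ 250 = ((4 * (Real.sqrt 2 - 1)) ^ 250) ^ n := by
        rw [← pow_mul, ← pow_mul, mul_comm n]
    _ ≤ ((1.656855 : ℝ) ^ 250) ^ n := by gcongr; linarith
    _ ≤ ((16539 / 10000) ^ 250 * (1071 / 1000 : ℝ) ^ 7) ^ n := by gcongr; norm_num
    _ = ((16539 / 10000) ^ n) ^ 250 * (1071 / 1000 : ℝ) ^ (7 * n) := by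
        rw [mul_pow, ← pow_mul, ← pow_mul, ← pow_mul, mul_comm 250 n]
    _ ≤ ((16539 / 10000) ^ n) ^ 250 * (1071 / 1000 : ℝ) ^ ((7 * n / 250 + 1) * 250) := by
        exact mul_le_mul_of_nonneg_left (pow_le_pow_right₀ (by norm_num) (by omega)) (by positivity)
    _ = _ := by rw [mul_pow, pow_mul (1071 / 1000 : ℝ)]

end Main2L

open MainL Main2L in
theorem mainD (hh : HashStmt) (hC : CoverStmt) (hP : PartStmt) (hy : CycStmt) :
    ∃ n₀ : ℕ, ∀ n : ℕ, n₀ ≤ n → ∃ s : ℕ,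
      ((n * (n - 1) + s : ℕ) : ℝ) ≤ (1915 / 1000) ^ n ∧
      ∃ a b : Fin s → ({p : Fin n × Fin n // p.1 ≠ p.2} ⊕ Fin s), ∃ o : Fin s,
        (∀ g j : Fin s, (a g = Sum.inr j → j < g) ∧ (b g = Sum.inr j → j < g)) ∧
        ∀ x : {p : Fin n × Fin n // p.1 ≠ p.2} → Bool, ∀ val : Fin s → Bool,
          (∀ g : Fin s, val g = !(Sum.elim x val (a g) && Sum.elim x val (b g))) →
          (val o = true ↔ ∃ f : Equiv.Perm (Fin n), ∀ i,
            ∃ h : f i ≠ f (finRotate n i), x ⟨(f i, f (finRotate n i)), h⟩ = true) := by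
  classical
  obtain ⟨D1, h1⟩ := hP
  obtain ⟨b, K, t, hb, hK1, hcov, hK⟩ := hC 3 (1 / 10000) (by norm_num)
  have hK2 : K ≤ 2 ^ b := by
    have : (K : ℝ) ≤ 2 ^ b := hK.trans (pow_le_pow_left₀ (by norm_num) (by norm_num) b)
    exact_mod_cast this
  set c1 : ℝ := 19143 / 10000 with hc1
  have hc1' : 1 ≤ c1 := by rw [hc1]; norm_num
  obtain ⟨n₀, hn₀⟩ := absorb (D1 + 2) hc1' (show c1 < 1915 / 1000 by rw [hc1]; norm_num)
  refine ⟨max n₀ (max 4 (2 ^ ((3 + 1) * b))), fun n hn => ?_⟩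
  have hn4 : 4 ≤ n := le_of_max_le_left (le_of_max_le_right hn)
  have hnb : 2 ^ ((3 + 1) * b) ≤ n := le_of_max_le_right (le_of_max_le_right hn)
  have hn' : (4 : ℝ) ≤ n := by exact_mod_cast hn4
  set E := {p : Fin n × Fin n // p.1 ≠ p.2}
  set I : Set ((E → Bool) → Bool) := Set.range fun (e : E) (x : E → Bool) => x e with hI
  have hΩ : Fintype.card (E → Bool) ≤ 2 ^ (n * n) := by
    rw [Fintype.card_fun, Fintype.card_bool]
    exact Nat.pow_le_pow_right (by norm_num) ((Fintype.card_subtype_le _).trans (by simp))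
  have g0 := Gen.iUnion (I := I) (P := ∅) (s := 1)
    (fun q : Fin n × Fin n => Bits fun x : E → Bool => arc x q.1 q.2) (fun q => by
      unfold arc
      by_cases h : q.1 ≠ q.2
      · simp only [dif_pos h]; exact TF.input ⟨_, rfl⟩
      · simp only [dif_neg h]; exact TF.const _ _)
  have hA : ∀ u v, Bits (fun x : E → Bool => arc x u v) ⊆
      ∅ ∪ ⋃ q : Fin n × Fin n, Bits fun x : E → Bool => arc x q.1 q.2 := fun u v =>
    (Set.subset_iUnion (fun q : Fin n × Fin n => Bits fun x : E → Bool => arc x q.1 q.2)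
      (u, v)).trans Set.subset_union_right
  set m := n / b with hm
  have hmb : m * b ≤ n := Nat.div_mul_le_self n b
  have hmb' : n - m * b ≤ b := by
    have := Nat.div_add_mod n b
    have := Nat.mod_lt n hb
    rw [hm, mul_comm]; omega
  let e : Fin m × Fin b → Fin n := fun p => Fin.castLE hmb (finProdFinEquiv p)
  have he : Function.Injective e := (Fin.castLE_injective hmb).comp finProdFinEquiv.injective
  have hH : (univ.image e).card = m * b := by
    rw [card_image_of_injective _ he]; simp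
  have : Nonempty NZ := Fintype.card_pos_iff.1 (by rw [card_NZ]; norm_num)
  obtain ⟨s1, o, t1, b1, p1⟩ := h1 (E → Bool) I _ n m b 3 K t arc (Fin n → Fin n → NZ)
    (fun _ => e) (fun ξ u v => (ξ u v).1) ((48 / 49) ^ (m * b)) hb hnb hK1 hK2 hcov (fun _ => he)
    (by positivity) (pow_le_one₀ (by norm_num) (by norm_num)) hΩ hA
  obtain ⟨s, hs1, ga, gb, out, k1, k2⟩ := net (E := E)
    ⟨(⟨0, by omega⟩, ⟨1, by omega⟩), by simp [Fin.ext_iff]⟩ _ _ (TF.after g0 t1)
  refine ⟨s, ?_, ga, gb, out, k1, fun x val hval => ?_⟩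
  · set N : ℝ := 16 * n with hN
    have hN1 : 1 ≤ N := by linarith
    have e1 : (s1 : ℝ) ≤ N ^ (D1 + 2) * c1 ^ n := by
      have e2 : (K : ℝ) ^ m ≤ ((2 - 1 / 2 ^ 3) * (1 + 1 / 10000)) ^ (m * b) := by
        rw [mul_comm m, pow_mul]; gcongr
      have e3 : (2 : ℝ) ^ (n - m * b) ≤ N := by
        have e4 : 2 ^ (n - m * b) ≤ n :=
          (Nat.pow_le_pow_right (by norm_num) (by omega)).trans hnb
        have e5 : (2 : ℝ) ^ (n - m * b) ≤ n := by exact_mod_cast e4
        linarith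
      rw [← le_div_iff₀ (by positivity)] at b1
      calc (s1 : ℝ) ≤ N ^ D1 * (((2 - 1 / 2 ^ 3) * (1 + 1 / 10000)) ^ (m * b) * N) /
            (48 / 49) ^ (m * b) := b1.trans (by gcongr)
        _ = N ^ (D1 + 1) * ((2 - 1 / 2 ^ 3) * (1 + 1 / 10000) / (48 / 49)) ^ (m * b) := by
            rw [div_pow _ (48 / 49 : ℝ)]; ring
        _ ≤ N ^ (D1 + 2) * c1 ^ (m * b) := by
            gcongr
            · omega
            · rw [hc1]; norm_num
        _ ≤ _ := by gcongr
    have e12 : (s : ℝ) ≤ n * n + s1 + 5 := by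
      simp only [Fintype.card_prod, Fintype.card_fin, mul_one] at hs1
      exact_mod_cast hs1
    have e14 : ((n * (n - 1) : ℕ) : ℝ) + n * n + 5 ≤ N ^ (D1 + 2) * c1 ^ n := by
      have e15 : ((n * (n - 1) : ℕ) : ℝ) ≤ n * n := by
        exact_mod_cast Nat.mul_le_mul_left n (Nat.sub_le n 1)
      have e16 : N ^ 2 ≤ N ^ (D1 + 2) := pow_le_pow_right₀ hN1 (by omega)
      have e17 : N ^ (D1 + 2) ≤ N ^ (D1 + 2) * c1 ^ n :=
        le_mul_of_one_le_right (by positivity) (one_le_pow₀ hc1')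
      have e18 : (n : ℝ) * n + n * n + 5 ≤ N ^ 2 := by rw [hN]; nlinarith
      linarith
    have e20 := hn₀ n (le_of_max_le_left hn)
    rw [← hN] at e20
    have e21 : 0 ≤ N ^ (D1 + 2) * c1 ^ n := by positivity
    rw [Nat.cast_add]
    generalize N ^ (D1 + 2) * c1 ^ n = X at *
    generalize ((n * (n - 1) : ℕ) : ℝ) = Y at *
    linarith
  · rw [k2 x val hval]
    simp only [← arc_iff]
    rw [← hy n fun u v => arc x u v = true]
    refine ⟨(p1 x).1, fun h => (p1 x).2 ?_⟩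
    rw [← hH]
    exact surv_many hh n _ (arc x) h _ fun ξ hξ =>
      (@mem_filter _ _ (fun _ => Classical.propDecidable _) _ _).2 ⟨mem_univ _, hξ⟩

open Main2L in
theorem mainU (hp1 : Part1Stmt) (hp2 : Part2Stmt) :
    ∃ n₀ : ℕ, ∀ n : ℕ, n₀ ≤ n → ∃ s : ℕ,
      ((n.choose 2 + s : ℕ) : ℝ) ≤ (1654 / 1000) ^ n ∧
      ∃ a b : Fin s → ({p : Fin n × Fin n // p.1 < p.2} ⊕ Fin s), ∃ o : Fin s,
        (∀ g j : Fin s, (a g = Sum.inr j → j < g) ∧ (b g = Sum.inr j → j < g)) ∧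
        ∀ x : {p : Fin n × Fin n // p.1 < p.2} → Bool, ∀ val : Fin s → Bool,
          (∀ g : Fin s, val g = !(Sum.elim x val (a g) && Sum.elim x val (b g))) →
          (val o = true ↔
            (SimpleGraph.fromRel
              (fun i j : Fin n => ∃ h : i < j, x ⟨(i, j), h⟩ = true)).IsHamiltonian) := by
  classical
  obtain ⟨D1, h1⟩ := hp1
  obtain ⟨D2, n₁, h2⟩ := hp2
  set c1 : ℝ := 16539 / 10000 with hc1
  have hc1' : 1 ≤ c1 := by rw [hc1]; norm_num
  set D := D1 + D2 + 2 with hD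
  obtain ⟨n₀, hn₀⟩ := absorb D hc1' (show c1 < 1654 / 1000 by rw [hc1]; norm_num)
  refine ⟨max n₀ (max 3 n₁), fun n hn => ?_⟩
  have hn3 : 3 ≤ n := le_of_max_le_left (le_of_max_le_right hn)
  have hn1 : n₁ ≤ n := le_of_max_le_right (le_of_max_le_right hn)
  set E := {p : Fin n × Fin n // p.1 < p.2}
  set I : Set ((E → Bool) → Bool) := Set.range fun (e : E) (x : E → Bool) => x e with hI
  let a : Fin n := ⟨0, by omega⟩
  have hΩ : Fintype.card (E → Bool) ≤ 2 ^ (n * n) := by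
    rw [Fintype.card_fun, Fintype.card_bool]
    exact Nat.pow_le_pow_right (by norm_num) ((Fintype.card_subtype_le _).trans (by simp))
  have g0 := Gen.iUnion (I := I) (P := ∅) (s := 1)
    (fun q : Fin n × Fin n => Bits fun x : E → Bool => adj x q.1 q.2) (fun q => by
      unfold adj
      by_cases h : q.1 < q.2
      · simp only [dif_pos h]; exact TF.input ⟨_, rfl⟩
      · by_cases h' : q.2 < q.1
        · simp only [dif_neg h, dif_pos h']; exact TF.input ⟨_, rfl⟩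
        · simp only [dif_neg h, dif_neg h']; exact TF.const _ _)
  have hA : ∀ u v, Bits (fun x : E → Bool => adj x u v) ⊆
      ∅ ∪ ⋃ q : Fin n × Fin n, Bits fun x : E → Bool => adj x q.1 q.2 := fun u v =>
    (Set.subset_iUnion (fun q : Fin n × Fin n => Bits fun x : E → Bool => adj x q.1 q.2)
      (u, v)).trans Set.subset_union_right
  obtain ⟨s1, o1, t1, b1, p1⟩ := h1 (E → Bool) I _ n (7 * n / 250 + 1) adj a (by omega) (by omega)
    hΩ (fun x u v => by rw [Bool.eq_iff_iff, adj_iff, adj_iff, SimpleGraph.adj_comm])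
    (fun x u => by simp [adj]) hA
  obtain ⟨s2, o2, t2, b2, p2⟩ := h2 (E → Bool) I _ n adj a hn1 hΩ hA
  obtain ⟨s, hs', ga, gb, out, k1, k2⟩ := net (E := E) ⟨(a, ⟨1, by omega⟩), by simp [a, Fin.lt_def]⟩
    _ _ (TF.after g0 (TF.op2 (fun x y : Bool => x || y) t1 t2))
  refine ⟨s, ?_, ga, gb, out, k1, fun x val hval => ?_⟩
  · have hn' : (3 : ℝ) ≤ n := by exact_mod_cast hn3
    set N : ℝ := 16 * n with hN
    have hN1 : 1 ≤ N := by linarith
    have hcn : 1 ≤ c1 ^ n := one_le_pow₀ hc1'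
    have e1 : (s1 : ℝ) ≤ N ^ D * c1 ^ n := by
      have e2 : (s1 : ℝ) * (1071 / 1000) ^ (7 * n / 250 + 1) ≤
          N ^ D1 * c1 ^ n * (1071 / 1000) ^ (7 * n / 250 + 1) := by
        rw [mul_assoc]
        exact b1.trans (mul_le_mul_of_nonneg_left (numA n) (by positivity))
      exact (le_of_mul_le_mul_right e2 (by positivity)).trans (by gcongr; omega)
    have e3 : (s2 : ℝ) ≤ N ^ D * c1 ^ n := b2.trans (by gcongr; omega)
    have e5 : ((n.choose 2 : ℕ) : ℝ) + n * n + 25 ≤ N ^ D * c1 ^ n := by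
      have e6 : ((n.choose 2 : ℕ) : ℝ) ≤ n * n := by
        have := Nat.choose_le_pow n 2
        rw [sq] at this
        exact_mod_cast this
      have e7 : N ^ 2 ≤ N ^ D := pow_le_pow_right₀ hN1 (by omega)
      have e8 : N ^ D ≤ N ^ D * c1 ^ n := le_mul_of_one_le_right (by positivity) hcn
      have e9 : (n : ℝ) * n + n * n + 25 ≤ N ^ 2 := by rw [hN]; nlinarith
      linarith
    have e10 : (s : ℝ) ≤ n * n + (s1 + s2 + 20) + 5 := by
      simp only [Fintype.card_prod, Fintype.card_fin, Fintype.card_bool, mul_one] at hs'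
      exact_mod_cast hs'
    have e12 := hn₀ n (le_of_max_le_left hn)
    rw [← hN] at e12
    have e21 : 0 ≤ N ^ D * c1 ^ n := by positivity
    rw [Nat.cast_add]
    generalize N ^ D * c1 ^ n = X at *
    linarith
  · have hG : (fun u v => adj x u v = true) = (SimpleGraph.fromRel
        fun i j : Fin n => ∃ h : i < j, x ⟨(i, j), h⟩ = true).Adj := by
      funext u v; exact propext (adj_iff x u v)
    rw [k2 x val hval, Bool.or_eq_true]
    constructor
    · intro h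
      refine isHamiltonian_of_dham (by simpa using hn3) (hG ▸ ?_)
      exact h.elim (p1 x).1 (p2 x).1
    · intro h
      obtain ⟨σ, hσ⟩ := dham_of_isHamiltonian (by simpa using hn3) h
      rw [← hG] at hσ
      obtain ⟨b, hb⟩ := Finite.injective_iff_surjective.1 hσ.inj a
      have hne : (fam (adj x) a b).Nonempty := ⟨σ, mem_fam.2 ⟨hσ, hb⟩⟩
      by_cases hS : Rich (7 * n / 250 + 1) (fam (adj x) a b)
      · exact Or.inl ((p1 x).2 b hne hS)
      · exact Or.inr ((p2 x).2 b hne hS)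

end Pool.Agent.MP_6b3410_lc.D4
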