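import Pool.Agent.MP_6b3410_lc.D4.Spec2
import Pool.Agent.MP_6b3410_lc.U5.P1

/-!
Hitting lists of seeds.
-/

set_option autoImplicit false

namespace Pool.Agent.MP_6b3410_lc.D4

open Finset
open Pool.Agent.MP_6b3410_lc.H5 (Cyc DHam)
open Pool.Agent.MP_6b3410_lc.U5

namespace PartL

lemma prod_count {X Y Z : Type} [Fintype X] [Fintype Y] [Fintype Z] (S : Finset X)
    (a : X → Y → Prop) (b : X → Z → Prop) [∀ x, DecidablePred (a x)] [∀ x, DecidablePred (b x)]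
    (T : Finset (X × Y × Z)) (hT : ∀ p, a p.1 p.2.1 → b p.1 p.2.2 → p ∈ T)
    (ha : ∀ x ∈ S, Fintype.card Y ≤ 2 * (univ.filter (a x)).card)
    (hb : ∀ x ∈ S, Fintype.card Z ≤ 2 * (univ.filter (b x)).card) :
    S.card * (Fintype.card Y * Fintype.card Z) ≤ 4 * T.card := by
  classical
  have h1 : (S.sigma fun x => (univ.filter (a x)) ×ˢ (univ.filter (b x))).card ≤ T.card := by
    refine card_le_card_of_injOn (fun p => (p.1, p.2)) ?_ ?_
    · intro p hp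
      simp only [coe_sigma, Set.mem_sigma_iff, mem_coe, mem_product, mem_filter, mem_univ,
        true_and] at hp
      exact hT _ hp.2.1 hp.2.2
    · rintro ⟨x, p⟩ - ⟨y, q⟩ - h
      simp only [Prod.mk.injEq] at h
      obtain ⟨rfl, rfl⟩ := h
      rfl
  rw [card_sigma] at h1
  refine le_trans ?_ (Nat.mul_le_mul_left 4 h1)
  rw [mul_sum, ← smul_eq_mul, ← sum_const]
  refine sum_le_sum fun x hx => ?_
  rw [card_product]
  have := Nat.mul_le_mul (ha x hx) (hb x hx)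
  linarith

lemma size {n δ R Z X : ℝ} (hn : 2 ≤ n) (h0 : 0 < δ) (h1 : δ ≤ 1) (hR0 : 0 ≤ R)
    (hR : R ≤ (n * n + 1) / (δ / 4) + 1) (hZ : 1 ≤ Z) (hX : X ≤ 4 * n * Z) :
    (R * (X + 3) + 1) * δ ≤ (16 * n) ^ 3 * Z := by
  have e1 : R * δ ≤ 4 * (n * n) + 5 := by
    have := mul_le_mul_of_nonneg_right hR h0.le
    rw [add_mul, show (n * n + 1) / (δ / 4) * δ = 4 * (n * n + 1) by field_simp] at this
    linarith
  have e2 : R * δ * (X + 3) ≤ (4 * (n * n) + 5) * ((4 * n + 3) * Z) :=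
    (mul_le_mul_of_nonneg_left (by linarith) (by positivity)).trans
      (mul_le_mul_of_nonneg_right e1 (by positivity))
  have e3 : (4 * (n * n) + 5) * (4 * n + 3) + 1 ≤ (16 * n) ^ 3 := by
    nlinarith [mul_nonneg (sub_nonneg.2 hn) (sq_nonneg n), mul_nonneg (sub_nonneg.2 hn) (sub_nonneg.2 hn)]
  nlinarith [mul_le_mul_of_nonneg_right e3 (by linarith : 0 ≤ Z)]

end PartL

open PartL in
theorem part (hC : Count2Stmt) (hZ : Sz2Stmt) (hS : Seed2Stmt) : PartStmt := by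
  classical
  obtain ⟨D1, h1⟩ := hS
  refine ⟨D1 + 3, fun Ω _ I P n m b k K t A S _ _ e ξ δ hb hn hK hK' hcov he h0 hδ hΩ hA => ?_⟩
  have hbn : 2 ^ b ≤ n :=
    (Nat.pow_le_pow_right (by norm_num) (Nat.le_mul_of_pos_left b k.succ_pos)).trans hn
  have hb2 : 2 ^ 1 ≤ 2 ^ b := Nat.pow_le_pow_right (by norm_num) hb
  have hmb : m * b ≤ n := by
    simpa using Fintype.card_le_of_injective _ (he (Classical.arbitrary S))
  obtain ⟨F, _, _, _, hF1, hF2⟩ := exists_field n (by omega)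
  set Y := K ^ m * 2 ^ (n - m * b) with hY
  have hY0 : K ^ m ≤ Y := Nat.le_mul_of_pos_right _ (by positivity)
  have hY1 : 1 ≤ Y := (Nat.one_le_pow _ _ hK).trans hY0
  have hY2 : Y ≤ 2 ^ n := by
    refine (Nat.mul_le_mul_right _ (Nat.pow_le_pow_left hK' m)).trans_eq ?_
    rw [← pow_mul, ← pow_add, mul_comm b, Nat.add_sub_cancel' hmb]
  set d := Nat.log 2 (2 * (2 ^ b * Y)) + 1 with hd
  have hd1 : 2 * (2 ^ b * Y) < 2 ^ d := Nat.lt_pow_succ_log_self (by norm_num) _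
  have hd2 : 2 ^ d ≤ 4 * n * Y := by
    have := Nat.pow_log_le_self 2 (show 2 * (2 ^ b * Y) ≠ 0 by positivity)
    have := Nat.mul_le_mul_right Y hbn
    rw [hd, pow_succ, mul_assoc]
    omega
  have hd3 : d ≤ 3 * n := by
    refine (Nat.pow_le_pow_iff_right (show 1 < 2 by norm_num)).1 (hd2.trans ?_)
    have h4 : 2 ^ 2 ≤ 2 ^ n := Nat.pow_le_pow_right (by norm_num) (by omega)
    exact (Nat.mul_le_mul (Nat.mul_le_mul h4 Nat.lt_two_pow_self.le) hY2).trans_eq (by ring)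
  obtain ⟨τ, hτ⟩ := hit_unif (G := Ω)
    (Ξ := S × (Fin n → BK k) × ((Fin n → Fin k → F) × (Fin n → Fin n → F)))
    (fun ω p => pairs K t (form2 (e p.1) p.2.1 (hs2 (A ω) (ξ p.1))) ≤ 2 * K ^ m * 2 ^ (n - m * b) ∧
      hc (A ω) (xw2 (univ.image (e p.1)) (ξ p.1) p.2.2.1 p.2.2.2) ≠ 0) (δ / 4) (by linarith)
    ⌈((n * n : ℕ) + 1 : ℝ) / (δ / 4)⌉₊ (n * n) hΩ
    (by rw [← div_le_iff₀ (by positivity)]; exact Nat.le_ceil _)
  choose o ho1 ho2 using fun i : ℕ => h1 Ω I P (16 * n) n m b k K d F t (e (τ i).1) A (ξ (τ i).1)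
    (τ i).2.1 (τ i).2.2.1 (τ i).2.2.2 (by omega) (by omega) hb (by omega) (by omega) hF2
    (by omega) hK hK' hcov (he _) hA
  refine ⟨_, _, TF.exists (range ⌈((n * n : ℕ) + 1 : ℝ) / (δ / 4)⌉₊) o (fun i _ => ho1 i) _
    (fun ω => decide_eq_true_iff), ?_, fun ω => ⟨fun h => ?_, fun h => ?_⟩⟩
  · have hn2 : (2 : ℝ) ≤ n := by exact_mod_cast (by omega : 2 ≤ n)
    have e1 : (2 : ℝ) ^ d ≤ 4 * n * Y := by exact_mod_cast hd2
    have e2 : (1 : ℝ) ≤ (16 * n) ^ D1 := one_le_pow₀ (by linarith)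
    have e3 : (1 : ℝ) ≤ Y := by exact_mod_cast hY1
    have := size (R := ⌈((n * n : ℕ) + 1 : ℝ) / (δ / 4)⌉₊) (Z := (16 * n) ^ D1 * Y)
      (X := 2 ^ d * (16 * n) ^ D1) hn2 h0 hδ (Nat.cast_nonneg _)
      (by exact_mod_cast (Nat.ceil_lt_add_one (by positivity)).le)
      (one_le_mul_of_one_le_of_one_le e2 e3) (by nlinarith)
    rw [card_range]
    rw [hY] at this
    push_cast at this ⊢
    exact this.trans_eq (by ring)
  · obtain ⟨i, -, h⟩ := decide_eq_true_iff.1 h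
    obtain ⟨σ, hσ, -⟩ := exists_ne_zero_of_sum_ne_zero ((ho2 i ω).1 h)
    exact ⟨σ, by simpa [cycs] using hσ⟩
  · obtain ⟨i, hi, h3, h4⟩ := hτ ω (by
      have h2 := prod_count (univ.filter fun p : S => Surv (cycs (A ω)) (univ.image (e p)) (ξ p))
        (fun p ρ => pairs K t (form2 (e p) ρ (hs2 (A ω) (ξ p))) ≤ 2 * K ^ m * 2 ^ (n - m * b))
        (fun p (q : (Fin n → Fin k → F) × (Fin n → Fin n → F)) =>
          hc (A ω) (xw2 (univ.image (e p)) (ξ p) q.1 q.2) ≠ 0) _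
        (fun p hp hp' => (@mem_filter _ _ (fun _ => Classical.propDecidable _) _ _).2
          ⟨mem_univ _, And.intro hp hp'⟩)
        (fun p _ => hC n m b k K (e p) t _ (he p))
        fun p hp => hZ n k F _ _ _ (by omega) (mem_filter.1 hp).2
      rw [Fintype.card_prod, Fintype.card_prod]
      have h5 := (Nat.cast_le (α := ℝ)).2 h2
      have h6 := mul_le_mul_of_nonneg_right h (Nat.cast_nonneg (Fintype.card (Fin n → BK k) *
        Fintype.card ((Fin n → Fin k → F) × (Fin n → Fin n → F))))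
      push_cast at h5 h6 ⊢
      linarith)
    have := Nat.mul_le_mul_left (2 ^ b) hY0
    have := Nat.mul_le_mul_right Y hb2
    rw [mul_assoc, ← hY] at h3
    exact decide_eq_true_iff.2 ⟨i, mem_range.2 hi, (ho2 i ω).2 (by omega) (by omega) h4⟩

end Pool.Agent.MP_6b3410_lc.D4
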