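import Pool.Agent.MP_6b3410_lc.D4.Spec2
import Pool.Agent.MP_6b3410_lc.U5.P1

/-!
The rich case: random colourings and the walk sieve.
-/

set_option autoImplicit false

namespace Pool.Agent.MP_6b3410_lc.D4

open Finset
open Pool.Agent.MP_6b3410_lc.H5 (Cyc DHam)
open Pool.Agent.MP_6b3410_lc.U5 (Gen TF PF Bits fam orb kc)

namespace Part1L

lemma fam_eq {n : ℕ} {A : Fin n → Fin n → Bool} {a b : Fin n} {σ τ : Fin n → Fin n}
    (hσ : σ ∈ fam A a b) (hτ : τ ∈ fam A a b) (h3 : ∀ t < n, orb a σ t = orb a τ t) : σ = τ := by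
  have h1 := U5.fam_path hσ
  funext v
  obtain ⟨t, ht, rfl⟩ := (U5.cyc_orb (U5.mem_fam.1 hσ).1 a).2.2 v
  by_cases h4 : t + 1 < n
  · rw [← U5.orb_succ a σ, h3 _ h4, U5.orb_succ, h3 t ht]
  · obtain rfl : t = n - 1 := by omega
    rw [h1.2.2.1, (U5.mem_fam.1 hσ).2, (U5.mem_fam.1 hτ).2]

open U5.Cap in
open Classical in
lemma cap (hT : TreeStmt) (n : ℕ) (A : Fin n → Fin n → Bool) (a b : Fin n) (L : ℕ) (hn : 2 ≤ n)
    (hne : (fam A a b).Nonempty) (hrich : Rich L (fam A a b)) :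
    ∃ m ≤ n, (2 : ℝ) ^ m * (1071 / 1000) ^ L * 2 ^ n ≤
      2 * (n + 1) * (4 * (Real.sqrt 2 - 1)) ^ n *
        ((univ.filter fun W : Fin n → Bool => ∃ i ∈ fam A a b, kc n W (orb a i) = m).card : ℝ) := by
  obtain ⟨k, rfl⟩ : ∃ k, n = k + 1 := ⟨n - 1, by omega⟩
  have hr : √2 * √2 = (2 : ℝ) := Real.mul_self_sqrt (by norm_num)
  have r1 : (1414 / 1000 : ℝ) ≤ √2 := Real.le_sqrt_of_sq_le (by norm_num)
  have r2 : √2 ≤ (14143 / 10000 : ℝ) := Real.sqrt_le_iff.2 (by norm_num)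
  generalize √2 = r at hr r1 r2 ⊢
  obtain ⟨β, hβ⟩ : ∃ β : ℝ, β = 3 - 2 * r := ⟨_, rfl⟩
  have b0 : 1714 / 10000 ≤ β := by linarith
  have b1 : β ≤ 172 / 1000 := by linarith
  have hb : 1 + β = r * (1 - β) := by rw [hβ]; linear_combination (-2) * hr
  have h1 : 0 ≤ 1 - β := by linarith
  have key := hT k L (fam A a b) a β
    (fun W => ∑ m ∈ range (k + 2),
      if ∃ i ∈ fam A a b, kc (k + 1) W (orb a i) = m then (1 - β) ^ k / 2 ^ m else 0) b0 b1 hne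
    (fun σ hσ => (U5.fam_path hσ).1) (fun σ hσ τ hτ h => fam_eq hσ hτ h) hrich
    (fun i hi W => ?_)
  swap
  · have a1 : kc (k + 1) W (orb a i) ∈ range (k + 2) := by
      have := kc_le W (orb a i) k
      rw [mem_range]; split_ifs at this <;> omega
    refine le_trans ?_ (single_le_sum (fun m _ => by split_ifs <;> positivity) a1)
    rw [if_pos ⟨i, hi, rfl⟩, mu, div_le_div_iff₀ (by positivity) (by positivity)]
    refine (prod_le W (orb a i) hr (by linarith) hb (by linarith) k).trans ?_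
    rw [pow_succ, ← mul_assoc ((1 - β) ^ k)]
    refine mul_le_mul_of_nonneg_left ?_ (by positivity)
    split_ifs <;> linarith
  rw [sum_comm] at key
  simp only [← sum_filter, sum_const, nsmul_eq_mul] at key
  obtain ⟨m, hm, h⟩ := exists_le_of_sum_le (s := range (k + 2)) (by simp)
    (f := fun _ => (1071 / 1000 : ℝ) ^ L / (k + 2)) (le_of_eq_of_le (by
      rw [sum_const, card_range, nsmul_eq_mul]; push_cast; field_simp) key)
  refine ⟨m, Nat.lt_succ_iff.1 (mem_range.1 hm), ?_⟩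
  rw [show 4 * (r - 1) = (1 - β) * 2 by rw [hβ]; ring, mul_pow, pow_succ (1 - β)]
  generalize ((univ.filter fun W : Fin (k + 1) → Bool =>
    ∃ i ∈ fam A a b, kc (k + 1) W (orb a i) = m).card : ℝ) = c at h ⊢
  rw [← mul_div_assoc, div_le_div_iff₀ (by positivity) (by positivity)] at h
  have h2 := mul_le_mul_of_nonneg_right h (show (0 : ℝ) ≤ 2 ^ (k + 1) by positivity)
  have h3 : 0 ≤ c * (1 - β) ^ k * (k + 2) * 2 ^ (k + 1) := le_trans (by positivity) h2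
  push_cast
  nlinarith

end Part1L

theorem part1 (h1 : U5.DPStmt) (h2 : U5.SoundStmt) (h3 : U5.ComplStmt) (hT : TreeStmt) :
    Part1Stmt := by
  have h2' := h2
  have h3' := h3
  clear h2 h3
  classical
  obtain ⟨D, hD⟩ := U5.part1_m h1 h2' h3'
  refine ⟨D + 6, fun Ω _ I P n L A a h2 hL hΩ hsym hirr hA => ?_⟩
  set γ : ℝ := 4 * (Real.sqrt 2 - 1) with hγ
  have hγ1 : 1071 / 1000 ≤ γ := by
    have : (1.4 : ℝ) ≤ Real.sqrt 2 := Real.le_sqrt_of_sq_le (by norm_num)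
    rw [hγ]; linarith
  have hγ0 : 0 < γ := by linarith
  set Λ : ℝ := (1071 / 1000) ^ L / (2 * (n + 1) * γ ^ n) with hΛ
  have hΛ0 : 0 < Λ := by positivity
  set X := ⌈((n * n + n : ℕ) + 2 : ℝ) / Λ⌉₊ with hX
  have g1 := fun m : Fin (n + 1) => hD Ω I P n m X Λ A a h2 (by omega) hΩ hsym hirr hA hΛ0
    (Nat.le_ceil _)
  choose o ho1 ho2 using g1
  refine ⟨_, _, TF.exists univ o (fun m _ => ho1 m) _ (fun ω => decide_eq_true_iff), ?_,
    fun ω => ⟨fun h => ?_, fun b hb hr => ?_⟩⟩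
  · have hn : (2 : ℝ) ≤ n := by exact_mod_cast h2
    set N : ℝ := 16 * n with hN
    have hN1 : 1 ≤ N := by linarith
    have e1 : (X : ℝ) ≤ ((n * n + n : ℕ) + 2 : ℝ) / Λ + 1 :=
      (Nat.ceil_lt_add_one (by positivity)).le
    have e2 : (1071 / 1000 : ℝ) ^ L ≤ γ ^ n :=
      (pow_le_pow_right₀ (by norm_num) hL).trans (pow_le_pow_left₀ (by norm_num) hγ1 n)
    have hγn : 0 < γ ^ n := by positivity
    have e3 : (X : ℝ) * (1071 / 1000) ^ L ≤ N ^ 3 * γ ^ n := by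
      have e4 : ((n * n + n : ℕ) + 2 : ℝ) / Λ * (1071 / 1000) ^ L =
          ((n * n + n + 2) * (2 * (n + 1))) * γ ^ n := by
        rw [hΛ]; push_cast; field_simp
      have e5 : ((n : ℝ) * n + n + 2) * (2 * (n + 1)) + 1 ≤ N ^ 3 := by
        rw [hN]; nlinarith [mul_nonneg (mul_nonneg (by linarith : (0 : ℝ) ≤ n)
          (by linarith : (0 : ℝ) ≤ n)) (by linarith : (0 : ℝ) ≤ n - 2)]
      calc (X : ℝ) * (1071 / 1000) ^ L
          ≤ (((n * n + n : ℕ) + 2 : ℝ) / Λ + 1) * (1071 / 1000) ^ L := by gcongr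
        _ ≤ ((n * n + n + 2) * (2 * (n + 1))) * γ ^ n + γ ^ n := by
          rw [add_mul, e4, one_mul]; gcongr
        _ = (((n : ℝ) * n + n + 2) * (2 * (n + 1)) + 1) * γ ^ n := by ring
        _ ≤ _ := by gcongr
    have e6 : (1 : ℝ) ≤ X := by
      have : 0 < X := Nat.ceil_pos.2 (by positivity)
      exact_mod_cast this
    have e7 : 1 ≤ (X : ℝ) * N ^ D := one_le_mul_of_one_le_of_one_le e6 (one_le_pow₀ hN1)
    have e8 : ((n : ℝ) + 1) * (X * N ^ D + 3) + 1 ≤ N * (X * N ^ D) := by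
      rw [hN] at *; nlinarith
    simp only [card_univ, Fintype.card_fin]
    push_cast
    calc (((n : ℝ) + 1) * (X * N ^ D + 3) + 1) * (1071 / 1000) ^ L
        ≤ N * (X * N ^ D) * (1071 / 1000) ^ L := by gcongr
      _ = N ^ (D + 1) * (X * (1071 / 1000) ^ L) := by ring
      _ ≤ N ^ (D + 1) * (N ^ 3 * γ ^ n) := by gcongr
      _ = N ^ (D + 4) * γ ^ n := by ring
      _ ≤ N ^ (D + 6) * γ ^ n := by gcongr; omega
  · obtain ⟨m, -, hm⟩ := of_decide_eq_true h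
    exact (ho2 m ω).1 hm
  · obtain ⟨m, hm, h⟩ := Part1L.cap hT n (A ω) a b L h2 hb hr
    refine decide_eq_true ⟨⟨m, by omega⟩, mem_univ _, (ho2 ⟨m, by omega⟩ ω).2 b ?_⟩
    have h3 : (0 : ℝ) < 2 * (n + 1) * γ ^ n := by positivity
    rw [hΛ, show (2 : ℝ) ^ m * ((1071 / 1000) ^ L / (2 * (n + 1) * γ ^ n)) * 2 ^ n =
      2 ^ m * (1071 / 1000) ^ L * 2 ^ n / (2 * (n + 1) * γ ^ n) by ring, div_le_iff₀' h3]
    convert h

end Pool.Agent.MP_6b3410_lc.D4
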