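import Pool.Agent.MP_6b3410_lc.D4.Spec2

/-!
The rigid case.
-/

set_option autoImplicit false

namespace Pool.Agent.MP_6b3410_lc.D4

open Finset
open Pool.Agent.MP_6b3410_lc.H5 (Cyc DHam)
open Pool.Agent.MP_6b3410_lc.U5

namespace Part2L

/-- only the arc to `a` leaves `b` -/
def cut {n : ℕ} (A : Fin n → Fin n → Bool) (a b u v : Fin n) : Bool :=
  A u v && (decide (u ≠ b) || decide (v = a))

lemma cycs_cut {n : ℕ} (A : Fin n → Fin n → Bool) (a b : Fin n) :
    cycs (cut A a b) = fam A a b := by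
  ext σ
  simp only [cycs, mem_fam, mem_filter, mem_univ, true_and]
  constructor
  · intro h
    refine ⟨⟨h.inj, fun v => ?_, h.clo⟩, ?_⟩
    · exact (Bool.and_eq_true_iff.1 (h.arc v)).1
    · simpa [cut] using (Bool.and_eq_true_iff.1 (h.arc b)).2
  · rintro ⟨h, hb⟩
    refine ⟨h.inj, fun v => ?_, h.clo⟩
    by_cases hv : v = b
    · subst hv; simpa [cut, hb] using h.arc v
    · simp [cut, h.arc v, hv]

lemma inj_ex {n m b : ℕ} (H : Finset (Fin n)) (h : H.card = m * b) :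
    ∃ e : Fin m × Fin b → Fin n, Function.Injective e ∧ univ.image e = H := by
  refine ⟨fun p => (equivFinOfCardEq h).symm (finProdFinEquiv p), Subtype.val_injective.comp
    ((equivFinOfCardEq h).symm.injective.comp finProdFinEquiv.injective), ?_⟩
  ext v
  simp only [mem_image, mem_univ, true_and]
  constructor
  · rintro ⟨p, rfl⟩; exact coe_mem _
  · intro hv
    exact ⟨finProdFinEquiv.symm (equivFinOfCardEq h ⟨v, hv⟩), by
      rw [Equiv.apply_symm_apply, Equiv.symm_apply_apply]⟩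

lemma surv {n : ℕ} {T : Finset (Fin n → Fin n)} {σ : Fin n → Fin n} (hσ : σ ∈ T)
    {S H : Finset (Fin n)} (h : ∀ τ ∈ T, τ ≠ σ → ∃ c ∈ S, τ c ≠ σ c) (hd : Disjoint H S) :
    Surv T H (fun _ _ => (1 : BK 1)) := by
  refine ⟨σ, fun _ => 1, ?_⟩
  have : T.filter (fun τ => ∀ c, c ∉ H → τ c = σ c) = {σ} := by
    ext τ
    simp only [mem_filter, mem_singleton]
    refine ⟨fun ⟨h1, h2⟩ => by_contra fun h3 => ?_, fun e => by
      subst e; exact ⟨hσ, fun _ _ => rfl⟩⟩
    obtain ⟨c, hc, h4⟩ := h τ h1 h3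
    exact h4 (h2 c (disjoint_right.1 hd hc))
  rw [this]
  simp [dotProduct]

lemma frac (hB : BinomStmt) {n h L : ℕ} (hn : 0 < n) (hh : 200 * h ≤ 177 * n)
    (hL : 250 * L ≤ 7 * n) (S : Finset (Fin n)) (hS : S.card ≤ L) :
    n.choose h ≤ 10 ^ L *
      ((powersetCard h (univ : Finset (Fin n))).filter fun H => Disjoint H S).card := by
  have h1 := hB n h L S hS (by omega)
  have h2 : n ^ 2 ≤ 100 * ((n - h) * (n - h - L)) := by
    have a1 : 23 * n ≤ 200 * (n - h) := by omega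
    have a2 : 87 * n ≤ 1000 * (n - h - L) := by omega
    nlinarith [Nat.mul_le_mul a1 a2]
  refine le_of_pow_le_pow_left₀ two_ne_zero (Nat.zero_le _)
    (Nat.le_of_mul_le_mul_right (c := n ^ (2 * L)) ?_ (Nat.pow_pos hn))
  calc n.choose h ^ 2 * n ^ (2 * L) ≤ n.choose h ^ 2 * (100 * ((n - h) * (n - h - L))) ^ L := by
        rw [pow_mul]; gcongr
    _ = (10 ^ L) ^ 2 * (n.choose h ^ 2 * ((n - h) * (n - h - L)) ^ L) := by
        rw [mul_pow 100, ← pow_mul, mul_comm L, pow_mul]; ring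
    _ ≤ _ := by rw [mul_pow (10 ^ L), mul_assoc]; gcongr

lemma num {n j L : ℕ} (hj : 177 * n ≤ 200 * j) (hL : 250 * L ≤ 7 * n) :
    (750075 / 1000000 : ℝ) ^ j * 2 ^ n * 10 ^ L ≤ (16539 / 10000) ^ n := by
  refine le_of_pow_le_pow_left₀ (n := 1000) (by norm_num) (by positivity) ?_
  calc ((750075 / 1000000 : ℝ) ^ j * 2 ^ n * 10 ^ L) ^ 1000
      = (750075 / 1000000) ^ (1000 * j) * 2 ^ (1000 * n) * 10 ^ (1000 * L) := by
        rw [mul_pow, mul_pow, ← pow_mul, ← pow_mul, ← pow_mul, mul_comm j, mul_comm n, mul_comm L]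
    _ ≤ (750075 / 1000000) ^ (885 * n) * 2 ^ (1000 * n) * 10 ^ (28 * n) :=
        mul_le_mul (mul_le_mul_of_nonneg_right
          (pow_le_pow_of_le_one (by norm_num) (by norm_num) (by omega)) (by positivity))
          (pow_le_pow_right₀ (by norm_num) (by omega)) (by positivity) (by positivity)
    _ = ((750075 / 1000000) ^ 885 * 2 ^ 1000 * 10 ^ 28) ^ n := by
        rw [mul_pow, mul_pow, ← pow_mul, ← pow_mul, ← pow_mul]
    _ ≤ ((16539 / 10000) ^ 1000) ^ n := by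
        refine pow_le_pow_left₀ (by positivity) ?_ n
        rw [div_pow, div_pow, div_mul_eq_mul_div, div_mul_eq_mul_div,
          div_le_div_iff₀ (by positivity) (by positivity)]
        exact_mod_cast (by decide +kernel :
          750075 ^ 885 * 2 ^ 1000 * 10 ^ 28 * 10000 ^ 1000 ≤ 16539 ^ 1000 * 1000000 ^ 885)
    _ = _ := by rw [← pow_mul, ← pow_mul, mul_comm]

end Part2L

open Part2L in
theorem part2 (hC : CoverStmt) (hP : PartStmt) (hB : BinomStmt) : Part2Stmt := by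
  classical
  obtain ⟨b0, K, t, hb, hK, hc, hK'⟩ := hC 1 (1 / 10000) (by norm_num)
  obtain ⟨D, hD⟩ := hP
  replace hK' : (K : ℝ) ≤ (2 * (750075 / 1000000)) ^ b0 := hK'.trans_eq (by norm_num)
  have hK2 : K ≤ 2 ^ b0 := by
    exact_mod_cast hK'.trans (pow_le_pow_left₀ (by norm_num) (by norm_num : _ ≤ (2 : ℝ)) b0)
  refine ⟨D + 4, 2 ^ ((1 + 1) * b0), fun Ω _ I P n A a hn hΩ hA => ?_⟩
  have hb2 : 2 ^ (b0 + 1) ≤ n := (Nat.pow_le_pow_right (by norm_num) (by omega)).trans hn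
  have hn0 : 0 < n := a.pos
  obtain ⟨m, hm⟩ : ∃ m, m = 177 * n / 200 / b0 := ⟨_, rfl⟩
  obtain ⟨L, hL⟩ : ∃ L, L = 7 * n / 250 := ⟨_, rfl⟩
  have m1 : m * b0 ≤ 177 * n / 200 := hm ▸ Nat.div_mul_le_self _ _
  have m2 : 177 * n / 200 < m * b0 + b0 := hm ▸ Nat.lt_div_mul_add hb
  let S := {H // H ∈ powersetCard (m * b0) (univ : Finset (Fin n))}
  have hS : Fintype.card S = n.choose (m * b0) := by simp [S]
  have : Nonempty S := Fintype.card_pos_iff.1 (hS ▸ Nat.choose_pos (by omega))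
  choose e he he' using fun H : S => inj_ex H.1 (mem_powersetCard.1 H.2).2
  have g0 := fun b : Fin n => Gen.iUnion (I := I) (P := P)
    (fun q : Fin n × Fin n => Bits fun ω => cut (A ω) a b q.1 q.2) fun q =>
      TF.op1 (fun x => x && (decide (q.1 ≠ b) || decide (q.2 = a))) (TF.of_subset (hA q.1 q.2) 0)
  have h1 := fun b : Fin n => hD Ω I _ n m b0 1 K t (fun ω => cut (A ω) a b) S e
    (fun _ _ _ => 1) (1 / 10 ^ L) hb hn hK hK2 hc he (by positivity)
    (div_le_one_of_le₀ (one_le_pow₀ (by norm_num)) (by positivity)) hΩ fun u v =>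
      (Set.subset_iUnion (fun q : Fin n × Fin n => Bits fun ω => cut (A ω) a b q.1 q.2)
        (u, v)).trans (Set.subset_union_right (s := P))
  choose s o o1 o2 o3 using h1
  obtain ⟨c, hc'⟩ : ∃ c : ℝ, c = (16539 / 10000) ^ n := ⟨_, rfl⟩
  obtain ⟨N, hN⟩ : ∃ N : ℝ, N = 16 * n := ⟨_, rfl⟩
  have n1 : (1 : ℝ) ≤ n := by exact_mod_cast hn0
  have c1 : 1 ≤ c := hc' ▸ one_le_pow₀ (by norm_num)
  have N1 : 1 ≤ N := by linarith
  have s1 : ∀ b, (s b : ℝ) ≤ N ^ D * (n * c) := by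
    intro b
    have a1 := o2 b
    rw [mul_one_div, div_le_iff₀ (by positivity), ← hN, mul_assoc] at a1
    refine a1.trans (mul_le_mul_of_nonneg_left ?_ (by positivity))
    have a2 := num (n := n) (j := m * b0 + (b0 + 1)) (L := L) (by omega) (by omega)
    have a3 : (K : ℝ) ^ m ≤ (2 * (750075 / 1000000)) ^ (m * b0) := by
      rw [mul_comm m, pow_mul]; gcongr
    have a4 : (1 : ℝ) ≤ n * (750075 / 1000000) ^ (b0 + 1) := by
      have a5 : (2 : ℝ) ^ (b0 + 1) ≤ n := by exact_mod_cast hb2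
      calc (1 : ℝ) ≤ (2 * (750075 / 1000000)) ^ (b0 + 1) := one_le_pow₀ (by norm_num)
        _ ≤ _ := by rw [mul_pow]; gcongr
    have a6 : (2 : ℝ) ^ n = 2 ^ (m * b0) * 2 ^ (n - m * b0) := by
      rw [← pow_add]; congr 1; omega
    calc (K : ℝ) ^ m * 2 ^ (n - m * b0) * 10 ^ L
        ≤ 1 * ((2 * (750075 / 1000000)) ^ (m * b0) * 2 ^ (n - m * b0) * 10 ^ L) := by
          rw [one_mul]; gcongr
      _ ≤ n * (750075 / 1000000) ^ (b0 + 1) *
          ((2 * (750075 / 1000000)) ^ (m * b0) * 2 ^ (n - m * b0) * 10 ^ L) := by gcongr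
      _ = n * ((750075 / 1000000) ^ (m * b0 + (b0 + 1)) * 2 ^ n * 10 ^ L) := by
          rw [a6, mul_pow, pow_add _ (m * b0)]; ring
      _ ≤ _ := by rw [hc']; gcongr
  refine ⟨_, _, TF.exists univ o (fun b _ => (TF.after (g0 b) (o1 b)).le
    (Nat.add_le_add_left (Nat.le_floor (s1 b)) _)) _ (fun ω => decide_eq_true_iff), ?_,
    fun ω => ⟨fun h => ?_, fun b hb1 hb3 => ?_⟩⟩
  · have a1 := Nat.floor_le (show 0 ≤ N ^ D * (n * c) by positivity)
    have a2 : 1 ≤ N ^ D * c := one_le_mul_of_one_le_of_one_le (one_le_pow₀ N1) c1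
    simp only [card_univ, Fintype.card_prod, Fintype.card_fin, Fintype.card_bool]
    push_cast
    rw [← hN, ← hc']
    have a3 : (n : ℝ) * n * 10 ≤ n * n * 10 * (N ^ D * c) :=
      le_mul_of_one_le_right (by positivity) a2
    calc (n : ℝ) * (n * n * 10 + ⌊N ^ D * (n * c)⌋₊ + 3) + 1
        ≤ n * (n * n * 10 * (N ^ D * c) + N ^ D * (n * c) + 3 * (N ^ D * c)) + N ^ D * c :=
          add_le_add (mul_le_mul_of_nonneg_left (by linarith) (by positivity)) a2
      _ = (n * (10 * n * n + n + 3) + 1) * (N ^ D * c) := by ring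
      _ ≤ N ^ 4 * (N ^ D * c) := by
          gcongr
          rw [hN]
          nlinarith [one_le_pow₀ (n := 2) n1, one_le_pow₀ (n := 3) n1,
            pow_le_pow_right₀ n1 (show 3 ≤ 4 by omega), pow_le_pow_right₀ n1 (show 2 ≤ 4 by omega),
            pow_le_pow_right₀ n1 (show 1 ≤ 4 by omega)]
      _ = N ^ (D + 4) * c := by ring
  · obtain ⟨b, -, h⟩ := of_decide_eq_true h
    obtain ⟨σ, hσ⟩ := (o3 b ω).1 h
    exact ⟨σ, hσ.inj, fun v => (Bool.and_eq_true_iff.1 (hσ.arc v)).1, hσ.clo⟩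
  · refine decide_eq_true ⟨b, mem_univ _, (o3 b ω).2 ?_⟩
    simp only [Rich, not_forall, not_exists, not_and] at hb3
    obtain ⟨σ, hσ, S0, h2, h3⟩ := hb3
    have h4 := frac hB hn0 (h := m * b0) (L := L) (by omega) (by omega) S0 (by omega)
    have h5 : ((powersetCard (m * b0) (univ : Finset (Fin n))).filter
        fun H => Disjoint H S0).card ≤ (univ.filter fun p : S =>
          Surv (cycs (cut (A ω) a b)) (univ.image (e p)) (fun _ _ => (1 : BK 1))).card := by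
      refine card_le_card_of_surjOn Subtype.val fun H hH => ?_
      obtain ⟨a1, a2⟩ := mem_filter.1 (mem_coe.1 hH)
      refine ⟨⟨H, a1⟩, mem_coe.2 (mem_filter.2 ⟨mem_univ _, ?_⟩), rfl⟩
      rw [he', cycs_cut]
      exact surv hσ (fun τ hτ hne => by simpa using h3 τ hτ hne) a2
    rw [hS, one_div_mul_eq_div, div_le_iff₀' (by positivity)]
    have h6 := h4.trans (Nat.mul_le_mul_left _ h5)
    exact_mod_cast h6

end Pool.Agent.MP_6b3410_lc.D4
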