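import Pool.Agent.MP_6b3410_lc.D4.Spec

/-! Exposing one row. -/

set_option autoImplicit false

namespace Pool.Agent.MP_6b3410_lc.D4

open Finset Function

namespace RowL

theorem sep : ∀ u u' : B, u ≠ 0 → u ≠ u' → ∃ m : B, m ⬝ᵥ u = 1 ∧ m ⬝ᵥ u' = 0 := by decide

theorem z2 : ∀ x : ZMod 2, ¬ x = 1 → x = 0 := by decide

theorem card_NZ : Fintype.card NZ = 7 := by decide

variable {n : ℕ}

theorem cnt (S : Finset (Fin n → NZ)) (C : Finset (Fin n)) {Y : Type} [Fintype Y]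
    (g : (Fin n → NZ) → Y) (k : ℕ) (h : ∀ T ⊆ S,
      (∀ η ∈ T, ∀ η' ∈ T, (∀ c ∉ C, η c = η' c) ∧ g η = g η') → T.card ≤ k) :
    7 ^ C.card * S.card ≤ k * Fintype.card Y * 7 ^ n := by
  classical
  have := card_le_mul_card_image_of_maps_to (s := S) (t := univ)
    (f := fun η => ((fun c : ↥Cᶜ => η c), g η)) (fun _ _ => mem_univ _) k fun b _ =>
      h _ (filter_subset _ _) fun η a η' a' => by
        have e := Prod.ext_iff.1 ((mem_filter.1 a).2.trans (mem_filter.1 a').2.symm)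
        exact ⟨fun c hc => congrFun e.1 ⟨c, mem_compl.2 hc⟩, e.2⟩
  rw [card_univ, Fintype.card_prod, Fintype.card_fun, card_NZ, Fintype.card_coe, card_compl,
    Fintype.card_fin] at this
  refine (Nat.mul_le_mul_left _ this).trans_eq ?_
  have e : 7 ^ n = 7 ^ C.card * 7 ^ (n - C.card) := by
    rw [← pow_add, Nat.add_sub_cancel' (by simpa using card_le_univ C)]
  rw [e]
  ring

theorem k1 {A : (Fin n → B) → ZMod 2} {c : Fin n} (hA : ∀ l v, A (update l c v) = A l)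
    (h1 : ∃ l, A l = 1) {u : B} (h : ∀ l, (l c ⬝ᵥ u) * A l = 0) : u = 0 := by
  by_contra hu
  obtain ⟨l, hl⟩ := h1
  obtain ⟨m, hm, -⟩ := sep u 0 hu hu
  simpa [hA, hl, hm] using h (update l c m)

theorem k2 {A A' : (Fin n → B) → ZMod 2} {c c' : Fin n} (hc : c' ≠ c)
    (hA : ∀ l v, A (update l c v) = A l) (h1 : ∃ l, A l = 1) {u v u' v' : B}
    (h : ∀ l, (l c ⬝ᵥ u) * A l + (l c' ⬝ᵥ v) * A' l = 0)
    (h' : ∀ l, (l c ⬝ᵥ u') * A l + (l c' ⬝ᵥ v') * A' l = 0) (hu : u ≠ 0) (hu' : u' ≠ 0) :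
    u = u' := by
  by_contra e
  obtain ⟨l, hl⟩ := h1
  obtain ⟨m, a, b⟩ := sep u u' hu e
  obtain ⟨m', a', -⟩ := sep u' u hu' (Ne.symm e)
  have h2 := h (update l c m)
  have h3 := h' (update l c m)
  have h4 := h' (update l c m')
  simp only [update_self, update_of_ne hc, hA, hl, a, b, a'] at h2 h3 h4
  exact (by decide : ∀ x y z w : ZMod 2, 1 * 1 + x * z = 0 → 0 * 1 + y * z = 0 →
    1 * 1 + y * w = 0 → False) _ _ _ _ h2 h3 h4

theorem both {f g : (Fin n → B) → B → ZMod 2} (hf : ∀ l u v, f l (u + v) = f l u + f l v)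
    (hg : ∀ l u v, g l (u + v) = g l u + g l v) {p q : B} (hp : ∃ l, f l p = 1)
    (hq : ∃ l, g l q = 1) : ∃ μ, (∃ l, f l μ = 1) ∧ ∃ l, g l μ = 1 := by
  by_cases a : ∃ l, g l p = 1
  · exact ⟨p, hp, a⟩
  by_cases b : ∃ l, f l q = 1
  · exact ⟨q, b, hq⟩
  obtain ⟨l, hl⟩ := hp
  obtain ⟨l', hl'⟩ := hq
  exact ⟨p + q, ⟨l, by rw [hf, hl, z2 _ fun e => b ⟨l, e⟩, add_zero]⟩,
    l', by rw [hg, hl', z2 _ fun e => a ⟨l', e⟩, zero_add]⟩

theorem cut {H C : Finset (Fin n)} {A : Fin n → (Fin n → B) → ZMod 2} {u : Fin n → B}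
    (hC : C ⊆ H) (h0 : ∀ c ∈ H, c ∉ C → u c = 0 ∨ ¬ ∃ l, A c l = 1) {l : Fin n → B}
    (h : ∑ c ∈ H, (l c ⬝ᵥ u c) * A c l = 0) : ∑ c ∈ C, (l c ⬝ᵥ u c) * A c l = 0 :=
  (sum_subset hC fun c a b => by
    rcases h0 c a b with e | e
    · simp [e]
    · rw [z2 _ fun e' => e ⟨l, e'⟩, mul_zero]).trans h

end RowL

open RowL in
theorem row : RowStmt := by
  classical
  intro n H A c₀ m₀ ind add a₀
  generalize hS : @Finset.filter (Fin n → NZ) _ (_) _ = S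
  have mem : ∀ η ∈ S, ∀ l : Fin n → B, ∑ c ∈ H, (l c ⬝ᵥ (η c).1) * A c l = 0 := fun η h =>
    (@mem_filter _ _ (_) _ _).1 (hS ▸ h) |>.2
  by_cases h1 : ∃ c ∈ H, c ≠ c₀ ∧ ∃ l, A c l = 1
  swap
  · rw [eq_empty_of_forall_notMem (s := S) fun η h => (η c₀).2 (k1 (ind c₀) a₀ fun l => by
      simpa using cut (C := {c₀}) (by simpa) (fun c a b => Or.inr fun e =>
        h1 ⟨c, a, by simpa using b, e⟩) (mem η h l))]
    simp
  obtain ⟨c₁, m₁, n₁, a₁⟩ := h1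
  by_cases h2 : ∃ c ∈ H, c ≠ c₀ ∧ c ≠ c₁ ∧ ∃ l, A c l = 1
  swap
  · have r : ∀ η ∈ S, ∀ l : Fin n → B,
        (l c₀ ⬝ᵥ (η c₀).1) * A c₀ l + (l c₁ ⬝ᵥ (η c₁).1) * A c₁ l = 0 := fun η h l => by
      have := cut (C := {c₀, c₁}) (by simp [insert_subset_iff, m₀, m₁]) (fun c a b =>
        Or.inr fun e => h2 ⟨c, a, fun e => b (by simp [e]), fun e => b (by simp [e]), e⟩)
        (mem η h l)
      rwa [sum_pair n₁.symm] at this
    have := cnt S {c₀, c₁} (fun _ => ()) 1 fun T hT h => card_le_one.2 fun η a η' a' => by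
      funext c
      by_cases e : c ∈ ({c₀, c₁} : Finset (Fin n))
      · rcases mem_insert.1 e with rfl | e
        · exact Subtype.ext (k2 n₁ (ind _) a₀ (r η (hT a)) (r η' (hT a')) (η _).2 (η' _).2)
        · rw [mem_singleton.1 e]
          exact Subtype.ext (k2 n₁.symm (ind _) a₁ (fun l => (add_comm _ _).trans (r η (hT a) l))
            (fun l => (add_comm _ _).trans (r η' (hT a') l)) (η _).2 (η' _).2)
      · exact (h η a η' a').1 c e
    simpa [card_pair n₁.symm] using this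
  obtain ⟨c₂, m₂, n₂, n₃, a₂⟩ := h2
  obtain ⟨μ, b₁, b₂⟩ := both (f := fun l v => A c₁ (update l c₀ v))
    (g := fun l v => A c₂ (update l c₀ v)) (add c₁ m₁ c₀ m₀ n₁.symm) (add c₂ m₂ c₀ m₀ n₂.symm)
    (p := a₁.choose c₀) (q := a₂.choose c₀) ⟨_, by rw [update_eq_self, a₁.choose_spec]⟩
    ⟨_, by rw [update_eq_self, a₂.choose_spec]⟩
  have i : ∀ c, c ≠ c₀ → ∀ l v, A c (update (update l c v) c₀ μ) = A c (update l c₀ μ) :=
    fun c hc l v => by rw [update_comm hc, ind]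
  have nd : c₀ ∉ ({c₁, c₂} : Finset (Fin n)) := by simp [n₁.symm, n₂.symm]
  have := cnt S {c₀, c₁, c₂} (fun η => μ ⬝ᵥ (η c₀).1) 2 fun T hT h => by
    have r : ∀ η ∈ T, ∀ η' ∈ T, ∀ l : Fin n → B, (l c₀ ⬝ᵥ ((η c₀).1 - (η' c₀).1)) * A c₀ l +
        ((l c₁ ⬝ᵥ ((η c₁).1 - (η' c₁).1)) * A c₁ l +
          (l c₂ ⬝ᵥ ((η c₂).1 - (η' c₂).1)) * A c₂ l) = 0 := fun η a η' a' l => by
      have := cut (C := {c₀, c₁, c₂}) (u := fun c => (η c).1 - (η' c).1) (A := A) (l := l)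
        (H := H) (by simp [insert_subset_iff, m₀, m₁, m₂])
        (fun c _ b => Or.inl (by rw [(h η a η' a').1 c b, sub_self])) (by
          simp only [dotProduct_sub, sub_mul, sum_sub_distrib, mem η (hT a), mem η' (hT a'),
            sub_self])
      rwa [sum_insert nd, sum_pair n₃.symm] at this
    have r' : ∀ η ∈ T, ∀ η' ∈ T, ∀ l : Fin n → B,
        (l c₁ ⬝ᵥ ((η c₁).1 - (η' c₁).1)) * A c₁ (update l c₀ μ) +
          (l c₂ ⬝ᵥ ((η c₂).1 - (η' c₂).1)) * A c₂ (update l c₀ μ) = 0 := fun η a η' a' l => by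
      have := r η a η' a' (update l c₀ μ)
      rwa [update_self, update_of_ne n₁, update_of_ne n₂, dotProduct_sub, (h η a η' a').2,
        sub_self, zero_mul, zero_add] at this
    have inj : ∀ η ∈ T, ∀ η' ∈ T, (η c₁).1 - (η' c₁).1 = 0 → η = η' := fun η a η' a' e1 => by
      have e2 : (η c₂).1 - (η' c₂).1 = 0 :=
        k1 (i c₂ n₂) b₂ fun l => by simpa [e1] using r' η a η' a' l
      have e0 : (η c₀).1 - (η' c₀).1 = 0 :=
        k1 (ind c₀) a₀ fun l => by simpa [e1, e2] using r η a η' a' l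
      funext c
      by_cases e : c ∈ ({c₀, c₁, c₂} : Finset (Fin n))
      · simp only [mem_insert, mem_singleton] at e
        rcases e with rfl | rfl | rfl
        exacts [Subtype.ext (sub_eq_zero.1 e0), Subtype.ext (sub_eq_zero.1 e1),
          Subtype.ext (sub_eq_zero.1 e2)]
      · exact (h η a η' a').1 c e
    by_contra! hc
    obtain ⟨x, hx, y, hy, z, hz, d1, d2, d3⟩ := two_lt_card.1 hc
    exact d3 (inj y hy z hz (sub_eq_zero.2 (sub_right_injective (k2 n₃ (i c₁ n₁) b₁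
      (r' x hx y hy) (r' x hx z hz) (mt (inj x hx y hy) d1) (mt (inj x hx z hz) d2)))))
  rw [card_insert_of_notMem nd, card_pair n₃.symm, ZMod.card] at this
  omega

end Pool.Agent.MP_6b3410_lc.D4
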