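import Mathlib
import Pool.Agent.MP_6b3410_lc.D4.Spec
import Pool.Agent.MP_6b3410_lc.U5.Fam
import Pool.Agent.MP_6b3410_lc.U5.Cap

/-!
Second round: listing by covering codes, and the bound for undirected graphs.
The paper proof is in the team store, file MP_6b3410_D4_plan2.md.
-/

set_option autoImplicit false

namespace Pool.Agent.MP_6b3410_lc.D4

open Finset
open Pool.Agent.MP_6b3410_lc.H5 (Cyc DHam)
open Pool.Agent.MP_6b3410_lc.U5 (Gen TF PF Bits fam orb kc)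

/-- hash values of length `k` -/
abbrev BK (k : ℕ) : Type := Fin k → ZMod 2

/-- every block of nonzero vectors is hit by one of the first `K` blocks of the list `t` -/
def Covers {b r : ℕ} (K : ℕ) (t : ℕ → Fin b → BK r) : Prop :=
  ∀ v : Fin b → BK r, (∀ s, v s ≠ 0) → ∃ i < K, ∀ s, t i s ⬝ᵥ v s = 1

open Classical in
/-- the points that satisfy all clauses -/
noncomputable def pts2 {n m b r : ℕ} (L : Fin m × Fin b → (Fin n → ZMod 2) → BK r) :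
    Finset (Fin n → ZMod 2) :=
  univ.filter fun y => ∀ p, L p y ≠ 0

open Classical in
/-- the number of pairs of a choice of blocks and a point hit by it -/
noncomputable def pairs {n m b r : ℕ} (K : ℕ) (t : ℕ → Fin b → BK r)
    (L : Fin m × Fin b → (Fin n → ZMod 2) → BK r) : ℕ :=
  (univ.filter fun q : (Fin m → Fin K) × (Fin n → ZMod 2) =>
    ∀ p : Fin m × Fin b, t (q.1 p.1) p.2 ⬝ᵥ L p q.2 = 1).card

/-- the forms of the clause at the vertex `e p` -/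
def form2 {n m b k : ℕ} (e : Fin m × Fin b → Fin n) (ρ : Fin n → BK k)
    (M : Fin n → (Fin n → ZMod 2) → BK k) (p : Fin m × Fin b) (y : Fin n → ZMod 2) : BK (k + 1) :=
  Fin.cons (y (e p)) (ρ (e p) + M (e p) y)

/-- the hash value of column `c` -/
def hs2 {n k : ℕ} (A : Fin n → Fin n → Bool) (ξ : Fin n → Fin n → BK k) (c : Fin n)
    (y : Fin n → ZMod 2) : BK k :=
  ∑ u, if y u = 1 ∧ A c u = true then ξ u c else 0

/-- the linear form with coefficient vector `v` -/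
def emb2 {k : ℕ} {F : Type} [CommRing F] (v : BK k) (z : Fin k → F) : F :=
  ∑ i, if v i = 1 then z i else 0

/-- the weights: hashed in the columns in `H`, free in the others -/
def xw2 {n k : ℕ} {F : Type} [CommRing F] (H : Finset (Fin n)) (ξ : Fin n → Fin n → BK k)
    (z : Fin n → Fin k → F) (g : Fin n → Fin n → F) (w c : Fin n) : F :=
  if c ∈ H then emb2 (ξ w c) (z c) else g w c

/-- the family `T` survives the hashing `ξ` of the columns in `H` -/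
def Surv {n k : ℕ} (T : Finset (Fin n → Fin n)) (H : Finset (Fin n))
    (ξ : Fin n → Fin n → BK k) : Prop :=
  ∃ (σ₀ : Fin n → Fin n) (l : Fin n → BK k),
    ∑ σ ∈ T.filter (fun σ => ∀ c, c ∉ H → σ c = σ₀ c), ∏ c ∈ H, (l c ⬝ᵥ ξ (σ c) c) = 1

/-- no member of `T` is determined by fewer than `L` of its values -/
def Rich {n : ℕ} (L : ℕ) (T : Finset (Fin n → Fin n)) : Prop :=
  ∀ σ ∈ T, ∀ S : Finset (Fin n), S.card < L → ∃ τ ∈ T, τ ≠ σ ∧ ∀ c ∈ S, τ c = σ c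

/-- row COVER: short covering lists -/
def CoverStmt : Prop :=
  ∀ (k : ℕ) (ε : ℝ), 0 < ε → ∃ (b K : ℕ) (t : ℕ → Fin b → BK (k + 1)), 1 ≤ b ∧ 1 ≤ K ∧
    Covers K t ∧ (K : ℝ) ≤ ((2 - 1 / 2 ^ k) * (1 + ε)) ^ b

/-- row COUNT2: for half of the shifts there are few pairs -/
def Count2Stmt : Prop :=
  ∀ (n m b k K : ℕ) (e : Fin m × Fin b → Fin n) (t : ℕ → Fin b → BK (k + 1))
    (M : Fin n → (Fin n → ZMod 2) → BK k), Function.Injective e →
    Fintype.card (Fin n → BK k) ≤ 2 * (univ.filter fun ρ : Fin n → BK k =>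
      pairs K t (form2 e ρ M) ≤ 2 * K ^ m * 2 ^ (n - m * b)).card

/-- row SZ2: a surviving family is seen by half of the field weights -/
def Sz2Stmt : Prop :=
  ∀ (n k : ℕ) (F : Type) [Field F] [Fintype F] [DecidableEq F] [CharP F 2]
    (T : Finset (Fin n → Fin n)) (H : Finset (Fin n)) (ξ : Fin n → Fin n → BK k),
    2 * n ≤ Fintype.card F → Surv T H ξ →
    Fintype.card ((Fin n → Fin k → F) × (Fin n → Fin n → F)) ≤
      2 * (univ.filter fun p : (Fin n → Fin k → F) × (Fin n → Fin n → F) =>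
        ∑ σ ∈ T, ∏ c, xw2 H ξ p.1 p.2 (σ c) c ≠ 0).card

/-- row LIST2: oblivious listing along a covering list -/
def List2Stmt : Prop :=
  ∃ D : ℕ, ∀ (Ω : Type) (I P : Set (Ω → Bool)) (N n m b r K d c : ℕ) (t : ℕ → Fin b → BK r)
    (α : Ω → Fin m × Fin b → Fin r → Fin n → ZMod 2) (β : Ω → Fin m × Fin b → BK r)
    (Φ : Ω → (Fin n → ZMod 2) → ZMod 2), 7 ≤ N → 1 ≤ b → 1 ≤ r → m * b + n + 1 ≤ N →
    4 * (d + 1) ≤ N → 2 ^ (r * b) ≤ N → 1 ≤ K → K ≤ 2 ^ b → Covers K t →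
    (∀ p i u, Bits (fun ω => α ω p i u) ⊆ P) → (∀ p i, Bits (fun ω => β ω p i) ⊆ P) →
    (∀ (P' : Set (Ω → Bool)) (y : Ω → Fin n → ZMod 2), P ⊆ P' →
      (∀ v, Bits (fun ω => y ω v) ⊆ P') → TF I P' c fun ω => Φ ω (y ω)) →
    ∃ o : Ω → Bool, TF I P (2 ^ d * N ^ D * (c + 1)) o ∧ ∀ ω,
      (o ω = true → ∑ y ∈ pts2 (fun p y i => β ω p i + ∑ u, α ω p i u * y u), Φ ω y = 1) ∧
      (2 ^ b * K ^ m ≤ 2 ^ d →
        pairs K t (fun p y i => β ω p i + ∑ u, α ω p i u * y u) ≤ 2 ^ d →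
        ∑ y ∈ pts2 (fun p y i => β ω p i + ∑ u, α ω p i u * y u), Φ ω y = 1 → o ω = true)

/-- row SEED2: the circuit for one seed -/
def Seed2Stmt : Prop :=
  ∃ D : ℕ, ∀ (Ω : Type) (I P : Set (Ω → Bool)) (N n m b k K d : ℕ) (F : Type) [Field F]
    [Fintype F] [CharP F 2] (t : ℕ → Fin b → BK (k + 1)) (e : Fin m × Fin b → Fin n)
    (A : Ω → Fin n → Fin n → Bool) (ξ : Fin n → Fin n → BK k) (ρ : Fin n → BK k)
    (z : Fin n → Fin k → F) (g : Fin n → Fin n → F), 7 ≤ N → 1 ≤ n → 1 ≤ b → 2 * n + 1 ≤ N →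
    4 * (d + 1) ≤ N → Fintype.card F ≤ N → 2 ^ ((k + 1) * b) ≤ N → 1 ≤ K → K ≤ 2 ^ b →
    Covers K t → Function.Injective e → (∀ u v, Bits (fun ω => A ω u v) ⊆ P) →
    ∃ o : Ω → Bool, TF I P (2 ^ d * N ^ D) o ∧ ∀ ω,
      (o ω = true → hc (A ω) (xw2 (univ.image e) ξ z g) ≠ 0) ∧
      (2 ^ b * K ^ m ≤ 2 ^ d → pairs K t (form2 e ρ (hs2 (A ω) ξ)) ≤ 2 ^ d →
        hc (A ω) (xw2 (univ.image e) ξ z g) ≠ 0 → o ω = true)

/-- row PART: hitting lists of seeds -/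
def PartStmt : Prop :=
  ∃ D : ℕ, ∀ (Ω : Type) [Fintype Ω] (I P : Set (Ω → Bool)) (n m b k K : ℕ)
    (t : ℕ → Fin b → BK (k + 1)) (A : Ω → Fin n → Fin n → Bool) (S : Type) [Fintype S]
    [Nonempty S] (e : S → Fin m × Fin b → Fin n) (ξ : S → Fin n → Fin n → BK k) (δ : ℝ),
    1 ≤ b → 2 ^ ((k + 1) * b) ≤ n → 1 ≤ K → K ≤ 2 ^ b → Covers K t →
    (∀ p, Function.Injective (e p)) → 0 < δ → δ ≤ 1 → Fintype.card Ω ≤ 2 ^ (n * n) →
    (∀ u v, Bits (fun ω => A ω u v) ⊆ P) →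
    ∃ (s : ℕ) (o : Ω → Bool), TF I P s o ∧
      (s : ℝ) * δ ≤ (16 * n) ^ D * (K ^ m * 2 ^ (n - m * b)) ∧ ∀ ω,
      (o ω = true → DHam fun u v => A ω u v = true) ∧
      (δ * Fintype.card S ≤ ((open Classical in univ.filter fun p : S =>
        Surv (cycs (A ω)) (univ.image (e p)) (ξ p)).card : ℝ) → o ω = true)

/-- row TREE: a rich family makes random colourings succeed more often -/
def TreeStmt : Prop :=
  ∀ (k L : ℕ) (T : Finset (Fin (k + 1) → Fin (k + 1))) (a : Fin (k + 1)) (β : ℝ)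
    (M : (Fin (k + 1) → Bool) → ℝ), 1714 / 10000 ≤ β → β ≤ 172 / 1000 → T.Nonempty →
    (∀ σ ∈ T, Set.InjOn (orb a σ) {t | t < k + 1}) →
    (∀ σ ∈ T, ∀ τ ∈ T, (∀ t < k + 1, orb a σ t = orb a τ t) → σ = τ) → Rich L T →
    (∀ σ ∈ T, ∀ W, U5.Cap.mu β (orb a σ) W ≤ M W) → (1071 / 1000 : ℝ) ^ L ≤ ∑ W, M W

/-- row PART1: the rich case -/
def Part1Stmt : Prop :=
  ∃ D : ℕ, ∀ (Ω : Type) [Fintype Ω] (I P : Set (Ω → Bool)) (n L : ℕ)
    (A : Ω → Fin n → Fin n → Bool) (a : Fin n), 2 ≤ n → L ≤ n →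
    Fintype.card Ω ≤ 2 ^ (n * n) → (∀ ω u v, A ω u v = A ω v u) → (∀ ω u, A ω u u = false) →
    (∀ u v, Bits (fun ω => A ω u v) ⊆ P) →
    ∃ (s : ℕ) (o : Ω → Bool), TF I P s o ∧
      (s : ℝ) * (1071 / 1000) ^ L ≤ (16 * n) ^ D * (4 * (Real.sqrt 2 - 1)) ^ n ∧ ∀ ω,
      (o ω = true → DHam fun u v => A ω u v = true) ∧
      ∀ b, (fam (A ω) a b).Nonempty → Rich L (fam (A ω) a b) → o ω = true

/-- row BINOM: many sets of columns avoid a given small set -/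
def BinomStmt : Prop :=
  ∀ (n h L : ℕ) (S : Finset (Fin n)), S.card ≤ L → L + h ≤ n →
    (n.choose h) ^ 2 * ((n - h) * (n - h - L)) ^ L ≤
      ((powersetCard h (univ : Finset (Fin n))).filter fun H => Disjoint H S).card ^ 2 *
        n ^ (2 * L)

/-- row PART2: the rigid case -/
def Part2Stmt : Prop :=
  ∃ D n₀ : ℕ, ∀ (Ω : Type) [Fintype Ω] (I P : Set (Ω → Bool)) (n : ℕ)
    (A : Ω → Fin n → Fin n → Bool) (a : Fin n), n₀ ≤ n →
    Fintype.card Ω ≤ 2 ^ (n * n) → (∀ u v, Bits (fun ω => A ω u v) ⊆ P) →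
    ∃ (s : ℕ) (o : Ω → Bool), TF I P s o ∧
      (s : ℝ) ≤ (16 * n) ^ D * (16539 / 10000) ^ n ∧ ∀ ω,
      (o ω = true → DHam fun u v => A ω u v = true) ∧
      ∀ b, (fam (A ω) a b).Nonempty → ¬ Rich (7 * n / 250 + 1) (fam (A ω) a b) → o ω = true

end Pool.Agent.MP_6b3410_lc.D4
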