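import Mathlib
import Pool.Agent.MP_6b3410_lc.D4.Spec2

/-!
The circuit for one seed: the listing of the surviving points, the determinants and the sieve.
-/

set_option autoImplicit false

namespace Pool.Agent.MP_6b3410_lc.D4

open Finset
open Pool.Agent.MP_6b3410_lc.U5 (Gen TF PF Bits card_zmod2_le card_bool_le)

namespace Seed2L

lemma z2 (x : ZMod 2) : x = 0 ∨ x = 1 := by
  revert x; decide

lemma exists_tau (F : Type) [Field F] [CharP F 2] : ∃ τ : F →+ ZMod 2, τ 1 = 1 := by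
  let _ : Algebra (ZMod 2) F := ZMod.algebra F 2
  have : Fact (Nat.Prime 2) := ⟨Nat.prime_two⟩
  have h : ¬ ∀ φ : Module.Dual (ZMod 2) F, φ 1 = 0 := by
    rw [Module.forall_dual_apply_eq_zero_iff]
    exact one_ne_zero
  push Not at h
  obtain ⟨φ, hφ⟩ := h
  exact ⟨φ.toAddMonoidHom, (z2 _).resolve_left hφ⟩

lemma emb_zero {k : ℕ} {F : Type} [Field F] (z : Fin k → F) : emb2 (0 : BK k) z = 0 := by
  simp [emb2]

lemma emb_add {k : ℕ} {F : Type} [Field F] [CharP F 2] (u v : BK k) (z : Fin k → F) :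
    emb2 (u + v) z = emb2 u z + emb2 v z := by
  unfold emb2
  rw [← sum_add_distrib]
  refine sum_congr rfl fun i _ => ?_
  have h11 : (1 + 1 : ZMod 2) = 0 := by decide
  rcases z2 (u i) with h | h <;> rcases z2 (v i) with h' | h' <;>
    simp [h, h', h11, CharTwo.add_self_eq_zero]

lemma emb_sum {k : ℕ} {F : Type} [Field F] [CharP F 2] {ι : Type} (T : Finset ι) (v : ι → BK k)
    (z : Fin k → F) : emb2 (∑ i ∈ T, v i) z = ∑ i ∈ T, emb2 (v i) z := by
  classical
  induction T using Finset.induction_on with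
  | empty => simp [emb_zero]
  | insert i T hi ih => rw [sum_insert hi, sum_insert hi, emb_add, ih]

/-- the coefficients of the forms -/
def af {n k : ℕ} (ξ : Fin n → Fin n → BK k) (v : Fin n) (i : Fin (k + 1)) (u : Fin n) (b : Bool) :
    ZMod 2 :=
  (Fin.cons (if u = v then 1 else 0) (fun l : Fin k => if b = true then ξ u v l else 0) :
    BK (k + 1)) i

/-- the constant terms of the forms -/
def bf {n k : ℕ} (ρ : Fin n → BK k) (v : Fin n) : BK (k + 1) := Fin.cons 0 (ρ v)

lemma forms_eq {n m b k : ℕ} (e : Fin m × Fin b → Fin n) (A : Fin n → Fin n → Bool)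
    (ξ : Fin n → Fin n → BK k) (ρ : Fin n → BK k) :
    (fun (p : Fin m × Fin b) (y : Fin n → ZMod 2) (i : Fin (k + 1)) =>
      bf ρ (e p) i + ∑ u, af ξ (e p) i u (A (e p) u) * y u) = form2 e ρ (hs2 A ξ) := by
  funext p y i
  refine Fin.cases ?_ (fun l => ?_) i
  · simp [bf, af, form2]
  · simp only [bf, af, form2, hs2, Fin.cons_succ, Pi.add_apply, Finset.sum_apply]
    congr 1
    refine sum_congr rfl fun u _ => ?_
    rcases z2 (y u) with h | h <;> cases hA : A (e p) u <;> simp [h]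

/-- the shifts on the diagonal -/
def rr {n k : ℕ} {F : Type} [CommRing F] (H : Finset (Fin n)) (ρ : Fin n → BK k)
    (z : Fin n → Fin k → F) (c : Fin n) : F :=
  if c ∈ H then emb2 (ρ c) (z c) else 0

lemma det_zero {n m b k : ℕ} {F : Type} [Field F] [CharP F 2] (e : Fin m × Fin b → Fin n)
    (A : Fin n → Fin n → Bool) (ξ : Fin n → Fin n → BK k) (ρ : Fin n → BK k)
    (z : Fin n → Fin k → F) (g : Fin n → Fin n → F) (a : Fin n) (y : Fin n → ZMod 2)
    (hy : y ∉ pts2 (form2 e ρ (hs2 A ξ))) :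
    (lap (fun w c => if A c w = true then xw2 (univ.image e) ξ z g w c else 0)
      (rr (univ.image e) ρ z) a y).det = 0 := by
  simp only [pts2, mem_filter, mem_univ, true_and, not_forall, not_not] at hy
  obtain ⟨p, h0⟩ := hy
  have hc : e p ∈ univ.image e := mem_image_of_mem e (mem_univ p)
  have h1 : y (e p) = 0 := by simpa [form2] using congrFun h0 0
  have h2 : ρ (e p) + hs2 A ξ (e p) y = 0 := by
    funext l
    simpa [form2] using congrFun h0 l.succ
  generalize e p = c at hc h1 h2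
  generalize univ.image e = H at hc
  refine Matrix.det_eq_zero_of_row_eq_zero c fun c' => ?_
  simp only [lap, Matrix.of_apply, h1, zero_ne_one, and_false, if_false, add_zero]
  split_ifs with h
  · subst h
    have h3 := congrArg (fun v => emb2 v (z c)) h2
    simp only [emb_add, emb_zero, hs2, emb_sum] at h3
    refine Eq.trans ?_ h3
    rw [rr, if_pos hc]
    congr 1
    refine sum_congr rfl fun u _ => ?_
    by_cases hu : y u = 1 <;> cases hA : A c u <;> simp [hu, xw2, hc, emb_zero]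
  · rfl

lemma hc_eq (hS : SieveStmt) {n m b k : ℕ} {F : Type} [Field F] [CharP F 2]
    (e : Fin m × Fin b → Fin n) (A : Fin n → Fin n → Bool) (ξ : Fin n → Fin n → BK k)
    (ρ : Fin n → BK k) (z : Fin n → Fin k → F) (g : Fin n → Fin n → F) (a : Fin n) :
    ∑ y ∈ pts2 (form2 e ρ (hs2 A ξ)),
      (lap (fun w c => if A c w = true then xw2 (univ.image e) ξ z g w c else 0)
        (rr (univ.image e) ρ z) a y).det = hc A (xw2 (univ.image e) ξ z g) := by
  rw [← hS n F A (xw2 (univ.image e) ξ z g) (rr (univ.image e) ρ z) a]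
  exact sum_subset (subset_univ _) fun y _ hy => det_zero e A ξ ρ z g a y hy

lemma entry {Ω : Type} {I P : Set (Ω → Bool)} {N n : ℕ} {F : Type} [Field F] [Fintype F]
    (A : Ω → Fin n → Fin n → Bool) (X : Fin n → Fin n → F) (r : Fin n → F) (a : Fin n)
    (y : Ω → Fin n → ZMod 2) (hN : 7 ≤ N) (hn : n ≤ N) (hF : Fintype.card F ≤ N)
    (hA : ∀ u v, Bits (fun ω => A ω u v) ⊆ P) (hy : ∀ v, Bits (fun ω => y ω v) ⊆ P)
    (w c : Fin n) :
    PF I P N 7 fun ω => lap (fun w c => if A ω c w = true then X w c else 0) r a (y ω) w c := by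
  have h1 : ∀ u ∈ (univ : Finset (Fin n)), PF I P N 3 fun ω =>
      if y ω u = 1 then (if A ω c u = true then X u c else 0) else 0 := fun u _ =>
    U5.PF.op2 (fun (t : ZMod 2) (b : Bool) => if t = 1 then (if b = true then X u c else 0) else 0)
      hN le_rfl (card_zmod2_le hN) (card_bool_le hN) (U5.PF.of_subset (hy u) 2)
      (U5.PF.of_subset (hA c u) 2)
  have h2 := U5.PF.sum univ _ hN (by omega) hF (by simpa using hn) h1
  have h3 := U5.PF.op1 (fun x : F => if w = c then r c + x else 0) hN (by omega) hF h2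
  have h4 : PF I P N 3 fun ω =>
      if c ≠ a ∧ y ω w = 1 then (if A ω c w = true then X w c else 0) else 0 :=
    U5.PF.op2 (fun (t : ZMod 2) (b : Bool) =>
      if c ≠ a ∧ t = 1 then (if b = true then X w c else 0) else 0)
      hN le_rfl (card_zmod2_le hN) (card_bool_le hN) (U5.PF.of_subset (hy w) 2)
      (U5.PF.of_subset (hA c w) 2)
  exact U5.PF.op2 (fun x x' : F => x + x') hN (by omega) hF hF h3 (h4.le hN (by omega))

lemma size1 {N n q D : ℕ} (hN : 7 ≤ N) (hn : n ≤ N) (hq : q ≤ N) :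
    n * n * N ^ 7 + N ^ D + 5 * q + 1 ≤ N ^ (D + 10) := by
  have h1 : n * n * N ^ 7 ≤ N ^ (D + 9) := by
    calc n * n * N ^ 7 ≤ N * N * N ^ 7 := by gcongr
      _ = N ^ 9 := by ring
      _ ≤ N ^ (D + 9) := Nat.pow_le_pow_right (by omega) (by omega)
  have h2 : N ^ D ≤ N ^ (D + 9) := Nat.pow_le_pow_right (by omega) (by omega)
  have h3 : N ^ 2 ≤ N ^ (D + 9) := Nat.pow_le_pow_right (by omega) (by omega)
  have h4 : 5 * q + 1 ≤ N ^ 2 := by nlinarith
  have h5 : N ^ (D + 9) * 7 ≤ N ^ (D + 9) * N := Nat.mul_le_mul_left _ hN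
  have h6 : N ^ (D + 10) = N ^ (D + 9) * N := pow_succ N (D + 9)
  omega

lemma size2 {N w q d D E c : ℕ} (hN : 7 ≤ N) (hw : w ≤ N ^ 3) (hq : q ≤ N)
    (hc : c + 1 ≤ N ^ (E + 10)) :
    w * 10 + (q * (2 ^ d * N ^ D * (c + 1) + 3) + 1) ≤ 2 ^ d * N ^ (D + E + 12) := by
  set X := 2 ^ d * N ^ (D + E + 10) with hX
  have h1 : 2 ^ d * N ^ D * (c + 1) ≤ X := by
    calc 2 ^ d * N ^ D * (c + 1) ≤ 2 ^ d * N ^ D * N ^ (E + 10) := by gcongr
      _ = X := by rw [hX]; ring
  have h2 : N ^ 3 ≤ X := by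
    calc N ^ 3 ≤ N ^ (D + E + 10) := Nat.pow_le_pow_right (by omega) (by omega)
      _ ≤ X := Nat.le_mul_of_pos_left _ (by positivity)
  have h4 : 7 * N ^ 2 ≤ N ^ 3 := by
    calc 7 * N ^ 2 ≤ N * N ^ 2 := by gcongr
      _ = N ^ 3 := by ring
  have h5 : 49 ≤ N ^ 2 := by nlinarith
  have h6 : q * (2 ^ d * N ^ D * (c + 1) + 3) ≤ N * (2 * X) :=
    Nat.mul_le_mul hq (by omega)
  have h7 : 7 * X ≤ N * X := Nat.mul_le_mul_right _ hN
  have h8 : 7 * (N * X) ≤ N * (N * X) := Nat.mul_le_mul_right _ hN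
  have h9 : 2 ^ d * N ^ (D + E + 12) = N * (N * X) := by rw [hX]; ring
  have h10 : N * (2 * X) = 2 * (N * X) := by ring
  omega

end Seed2L

open Seed2L in
theorem seed2 (hL : List2Stmt) (hD : DetStmt) (hS : SieveStmt) : Seed2Stmt := by
  obtain ⟨D, hL⟩ := hL
  obtain ⟨E, hD⟩ := hD
  refine ⟨D + E + 12, ?_⟩
  intro Ω I P N n m b k K d F _ _ _ t e A ξ ρ z g hN hn1 hb hn hd hF hk hK1 hK ht he hA
  classical
  obtain ⟨τ, hτ⟩ := exists_tau F
  let a : Fin n := ⟨0, hn1⟩
  have hmb : m * b ≤ n := by simpa using Fintype.card_le_of_injective e he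
  have hkN : k + 1 ≤ N :=
    ((Nat.le_mul_of_pos_right _ hb).trans Nat.lt_two_pow_self.le).trans hk
  let Q : Set (Ω → Bool) :=
    (⋃ p : (Fin m × Fin b) × Fin (k + 1) × Fin n,
      Bits fun ω => af ξ (e p.1) p.2.1 p.2.2 (A ω (e p.1) p.2.2)) ∪
      ⋃ p : (Fin m × Fin b) × Fin (k + 1), Bits fun _ : Ω => bf ρ (e p.1) p.2
  have hQ : Gen I (m * b * ((k + 1) * n) * 10) P Q := by
    have h1 := U5.Gen.iUnion (I := I) (P := P) (s := 10)
      (fun p : (Fin m × Fin b) × Fin (k + 1) × Fin n =>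
        Bits fun ω => af ξ (e p.1) p.2.1 p.2.2 (A ω (e p.1) p.2.2))
      (fun p => (U5.TF.op1 (af ξ (e p.1) p.2.1 p.2.2)
        (U5.TF.of_subset (I := I) (hA (e p.1) p.2.2) 0)).le (by simp))
    have h2 := U5.Gen.iUnion (I := I) (P := P) (s := 0)
      (fun p : (Fin m × Fin b) × Fin (k + 1) => Bits fun _ : Ω => bf ρ (e p.1) p.2)
      (fun p => U5.TF.const _ 0)
    simpa using h1.union h2
  set X := xw2 (univ.image e) ξ z g with hX
  set r := rr (univ.image e) ρ z with hr
  let Φ : F → Ω → (Fin n → ZMod 2) → ZMod 2 := fun s ω y =>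
    τ (s * (lap (fun w c => if A ω c w = true then X w c else 0) r a y).det)
  have hΦ : ∀ (s : F) (P' : Set (Ω → Bool)) (y : Ω → Fin n → ZMod 2), P ∪ Q ⊆ P' →
      (∀ v, Bits (fun ω => y ω v) ⊆ P') →
      TF I P' (n * n * N ^ 7 + N ^ E + 5 * Fintype.card F) fun ω => Φ s ω (y ω) := by
    intro s P' y hP' hy
    have h1 := U5.Gen.iUnion (I := I) (P := P') (s := N ^ 7)
      (fun p : Fin n × Fin n => Bits fun ω =>
        lap (fun w c => if A ω c w = true then X w c else 0) r a (y ω) p.1 p.2)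
      (fun p => entry A X r a y hN (by omega) hF
        (fun u v => (hA u v).trans (Set.subset_union_left.trans hP')) hy p.1 p.2)
    have h2 := U5.TF.after h1 (hD Ω I _ N n F
      (fun ω => lap (fun w c => if A ω c w = true then X w c else 0) r a (y ω))
      hN (by omega) hF (fun u v => (Set.subset_iUnion (fun p : Fin n × Fin n => Bits fun ω =>
        lap (fun w c => if A ω c w = true then X w c else 0) r a (y ω) p.1 p.2)
        (u, v)).trans Set.subset_union_right))
    simpa using U5.TF.op1 (fun x : F => τ (s * x)) h2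
  have hO := fun s : F => hL Ω I (P ∪ Q) N n m b (k + 1) K d _ t
    (fun ω p i u => af ξ (e p) i u (A ω (e p) u)) (fun _ p => bf ρ (e p)) (Φ s) hN hb (by omega)
    (by omega) hd hk hK1 hK ht
    (fun v i u => (Set.subset_iUnion (fun p : (Fin m × Fin b) × Fin (k + 1) × Fin n =>
      Bits fun ω => af ξ (e p.1) p.2.1 p.2.2 (A ω (e p.1) p.2.2)) (v, i, u)).trans
      (Set.subset_union_left.trans Set.subset_union_right))
    (fun v i => (Set.subset_iUnion
      (fun p : (Fin m × Fin b) × Fin (k + 1) => Bits fun _ : Ω => bf ρ (e p.1) p.2)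
      (v, i)).trans (Set.subset_union_right.trans Set.subset_union_right))
    (hΦ s)
  choose o ho ho' using hO
  have hsum : ∀ s ω, ∑ y ∈ pts2 (form2 e ρ (hs2 (A ω) ξ)), Φ s ω y = τ (s * hc (A ω) X) := by
    intro s ω
    rw [← hc_eq hS e (A ω) ξ ρ z g a, mul_sum, map_sum]
  refine ⟨fun ω => decide (∃ s, o s ω = true), ?_, fun ω => ⟨?_, ?_⟩⟩
  · have h1 := U5.TF.exists univ o (fun s _ => ho s) (fun ω => decide (∃ s, o s ω = true))
      (fun ω => by simp)
    refine (U5.TF.after hQ h1).le ?_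
    rw [card_univ]
    refine size2 hN ?_ hF (size1 hN (by omega) hF)
    calc m * b * ((k + 1) * n) ≤ N * (N * N) := by gcongr <;> omega
      _ = N ^ 3 := by ring
  · intro h
    obtain ⟨s, hs'⟩ := of_decide_eq_true h
    have h1 := (ho' s ω).1 hs'
    rw [forms_eq, hsum] at h1
    intro h0
    rw [h0, mul_zero, map_zero] at h1
    exact zero_ne_one h1
  · intro h1 h2 h3
    refine decide_eq_true ⟨(hc (A ω) X)⁻¹, ?_⟩
    have h4 := (ho' (hc (A ω) X)⁻¹ ω).2
    rw [forms_eq, hsum, inv_mul_cancel₀ h3, hτ] at h4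
    exact h4 h1 h2 rfl

end Pool.Agent.MP_6b3410_lc.D4
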