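import Pool.Agent.MP_6b3410_lc.D4.Spec

/-!
The Laplacian sieve for directed Hamilton cycles in characteristic two.
-/

set_option autoImplicit false

namespace Pool.Agent.MP_6b3410_lc.D4

open Finset
open Pool.Agent.MP_6b3410_lc.H5 (Cyc DHam)

namespace SieveL

variable {n : ℕ}

theorem det_exp {ι F : Type} [Fintype ι] [CommRing F] (wt : ι → Fin n → F)
    (col : ι → Fin n → Fin n → F) :
    (Matrix.of fun w c => ∑ o, wt o c * col o c w).det =
      ∑ f : Fin n → ι, (∏ c, wt (f c) c) * (Matrix.of fun w c => col (f c) c w).det := by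
  classical
  simp only [Matrix.det_apply', Matrix.of_apply, prod_univ_sum, Fintype.piFinset_univ, mul_sum]
  rw [sum_comm]
  refine sum_congr rfl fun f _ => sum_congr rfl fun σ _ => ?_
  rw [prod_mul_distrib]
  ring

/-- the column vectors -/
def col (F : Type) [CommRing F] (a : Fin n) (o : Option (Fin n)) (c w : Fin n) : F :=
  (if w = c then 1 else 0) + if c ≠ a ∧ o = some w then 1 else 0

/-- the weights -/
def wt {F : Type} [CommRing F] (X : Fin n → Fin n → F) (r : Fin n → F) (y : Fin n → ZMod 2)
    (o : Option (Fin n)) (c : Fin n) : F :=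
  o.elim (r c) fun u => if y u = 1 then X u c else 0

theorem lap_eq {F : Type} [CommRing F] (X : Fin n → Fin n → F) (r : Fin n → F) (a : Fin n)
    (y : Fin n → ZMod 2) :
    lap X r a y = Matrix.of fun w c => ∑ o, wt X r y o c * col F a o c w := by
  ext w c
  simp only [lap, Matrix.of_apply, col, mul_add, sum_add_distrib]
  congr 1
  · rw [← sum_mul, Fintype.sum_option]
    split_ifs <;> simp [wt]
  · rw [sum_eq_single (some w)]
    · by_cases h : c = a <;> by_cases h' : y w = 1 <;> simp [wt, h, h']
    · intro o _ ho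
      simp [ho]
    · simp

theorem mulVec_col {F : Type} [CommRing F] (a : Fin n) {s : Fin n → Fin n}
    (hs : Function.Injective s) (v : Fin n → F) (c : Fin n) :
    (Matrix.of fun w c => col F a (some (s c)) c w).mulVec v (s c) =
      v (s c) + if c ≠ a then v c else 0 := by
  simp only [Matrix.mulVec, dotProduct, Matrix.of_apply, col, add_mul, sum_add_distrib]
  congr 1
  · simp
  · rw [sum_eq_single c]
    · by_cases h : c = a <;> simp [h]
    · intro b _ hb
      simp [hs.ne hb]
    · simp

theorem det_one (F : Type) [Field F] [CharP F 2] (a : Fin n) {s : Fin n → Fin n}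
    (hs : Function.Injective s)
    (clo : ∀ S : Set (Fin n), S.Nonempty → (∀ v ∈ S, s v ∈ S) → ∀ v, v ∈ S) :
    (Matrix.of fun w c => col F a (some (s c)) c w).det = 1 := by
  have h1 : (Matrix.of fun w c => col (ZMod 2) a (some (s c)) c w).det ≠ 0 := fun h => by
    obtain ⟨v, v0, hv⟩ := Matrix.exists_mulVec_eq_zero_iff.2 h
    have e : ∀ c, v (s c) + (if c ≠ a then v c else 0) = 0 := fun c => by
      rw [← mulVec_col a hs v c, hv, Pi.zero_apply]
    refine v0 (funext (clo {c | v c = 0} ⟨s a, by simpa using e a⟩ fun c hc => ?_))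
    have hc' : v c = 0 := hc
    simpa [hc'] using e c
  have h2 : ∀ x : ZMod 2, x ≠ 0 → x = 1 := by decide
  have h3 := RingHom.map_det (ZMod.castHom (dvd_refl 2) F)
    (Matrix.of fun w c => col (ZMod 2) a (some (s c)) c w)
  rw [h2 _ h1, map_one] at h3
  rw [h3]
  congr 1
  ext w c
  simp only [RingHom.mapMatrix_apply, Matrix.map_apply, Matrix.of_apply, col, map_add,
    apply_ite (ZMod.castHom (dvd_refl 2) F), map_one, map_zero]

theorem det_zero' (F : Type) [Field F] [CharP F 2] (a : Fin n) {s : Fin n → Fin n}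
    (hs : Function.Injective s) (S : Set (Fin n)) (h0 : S.Nonempty) (ha : a ∉ S)
    (hS : ∀ c, s c ∈ S ↔ c ∈ S) : (Matrix.of fun w c => col F a (some (s c)) c w).det = 0 := by
  classical
  refine Matrix.exists_mulVec_eq_zero_iff.1 ⟨fun c => if c ∈ S then 1 else 0, fun h => ?_, ?_⟩
  · obtain ⟨c, hc⟩ := h0
    simpa [hc] using congrFun h c
  · funext w
    obtain ⟨c, rfl⟩ := Finite.surjective_of_injective hs w
    rw [mulVec_col a hs, Pi.zero_apply]
    by_cases h : c = a
    · simp [h, hS, ha]
    · simp only [hS, ne_eq, h, not_false_eq_true, if_true]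
      exact CharTwo.add_self_eq_zero _

theorem det_zero (F : Type) [Field F] [CharP F 2] (a : Fin n) {s : Fin n → Fin n}
    (hs : Function.Injective s)
    (clo : ¬ ∀ S : Set (Fin n), S.Nonempty → (∀ v ∈ S, s v ∈ S) → ∀ v, v ∈ S) :
    (Matrix.of fun w c => col F a (some (s c)) c w).det = 0 := by
  simp only [not_forall] at clo
  obtain ⟨S, h0, h1, v, hv⟩ := clo
  have hS : ∀ c, s c ∈ S ↔ c ∈ S := fun c => by
    refine ⟨fun h => ?_, h1 c⟩
    obtain ⟨c', e1, e2⟩ := (((Set.toFinite S).injOn_iff_bijOn_of_mapsTo h1).1 hs.injOn).surjOn h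
    exact hs e2 ▸ e1
  by_cases ha : a ∈ S
  · exact det_zero' F a hs Sᶜ ⟨v, hv⟩ (fun h => h ha) fun c => not_congr (hS c)
  · exact det_zero' F a hs S h0 ha hS

theorem sum_zero {F : Type} [Field F] [CharP F 2] (X : Fin n → Fin n → F) (r : Fin n → F)
    (f : Fin n → Option (Fin n)) (u : Fin n) (hu : ∀ c, f c ≠ some u) :
    ∑ y : Fin n → ZMod 2, ∏ c, wt X r y (f c) c = 0 := by
  refine sum_involution (fun y _ => y + Pi.single u 1) (fun y _ => ?_) (fun y _ _ h => ?_)
    (fun _ _ => mem_univ _) fun y _ => ?_
  · have : ∏ c, wt X r (y + Pi.single u 1) (f c) c = ∏ c, wt X r y (f c) c := by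
      refine prod_congr rfl fun c _ => ?_
      have := hu c
      cases h : f c with
      | none => rfl
      | some u' =>
        have e : u' ≠ u := fun e => this (e ▸ h)
        simp [wt, e]
    rw [this]
    exact CharTwo.add_self_eq_zero _
  · simpa using congrFun h u
  · funext c
    rw [Pi.add_apply, Pi.add_apply, add_assoc, CharTwo.add_self_eq_zero, add_zero]

theorem sum_one {F : Type} [Field F] (X : Fin n → Fin n → F) (r : Fin n → F)
    {s : Fin n → Fin n} (hs : Function.Surjective s) :
    ∑ y : Fin n → ZMod 2, ∏ c, wt X r y (some (s c)) c = ∏ c, X (s c) c := by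
  rw [sum_eq_single 1]
  · simp [wt]
  · intro y _ hy
    obtain ⟨u, hu⟩ := Function.ne_iff.1 hy
    obtain ⟨c, rfl⟩ := hs u
    have hu' : y (s c) ≠ 1 := hu
    exact prod_eq_zero (mem_univ c) (by simp [wt, hu'])
  · simp

end SieveL

open SieveL in
theorem sieve : SieveStmt := by
  intro n F _ _ A X r a
  classical
  simp only [lap_eq, det_exp]
  rw [sum_comm, hc, cycs, sum_filter]
  simp only [← sum_mul]
  refine (Fintype.sum_of_injective (fun (s : Fin n → Fin n) c => some (s c))
    (fun s s' h => funext fun c => Option.some.inj (congrFun h c)) _ _ (fun f hf => ?_)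
    fun s => ?_).symm
  · by_cases h : ∀ u, ∃ c, f c = some u
    · exfalso
      choose g hg using h
      have g1 : Function.Injective g := fun u u' e =>
        Option.some.inj ((hg u).symm.trans (e ▸ hg u'))
      have g2 : ∀ c, ∃ u, some u = f c := fun c => by
        obtain ⟨u, rfl⟩ := Finite.surjective_of_injective g1 c
        exact ⟨u, (hg u).symm⟩
      choose s hs using g2
      exact hf ⟨s, funext hs⟩
    · simp only [not_forall, not_exists] at h
      obtain ⟨u, hu⟩ := h
      rw [sum_zero _ r f u hu, zero_mul]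
  · by_cases hs : Function.Surjective s
    · have hi := Finite.injective_iff_surjective.2 hs
      rw [sum_one _ r hs]
      split_ifs with h
      · rw [det_one F a hi h.clo, mul_one]
        exact prod_congr rfl fun c _ => by rw [if_pos (h.arc c)]
      · by_cases h' : ∀ v, A v (s v) = true
        · rw [det_zero F a hi fun clo => h ⟨hi, h', clo⟩, mul_zero]
        · obtain ⟨v, hv⟩ := not_forall.1 h'
          rw [prod_eq_zero (mem_univ v) (if_neg hv), zero_mul]
    · rw [if_neg fun h => hs (Finite.surjective_of_injective h.inj)]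
      obtain ⟨u, hu⟩ := not_forall.1 hs
      rw [sum_zero _ r _ u fun c e => hu ⟨c, Option.some.inj e⟩, zero_mul]

end Pool.Agent.MP_6b3410_lc.D4
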