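import Pool.Agent.MP_6b3410_lc.D4.Spec2
import Pool.Agent.MP_6b3410_lc.U5.Compl

/-!
Row SZ2: a surviving family is seen by half of the field weights.
-/

set_option autoImplicit false

namespace Pool.Agent.MP_6b3410_lc.D4

open Finset MvPolynomial

theorem sz2 : Sz2Stmt := by
  rintro n k F _ _ _ _ T H ξ hF ⟨σ₀, l, h⟩
  let S := (Fin n × Fin k) ⊕ (Fin n × Fin n)
  let e : (S → F) ≃ (Fin n → Fin k → F) × (Fin n → Fin n → F) :=
    (Equiv.sumArrowEquivProdArrow _ _ _).trans ((Equiv.curry _ _ _).prodCongr (Equiv.curry _ _ _))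
  let Q : MvPolynomial S F :=
    ∑ σ ∈ T, ∏ c, xw2 H ξ (fun c i => X (.inl (c, i))) (fun w c => X (.inr (w, c))) (σ c) c
  have ev : ∀ z, eval z Q = ∑ σ ∈ T, ∏ c, xw2 H ξ (e z).1 (e z).2 (σ c) c := fun z => by
    simp only [Q, xw2, emb2, map_sum, map_prod, apply_ite (eval z), eval_X, map_zero]
    rfl
  let φ := ZMod.castHom (dvd_refl 2) F
  have hQ : Q ≠ 0 := fun q => by
    have a := ev (e.symm (fun c i => φ (l c i), fun w c => if w = σ₀ c then 1 else 0))
    have b : ∀ v m : BK k, emb2 v (fun i => φ (m i)) = φ (m ⬝ᵥ v) := fun v m => by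
      rw [emb2, dotProduct, map_sum]
      refine sum_congr rfl fun i _ => ?_
      rcases (show ∀ x : ZMod 2, x = 0 ∨ x = 1 by decide) (v i) with x | x <;> simp [x]
    have c := congrArg φ h
    rw [q, map_zero, e.apply_symm_apply] at a
    rw [map_one, map_sum, sum_filter] at c
    refine zero_ne_one (a.trans (Eq.trans (sum_congr rfl fun σ _ => ?_) c))
    simp only [xw2, b]
    rw [prod_ite, prod_boole, map_prod]
    simp
  have hd : Q.totalDegree ≤ n := totalDegree_finsetSum_le fun σ _ =>
    (totalDegree_finsetProd _ _).trans ((sum_le_card_nsmul _ _ 1 fun c _ => by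
      unfold xw2 emb2
      split_ifs
      · refine totalDegree_finsetSum_le fun i _ => ?_
        split_ifs <;> simp
      · simp).trans (by simp))
  rw [← Fintype.card_congr e]
  refine (U5.Compl.sz Q hQ (by omega)).trans (Nat.mul_le_mul_left 2 (card_equiv e fun z => ?_).le)
  simp only [mem_filter, ev, mem_univ]

end Pool.Agent.MP_6b3410_lc.D4
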