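import Pool.Agent.MP_6b3410_lc.D4.Spec2

/-!
Row TREE: a rich family of paths makes random colourings succeed more often.
-/

set_option autoImplicit false

namespace Pool.Agent.MP_6b3410_lc.D4

open Finset Function
open Pool.Agent.MP_6b3410_lc.U5 (orb orb_succ)
open Pool.Agent.MP_6b3410_lc.U5.Cap (sg mu sg_mul)

namespace TreeL

section av

variable {V : Type} [Fintype V] [DecidableEq V]

/-- the mean over all colourings -/
noncomputable def av (f : (V → Bool) → ℝ) : ℝ := (∑ W, f W) / Fintype.card (V → Bool)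

lemma card_pos : (0 : ℝ) < Fintype.card (V → Bool) := by exact_mod_cast Fintype.card_pos

lemma av_mono {f g : (V → Bool) → ℝ} (h : ∀ W, f W ≤ g W) : av f ≤ av g :=
  div_le_div_of_nonneg_right (sum_le_sum fun W _ => h W) card_pos.le

lemma av_congr {f g : (V → Bool) → ℝ} (h : ∀ W, f W = g W) : av f = av g := by
  rw [show f = g from funext h]

lemma av_add (f g : (V → Bool) → ℝ) : av (fun W => f W + g W) = av f + av g := by
  simp only [av, sum_add_distrib, add_div]

lemma av_mul (c : ℝ) (f : (V → Bool) → ℝ) : av (fun W => c * f W) = c * av f := by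
  simp only [av, ← mul_sum, mul_div_assoc]

lemma av_const (c : ℝ) : av (fun _ : V → Bool => c) = c := by
  rw [av, sum_const, card_univ, nsmul_eq_mul, mul_div_cancel_left₀ _ card_pos.ne']

lemma av_flip (w : V) (f : (V → Bool) → ℝ) : av (fun W => f (update W w (!W w))) = av f := by
  unfold av
  congr 1
  exact Equiv.sum_comp
    (Function.Involutive.toPerm (fun W : V → Bool => update W w (!W w)) fun W => by simp) f

lemma av_upd (w : V) (b : (V → Bool) → Bool) (f : (V → Bool) → ℝ) :
    av f = av fun W => 1 / 2 * (f (update W w (b W)) + f (update W w (!b W))) := by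
  have h : av (fun W => 1 / 2 * (f W + f (update W w (!W w)))) = av f := by
    rw [av_mul, av_add, av_flip]; ring
  rw [← h]
  refine av_congr fun W => ?_
  by_cases hb : b W = W w
  · rw [hb, update_eq_self]
  · have h1 : b W = !W w := by
      revert hb; cases b W <;> cases W w <;> simp
    rw [h1, Bool.not_not, update_eq_self, add_comm]

lemma jensen {Ψ : (V → Bool) → ℝ} (h : ∀ W, 0 < Ψ W) :
    Real.exp (av fun W => Real.log (Ψ W)) ≤ av Ψ := by
  generalize hm : (av fun W => Real.log (Ψ W)) = m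
  have h1 : av (fun W => Real.exp m * (Real.log (Ψ W) + (1 - m))) = Real.exp m := by
    rw [av_mul, av_add, av_const, hm]; ring
  rw [← h1]
  refine av_mono fun W => ?_
  have h2 : Ψ W = Real.exp m * Real.exp (Real.log (Ψ W) - m) := by
    rw [← Real.exp_add, add_sub_cancel, Real.exp_log (h W)]
  have h3 := mul_le_mul_of_nonneg_left (Real.add_one_le_exp (Real.log (Ψ W) - m))
    (Real.exp_pos m).le
  rw [← h2] at h3
  linarith

/-- `Ψ` depends only on the colours in `Q` -/
def Ind (Ψ : (V → Bool) → ℝ) (Q : Finset V) : Prop :=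
  ∀ v, v ∉ Q → ∀ W x, Ψ (update W v x) = Ψ W

lemma loglog {A B X Y : ℝ} (hA : 0 < A) (hB : 0 < B) (hX : 0 < X) (hY : 0 < Y)
    (h : A * B ≤ X * Y) : Real.log A + Real.log B ≤ Real.log X + Real.log Y := by
  rw [← Real.log_mul hA.ne' hB.ne', ← Real.log_mul hX.ne' hY.ne']
  exact Real.log_le_log (mul_pos hA hB) h

lemma sg_pm (x : Bool) : sg x = 1 ∨ sg x = -1 := by cases x <;> simp [sg]

lemma sg_not (x : Bool) : sg (!x) = -sg x := by cases x <;> simp [sg]

lemma sg_sq (x : Bool) : sg x * sg x = 1 := by cases x <;> simp [sg]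

omit [Fintype V] in
lemma ind_upd {Ψ : (V → Bool) → ℝ} {w v : V} {P : Finset V} (hI : Ind Ψ (insert w P))
    (hv : v ∉ P) (W : V → Bool) (x y : Bool) :
    Ψ (update (update W v x) w y) = Ψ (update W w y) := by
  by_cases h : v = w
  · rw [h, update_idem]
  · rw [update_comm h, hI v (by simp [h, hv])]

/-- the forced step -/
lemma forced {β θ : ℝ} (b0 : 0 ≤ β) (b1 : β < 1) (t0 : 0 < θ) (ht : θ ^ 2 = 1 - β ^ 2)
    {Ψ : (V → Bool) → ℝ} (hΨ : ∀ W, 0 < Ψ W) {w c : V} (hc : c ≠ w) {P : Finset V}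
    (hI : Ind Ψ (insert w P)) :
    ∃ Ψ' : (V → Bool) → ℝ, (∀ W, 0 < Ψ' W) ∧ Ind Ψ' (insert c (P.erase c)) ∧
      Real.exp (av fun W => Real.log (Ψ W)) * θ ^ P.card ≤
        Real.exp (av fun W => Real.log (Ψ' W)) * θ ^ (P.erase c).card ∧
      ∀ F F' : (V → Bool) → ℝ, (∀ W x, F' (update W w x) = F' W) →
        (∀ W, (1 - β * (sg (W w) * sg (W c))) * F' W ≤ F W) →
        av (fun W => Ψ' W * F' W) ≤ av fun W => Ψ W * F W := by
  have pos : ∀ (A B : ℝ) (x : Bool), 0 < A → 0 < B →
      0 < 1 / 2 * (A * (1 + β * sg x) + B * (1 - β * sg x)) := fun A B x hA hB => by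
    have h1 : 0 < 1 + β * sg x := by rcases sg_pm x with h | h <;> rw [h] <;> linarith
    have h2 : 0 < 1 - β * sg x := by rcases sg_pm x with h | h <;> rw [h] <;> linarith
    positivity
  have hm := av_upd w (fun _ => true) fun W => Real.log (Ψ W)
  simp only [Bool.not_true] at hm
  refine ⟨fun W => 1 / 2 * (Ψ (update W w true) * (1 + β * sg (W c)) +
    Ψ (update W w false) * (1 - β * sg (W c))), fun W => pos _ _ _ (hΨ _) (hΨ _), ?_, ?_, ?_⟩
  · intro v hv W x
    have h1 : v ≠ c := fun h => hv (by simp [h])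
    have h2 : v ∉ P := fun h => hv (by simp [h, h1])
    simp only [ind_upd hI h2, update_of_ne h1.symm]
  · by_cases hP : c ∈ P
    · have h1 : (av fun W => Real.log (Ψ W)) + Real.log θ ≤ av fun W => Real.log
          (1 / 2 * (Ψ (update W w true) * (1 + β * sg (W c)) +
            Ψ (update W w false) * (1 - β * sg (W c)))) := by
        rw [hm, ← av_const (V := V) (Real.log θ), ← av_add]
        refine av_mono fun W => ?_
        have hA := hΨ (update W w true)
        have hB := hΨ (update W w false)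
        have hX := pos _ _ (W c) hA hB
        have hs := sg_sq (W c)
        generalize Ψ (update W w true) = A at hA hX ⊢
        generalize Ψ (update W w false) = B at hB hX ⊢
        generalize sg (W c) = s at hs hX ⊢
        have h2 := loglog (mul_pos hA t0) (mul_pos hB t0) hX hX (by
          have : A * θ * (B * θ) = A * (1 + β * s) * (B * (1 - β * s)) := by
            linear_combination A * B * ht + A * B * β ^ 2 * hs
          rw [this]
          nlinarith [sq_nonneg (A * (1 + β * s) - B * (1 - β * s))])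
        rw [Real.log_mul hA.ne' t0.ne', Real.log_mul hB.ne' t0.ne'] at h2
        linarith
      have h2 := Real.exp_le_exp.2 h1
      rw [Real.exp_add, Real.exp_log t0] at h2
      rw [← card_erase_add_one hP, pow_succ', ← mul_assoc]
      exact mul_le_mul_of_nonneg_right h2 (pow_pos t0 _).le
    · rw [erase_eq_of_notMem hP]
      refine mul_le_mul_of_nonneg_right (Real.exp_le_exp.2 ?_) (pow_pos t0 _).le
      rw [hm]
      refine le_of_le_of_eq (av_mono fun W => ?_) (av_upd c (fun _ => true) _).symm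
      simp only [ind_upd hI hP, update_self]
      have hA := hΨ (update W w true)
      have hB := hΨ (update W w false)
      have h2 := loglog hA hB (pos _ _ true hA hB) (pos _ _ (!true) hA hB) (by
        generalize Ψ (update W w true) = A
        generalize Ψ (update W w false) = B
        have h3 : 0 ≤ (1 - β ^ 2) * (A - B) ^ 2 := mul_nonneg (by nlinarith) (sq_nonneg _)
        simp only [sg_not]
        have hs := sg_sq true
        generalize sg true = s at hs
        have : 1 / 2 * (A * (1 + β * s) + B * (1 - β * s)) *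
            (1 / 2 * (A * (1 + β * -s) + B * (1 - β * -s))) =
            A * B + (1 - β ^ 2) * (A - B) ^ 2 / 4 := by
          linear_combination (-(β ^ 2 * (A - B) ^ 2) / 4) * hs
        linarith)
      linarith
  · intro F F' h1 h2
    refine le_of_le_of_eq (av_mono fun W => ?_) (av_upd w (fun _ => true) _).symm
    have a1 := mul_le_mul_of_nonneg_left (h2 (update W w true)) (hΨ (update W w true)).le
    have a2 := mul_le_mul_of_nonneg_left (h2 (update W w false)) (hΨ (update W w false)).le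
    simp only [h1, update_self, update_of_ne hc] at a1 a2
    have e1 : sg true = -1 := by simp [sg]
    have e2 : sg false = 1 := by simp [sg]
    rw [e1] at a1
    rw [e2] at a2
    simp only [Bool.not_true]
    linarith

/-- the branching step -/
lemma branch {β θ : ℝ} (b0 : 1714 / 10000 ≤ β) (b1 : β ≤ 172 / 1000) (t0 : 0 < θ)
    (ht : θ ^ 2 = 1 - β ^ 2) {Ψ : (V → Bool) → ℝ} (hΨ : ∀ W, 0 < Ψ W) {w c d : V} (hc : c ≠ w)
    (hd : d ≠ w) (hcd : c ≠ d) {P : Finset V} (hI : Ind Ψ (insert w P)) :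
    ∃ Ψ₁ Ψ₂ : (V → Bool) → ℝ, (∀ W, 0 < Ψ₁ W) ∧ (∀ W, 0 < Ψ₂ W) ∧
      Ind Ψ₁ (insert c (P.erase c)) ∧ Ind Ψ₂ (insert d ((insert c P).erase d)) ∧
      Real.exp (av fun W => Real.log (Ψ W)) * θ ^ P.card * (1071 / 1000) ≤
        Real.exp (av fun W => Real.log (Ψ₁ W)) * θ ^ (P.erase c).card +
        Real.exp (av fun W => Real.log (Ψ₂ W)) * θ ^ ((insert c P).erase d).card ∧
      ∀ F F₁ F₂ : (V → Bool) → ℝ, (∀ W x, F₁ (update W w x) = F₁ W) →
        (∀ W x, F₂ (update W w x) = F₂ W) →
        (∀ W, (1 - β * (sg (W w) * sg (W c))) * F₁ W ≤ F W) →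
        (∀ W, (1 - β * (sg (W w) * sg (W d))) * F₂ W ≤ F W) →
        av (fun W => Ψ₁ W * F₁ W) + av (fun W => Ψ₂ W * F₂ W) ≤ av fun W => Ψ W * F W := by
  have p1 : 0 < (1 + β) / 2 := by linarith
  have p2 : ∀ x y, 0 < 1 - β * (sg x * sg y) := fun x y => by
    rcases sg_mul x y with h | h <;> rw [h] <;> linarith
  have t1 : θ ≤ 1 := by nlinarith [sq_nonneg β]
  refine ⟨fun W => (1 + β) / 2 * Ψ (update W w (!W c)),
    fun W => 1 / 2 * Ψ (update W w (W c)) * (1 - β * (sg (W c) * sg (W d))),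
    fun W => mul_pos p1 (hΨ _), fun W => mul_pos (mul_pos (by norm_num) (hΨ _)) (p2 _ _),
    ?_, ?_, ?_, ?_⟩
  · intro v hv W x
    have h1 : v ≠ c := fun h => hv (by simp [h])
    have h2 : v ∉ P := fun h => hv (by simp [h, h1])
    simp only [ind_upd hI h2, update_of_ne h1.symm]
  · intro v hv W x
    have h0 : v ≠ d := fun h => hv (by simp [h])
    have h1 : v ≠ c := fun h => hv (by simp [h, hcd])
    have h2 : v ∉ P := fun h => hv (by simp [h, h0])
    simp only [ind_upd hI h2, update_of_ne h1.symm, update_of_ne h0.symm]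
  · have hm := av_upd w (fun W => W c) fun W => Real.log (Ψ W)
    rw [av_mul, av_add] at hm
    have e1 : (av fun W => Real.log ((1 + β) / 2 * Ψ (update W w (!W c)))) =
        Real.log ((1 + β) / 2) + av fun W => Real.log (Ψ (update W w (!W c))) := by
      rw [← av_const (V := V) (Real.log ((1 + β) / 2)), ← av_add]
      exact av_congr fun W => Real.log_mul p1.ne' (hΨ _).ne'
    have e0 : (av fun W : V → Bool => Real.log (1 - β * (sg (W c) * sg (W d)))) = Real.log θ := by
      rw [av_upd c (fun _ => true), ← av_const (V := V) (Real.log θ)]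
      refine av_congr fun W => ?_
      simp only [update_self, update_of_ne hcd.symm]
      rw [← Real.log_mul (p2 _ _).ne' (p2 _ _).ne', sg_not]
      have : (1 - β * (sg true * sg (W d))) * (1 - β * (-sg true * sg (W d))) = θ ^ 2 := by
        have h1 := sg_sq true
        have h2 := sg_sq (W d)
        generalize sg true = s at h1
        generalize sg (W d) = r at h2
        linear_combination (-1) * ht - β ^ 2 * (r * r) * h1 - β ^ 2 * h2
      rw [this, Real.log_pow]
      push_cast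
      ring
    have e2 : (av fun W => Real.log (1 / 2 * Ψ (update W w (W c)) *
          (1 - β * (sg (W c) * sg (W d))))) =
        Real.log (1 / 2) + (av fun W => Real.log (Ψ (update W w (W c)))) + Real.log θ := by
      rw [← e0, ← av_const (V := V) (Real.log (1 / 2)), ← av_add, ← av_add]
      refine av_congr fun W => ?_
      rw [Real.log_mul (mul_pos (by norm_num) (hΨ _)).ne' (p2 _ _).ne',
        Real.log_mul (by norm_num) (hΨ _).ne']
    rw [e1, e2, Real.exp_add, Real.exp_add, Real.exp_add, Real.exp_log p1, Real.exp_log t0,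
      Real.exp_log (by norm_num), hm]
    by_cases hP : c ∈ P
    · have k2 : θ ^ P.card ≤ θ ^ ((insert c P).erase d).card :=
        pow_le_pow_of_le_one t0.le t1 (by rw [insert_eq_of_mem hP]; exact card_erase_le)
      have k1 : θ ^ P.card = θ ^ (P.erase c).card * θ := by
        rw [← card_erase_add_one hP, pow_succ]
      have k0 : 0 < θ ^ (P.erase c).card := pow_pos t0 _
      generalize (av fun W => Real.log (Ψ (update W w (W c)))) = x
      generalize (av fun W => Real.log (Ψ (update W w (!W c)))) = y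
      rw [show 1 / 2 * (x + y) = x / 2 + y / 2 by ring, Real.exp_add,
        show Real.exp x = Real.exp (x / 2) ^ 2 by rw [sq, ← Real.exp_add, add_halves],
        show Real.exp y = Real.exp (y / 2) ^ 2 by rw [sq, ← Real.exp_add, add_halves]]
      have hx := Real.exp_pos (x / 2)
      have hy := Real.exp_pos (y / 2)
      generalize Real.exp (x / 2) = X at hx ⊢
      generalize Real.exp (y / 2) = Y at hy ⊢
      have k3 := mul_le_mul_of_nonneg_left k2 (show 0 ≤ 1 / 2 * X ^ 2 * θ by positivity)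
      rw [k1] at k3 ⊢
      generalize θ ^ (P.erase c).card = R at k0 k3 ⊢
      have k4 : X * θ * Y * (1071 / 1000) ≤ (1 + β) / 2 * Y ^ 2 + 1 / 2 * (X * θ) ^ 2 := by
        nlinarith [sq_nonneg (X * θ - 1071 / 1000 * Y), sq_nonneg Y]
      have k5 := mul_le_mul_of_nonneg_right k4 k0.le
      nlinarith
    · have k2 : θ ^ P.card * θ ≤ θ ^ ((insert c P).erase d).card := by
        rw [← pow_succ]
        exact pow_le_pow_of_le_one t0.le t1 (card_erase_le.trans (card_insert_le _ _))
      have e3 : (av fun W => Real.log (Ψ (update W w (!W c)))) =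
          av fun W => Real.log (Ψ (update W w (W c))) := by
        rw [← av_flip c fun W => Real.log (Ψ (update W w (W c)))]
        refine av_congr fun W => ?_
        simp only [ind_upd hI hP, update_self]
      rw [e3, erase_eq_of_notMem hP]
      generalize (av fun W => Real.log (Ψ (update W w (W c)))) = x
      rw [show 1 / 2 * (x + x) = x by ring]
      have hx := Real.exp_pos x
      generalize Real.exp x = X at hx ⊢
      have k0 : 0 < θ ^ P.card := pow_pos t0 _
      have k3 := mul_le_mul_of_nonneg_left k2 (show 0 ≤ 1 / 2 * X * θ by positivity)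
      generalize θ ^ P.card = R at k0 k3 ⊢
      have k4 : (1071 / 1000 : ℝ) ≤ (1 + β) / 2 + 1 / 2 * θ ^ 2 := by rw [ht]; nlinarith
      have k5 := mul_le_mul_of_nonneg_left k4 (mul_pos hx k0).le
      nlinarith
  · intro F F₁ F₂ h1 h2 h3 h4
    rw [← av_add]
    refine le_of_le_of_eq (av_mono fun W => ?_) (av_upd w (fun W => W c) _).symm
    have a1 := mul_le_mul_of_nonneg_left (h3 (update W w (!W c))) (hΨ (update W w (!W c))).le
    have a2 := mul_le_mul_of_nonneg_left (h4 (update W w (W c))) (hΨ (update W w (W c))).le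
    simp only [h1, h2, update_self, update_of_ne hc, update_of_ne hd] at a1 a2
    rw [sg_not, neg_mul, sg_sq] at a1
    linarith

end av

section paths

variable {k : ℕ}

/-- the weight of the path from step `i` on -/
noncomputable def pr (β : ℝ) (a : Fin (k + 1)) (σ : Fin (k + 1) → Fin (k + 1)) (i : ℕ)
    (W : Fin (k + 1) → Bool) : ℝ :=
  ∏ t ∈ Ico i k, (1 - β * (sg (W (orb a σ t)) * sg (W (orb a σ (t + 1)))))

/-- the envelope of the members with a given next vertex -/
lemma child {β : ℝ} {a w c : Fin (k + 1)} {i : ℕ} (hi : i < k)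
    {T : Finset (Fin (k + 1) → Fin (k + 1))} (hT : T.Nonempty)
    (hinj : ∀ σ ∈ T, Set.InjOn (orb a σ) {t | t < k + 1}) (hw : ∀ σ ∈ T, orb a σ i = w)
    (hc : ∀ σ ∈ T, σ w = c) {F : (Fin (k + 1) → Bool) → ℝ} (hF : ∀ σ ∈ T, ∀ W, pr β a σ i W ≤ F W) :
    c ≠ w ∧ ∃ F' : (Fin (k + 1) → Bool) → ℝ, (∀ σ ∈ T, ∀ W, pr β a σ (i + 1) W ≤ F' W) ∧
      (∀ W x, F' (update W w x) = F' W) ∧
      ∀ W, (1 - β * (sg (W w) * sg (W c))) * F' W ≤ F W := by
  have hne : ∀ σ ∈ T, ∀ t, i < t → t ≤ k → orb a σ t ≠ w := fun σ hσ t h1 h2 h => by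
    have := hinj σ hσ (show t < k + 1 by omega) (show i < k + 1 by omega) (h.trans (hw σ hσ).symm)
    omega
  have hnext : ∀ σ ∈ T, orb a σ (i + 1) = c := fun σ hσ => by rw [orb_succ, hw σ hσ, hc σ hσ]
  refine ⟨?_, fun W => T.sup' hT fun σ => pr β a σ (i + 1) W,
    fun σ hσ W => le_sup' (fun σ => pr β a σ (i + 1) W) hσ, fun W x => ?_, fun W => ?_⟩
  · obtain ⟨σ, hσ⟩ := hT
    rw [← hnext σ hσ]
    exact hne σ hσ _ (Nat.lt_succ_self i) hi
  · refine sup'_congr hT rfl fun σ hσ => prod_congr rfl fun t ht => ?_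
    obtain ⟨h1, h2⟩ := mem_Ico.1 ht
    rw [update_of_ne (hne σ hσ t (by omega) (by omega)),
      update_of_ne (hne σ hσ (t + 1) (by omega) (by omega))]
  · obtain ⟨σ, hσ, e⟩ := exists_mem_eq_sup' hT fun σ => pr β a σ (i + 1) W
    beta_reduce
    rw [e]
    refine le_of_eq_of_le ?_ (hF σ hσ W)
    rw [pr, pr, prod_eq_prod_Ico_succ_bot hi, hw σ hσ, hnext σ hσ]

lemma claim {β θ : ℝ} (b0 : 1714 / 10000 ≤ β) (b1 : β ≤ 172 / 1000) (t0 : 0 < θ)
    (ht : θ ^ 2 = 1 - β ^ 2) (a : Fin (k + 1)) (j : ℕ) :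
    ∀ (i : ℕ) (T : Finset (Fin (k + 1) → Fin (k + 1))) (L : ℕ) (w : Fin (k + 1))
      (P : Finset (Fin (k + 1))) (Ψ F : (Fin (k + 1) → Bool) → ℝ), i + j = k → T.Nonempty →
      (∀ σ ∈ T, Set.InjOn (orb a σ) {t | t < k + 1}) →
      (∀ σ ∈ T, ∀ τ ∈ T, (∀ t < k + 1, orb a σ t = orb a τ t) → σ = τ) →
      (∀ σ ∈ T, ∀ τ ∈ T, ∀ t ≤ i, orb a σ t = orb a τ t) → (∀ σ ∈ T, orb a σ i = w) →
      (∀ W, 0 < Ψ W) → Ind Ψ (insert w P) → Rich L T → (∀ σ ∈ T, ∀ W, pr β a σ i W ≤ F W) →
      Real.exp (av fun W => Real.log (Ψ W)) * θ ^ P.card * (1071 / 1000) ^ L ≤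
        av fun W => Ψ W * F W := by
  have t1 : θ ≤ 1 := by nlinarith [sq_nonneg β]
  induction j with
  | zero =>
    intro i T L w P Ψ F hi hT hinj huniq hpre hw hΨ hI hR hF
    obtain rfl : i = k := hi
    obtain ⟨σ, hσ⟩ := hT
    obtain rfl : L = 0 := by
      by_contra hL
      obtain ⟨τ, hτ, hne, -⟩ := hR σ hσ ∅ (by simpa using Nat.pos_of_ne_zero hL)
      exact hne (huniq τ hτ σ hσ fun t ht => hpre τ hτ σ hσ t (by omega))
    rw [pow_zero, mul_one]
    refine (mul_le_of_le_one_right (Real.exp_pos _).le (pow_le_one₀ t0.le t1)).trans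
      ((jensen hΨ).trans (av_mono fun W => le_mul_of_one_le_right (hΨ W).le ?_))
    simpa [pr] using hF σ hσ W
  | succ j ih =>
    intro i T L w P Ψ F hi hT hinj huniq hpre hw hΨ hI hR hF
    have hik : i < k := by omega
    have step : ∀ c, (T.filter fun σ => σ w = c).Nonempty → c ≠ w ∧
        ∃ F' : (Fin (k + 1) → Bool) → ℝ, (∀ W x, F' (update W w x) = F' W) ∧
        (∀ W, (1 - β * (sg (W w) * sg (W c))) * F' W ≤ F W) ∧
        ∀ (L' : ℕ) (P' : Finset (Fin (k + 1))) (Ψ' : (Fin (k + 1) → Bool) → ℝ), (∀ W, 0 < Ψ' W) →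
          Ind Ψ' (insert c P') → Rich L' (T.filter fun σ => σ w = c) →
          Real.exp (av fun W => Real.log (Ψ' W)) * θ ^ P'.card * (1071 / 1000) ^ L' ≤
            av fun W => Ψ' W * F' W := fun c hc => by
      have hs : ∀ σ ∈ T.filter fun σ => σ w = c, σ ∈ T := fun σ h => (mem_filter.1 h).1
      have hn : ∀ σ ∈ T.filter fun σ => σ w = c, orb a σ (i + 1) = c := fun σ h => by
        rw [orb_succ, hw σ (hs σ h), (mem_filter.1 h).2]
      obtain ⟨h1, F', h2, h3, h4⟩ := child hik hc (fun σ h => hinj σ (hs σ h))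
        (fun σ h => hw σ (hs σ h)) (fun σ h => (mem_filter.1 h).2) fun σ h => hF σ (hs σ h)
      refine ⟨h1, F', h3, h4, fun L' P' Ψ' h5 h6 h7 => ih (i + 1) _ L' c P' Ψ' F' (by omega) hc
        (fun σ h => hinj σ (hs σ h)) (fun σ h τ h' => huniq σ (hs σ h) τ (hs τ h'))
        (fun σ h τ h' t ht => ?_) hn h5 h6 h7 h2⟩
      rcases Nat.lt_or_ge i t with h8 | h8
      · rw [show t = i + 1 by omega, hn σ h, hn τ h']
      · exact hpre σ (hs σ h) τ (hs τ h') t h8
    obtain ⟨σ, hσ⟩ := hT
    have hc : (T.filter fun τ => τ w = σ w).Nonempty := ⟨σ, mem_filter.2 ⟨hσ, rfl⟩⟩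
    obtain ⟨c1, F₁, f1, f2, f3⟩ := step _ hc
    by_cases hR' : Rich L (T.filter fun τ => τ w = σ w)
    · obtain ⟨Ψ', g1, g2, g3, g4⟩ := forced (β := β) (by linarith) (by linarith) t0 ht hΨ c1 hI
      exact (mul_le_mul_of_nonneg_right g3 (by positivity)).trans
        ((f3 L _ Ψ' g1 g2 hR').trans (g4 F F₁ f1 f2))
    · obtain ⟨L', rfl⟩ : ∃ L', L = L' + 1 := by
        refine Nat.exists_eq_succ_of_ne_zero fun h => hR' ?_
        intro τ _ S hS
        omega
      obtain ⟨τ, hτ, hne⟩ : ∃ τ ∈ T, τ w ≠ σ w := by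
        by_contra h
        push Not at h
        exact hR' (by rwa [filter_true_of_mem h])
      have rich : ∀ c, Rich L' (T.filter fun ρ => ρ w = c) := fun c ρ hρ S hS => by
        obtain ⟨ρ', h1, h2, h3⟩ := hR ρ (mem_filter.1 hρ).1 (insert w S)
          (Nat.lt_succ_of_le ((card_insert_le _ _).trans hS))
        exact ⟨ρ', mem_filter.2 ⟨h1, (h3 w (mem_insert_self _ _)).trans (mem_filter.1 hρ).2⟩, h2,
          fun v hv => h3 v (mem_insert_of_mem hv)⟩
      obtain ⟨c2, F₂, e1, e2, e3⟩ := step (τ w) ⟨τ, mem_filter.2 ⟨hτ, rfl⟩⟩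
      obtain ⟨Ψ₁, Ψ₂, g1, g2, g3, g4, g5, g6⟩ := branch b0 b1 t0 ht hΨ c1 c2 hne.symm hI
      have a1 := f3 L' _ Ψ₁ g1 g3 (rich _)
      have a2 := e3 L' _ Ψ₂ g2 g4 (rich _)
      have a3 := g6 F F₁ F₂ f1 e1 f2 e2
      have a4 := mul_le_mul_of_nonneg_right g5 (show (0 : ℝ) ≤ (1071 / 1000) ^ L' by positivity)
      rw [pow_succ]
      linarith

end paths

end TreeL

open TreeL in
theorem tree : TreeStmt := by
  intro k L T a β M b0 b1 hT hinj huniq hR hM
  have h1 : 0 < 1 - β ^ 2 := by nlinarith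
  have key := claim b0 b1 (Real.sqrt_pos.2 h1) (Real.sq_sqrt h1.le) a k 0 T L a ∅ (fun _ => 1)
    (fun W => 2 ^ (k + 1) * M W) (zero_add k) hT hinj huniq
    (fun σ _ τ _ t ht => by rw [Nat.le_zero.1 ht]; rfl) (fun σ _ => rfl) (fun _ => one_pos)
    (fun _ _ _ _ => rfl) hR fun σ hσ W => by
      have h2 := hM σ hσ W
      rw [mu, div_le_iff₀ (by positivity)] at h2
      rw [pr, ← range_eq_Ico, mul_comm]
      exact h2
  simp only [Real.log_one, av_const, Real.exp_zero, card_empty, pow_zero, one_mul] at key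
  rw [av_mul, av, Fintype.card_fun, Fintype.card_bool, Fintype.card_fin] at key
  push_cast at key
  rwa [mul_div_cancel₀ _ (by positivity)] at key

end Pool.Agent.MP_6b3410_lc.D4
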